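import Pool.Agent.DIA.Stmts
import Pool.Agent.Lib_helper74.FS.CHOICE

/-!
# DIA, module BDB: polygons in the frozen encoding
-/

set_option autoImplicit false

namespace Pool.Agent.DIA

open Finset Filter Topology MeasureTheory
open Pool.Agent.Lib27 Pool.Agent.SapR Pool.Agent.Gap Pool.Agent.AreaLaw Pool.Agent.FL
open Pool.Agent.FS
open Pool.Agent.NSP (Reg)
open Pool.Agent.EXW (Mf)

namespace BDB

lemma part2 (hT : TRG_Stmt) (n : ℕ) (b : Bool) (h : ℕ) (hn : 1 ≤ n) :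
    4 * n * Finset.card (@Finset.filter _ (fun q => inC b h (sp q)) (Classical.decPred _) (Omn n)) ≤
      (cls n b h).card := by
  classical
  have h1 := hT n hn (fun _ k _ => if inC b h k then 1 else 0)
  have h2 : 0 ≤ ∑ w ∈ NoCut n, (if inC b h (spn w) then (1 : ℝ) else 0) :=
    Finset.sum_nonneg fun w _ => by split_ifs <;> norm_num
  have h3 : ∑ s ∈ SAP n, (if inC b h (span n s) then (1 : ℝ) else 0) = ((cls n b h).card : ℝ) := by
    unfold cls
    rw [Finset.sum_ite, Finset.sum_const_zero, add_zero, Finset.sum_const, nsmul_eq_mul, mul_one]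
  have h4 : ∑ q ∈ Omn n, (if inC b h (sp q) then (1 : ℝ) else 0) =
      ((Finset.card (@Finset.filter _ (fun q => inC b h (sp q)) (Classical.decPred _) (Omn n)) : ℕ)
        : ℝ) := by
    rw [Finset.sum_ite, Finset.sum_const_zero, add_zero, Finset.sum_const, nsmul_eq_mul, mul_one]
  rw [h3, h4] at h1
  have h5 : ((4 * n * Finset.card (@Finset.filter _ (fun q => inC b h (sp q))
      (Classical.decPred _) (Omn n)) : ℕ) : ℝ) ≤ ((cls n b h).card : ℝ) := by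
    push_cast
    linarith
  exact_mod_cast h5

lemma part3 (hT : TRG_Stmt) (n : ℕ) (σ : ℝ) (hn : 1 ≤ n) (hσ : 0 < σ) :
    4 * n * Zq n σ ≤ ∑ w ∈ SAP n, σ ^ (n - span n w) := by
  have h1 := hT n hn (fun _ k _ => σ ^ (n - k))
  have h2 : 0 ≤ ∑ w ∈ NoCut n, σ ^ (n - spn w) :=
    Finset.sum_nonneg fun w _ => (pow_pos hσ _).le
  rw [h1]
  have h3 : Zq n σ = ∑ q ∈ Omn n, σ ^ (n - sp q) := rfl
  rw [h3]
  linarith

lemma part4 (hT : TRG_Stmt) (n : ℕ) (s : ℝ) (L : ℕ) (hn : 1 ≤ n) (hs : 0 < s) :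
    ∑ w ∈ (SAP n).filter (fun w => L ≤ lspan n w), s ^ (n - span n w) ≤
      4 * n * ∑ q ∈ (Omn n).filter (fun q => L ≤ ls q), wtq n s q +
        ∑ w ∈ NoCut n, s ^ (n - spn w) := by
  have h1 := hT n hn (fun _ k l => if L ≤ l then s ^ (n - k) else 0)
  rw [Finset.sum_filter, h1, Finset.sum_filter]
  have h2 : ∑ w ∈ NoCut n, (if L ≤ lsn w then s ^ (n - spn w) else 0) ≤
      ∑ w ∈ NoCut n, s ^ (n - spn w) := by
    refine Finset.sum_le_sum fun w _ => ?_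
    split_ifs
    · exact le_rfl
    · exact (pow_pos hs _).le
  have h3 : ∑ q ∈ Omn n, (if L ≤ ls q then s ^ (n - sp q) else 0) =
      ∑ q ∈ Omn n, (if L ≤ ls q then wtq n s q else 0) := rfl
  rw [h3]
  linarith

end BDB

set_option linter.unusedVariables false in
open BDB in
theorem t_BDB (hL : LTQ_Stmt) (hT : TRG_Stmt) (hG : HG_Stmt) : BDB_Stmt := by
  refine ⟨fun n w hw => CHOICE.span_le n w hw, fun n b h hn => part2 hT n b h hn,
    fun n σ hn hσ => part3 hT n σ hn hσ, ?_⟩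
  obtain ⟨K, hK⟩ := hL
  refine ⟨K + 2, fun D hD n s ρ hn hs hs1 hρ hcrit htl L => ?_⟩
  have h1 := hK D hD n s ρ hn hs hs1 hρ hcrit htl L
  have h2 := htl.2.2
  rw [← Finset.mul_sum] at h2
  have h3 := part4 hT n s L hn hs
  have hρn : 0 < ρ ^ n := pow_pos hρ n
  have hn1 : (1 : ℝ) ≤ n := by exact_mod_cast hn
  have hD1 : (1 : ℝ) ≤ D := by linarith
  have hθ : 0 ≤ (1 - D⁻¹) ^ n := by
    refine pow_nonneg ?_ n
    have : D⁻¹ ≤ 1 := inv_le_one_of_one_le₀ hD1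
    linarith
  have hDK : 0 < D ^ K := by positivity
  have hnK : 0 < (n : ℝ) ^ K := by positivity
  have hexp : Real.exp (-((L : ℝ) ^ 2 / (D ^ K * n))) ≤
      Real.exp (-((L : ℝ) ^ 2 / (D ^ (K + 2) * n))) := by
    refine Real.exp_le_exp.2 (neg_le_neg ?_)
    refine div_le_div_of_nonneg_left (by positivity) (by positivity) ?_
    refine mul_le_mul_of_nonneg_right ?_ (by linarith)
    exact pow_le_pow_right₀ hD1 (by omega)
  have hc1 : 4 * (n : ℝ) * (D ^ K * (n : ℝ) ^ K) ≤ D ^ (K + 2) * (n : ℝ) ^ (K + 2) := by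
    have e1 : D ^ (K + 2) * (n : ℝ) ^ (K + 2) = (D ^ 2 * (n : ℝ) ^ 2) * (D ^ K * (n : ℝ) ^ K) := by
      ring
    rw [e1]
    refine mul_le_mul_of_nonneg_right ?_ (by positivity)
    have e2 : (4 : ℝ) ≤ D ^ 2 := by nlinarith
    have e3 : (n : ℝ) ≤ (n : ℝ) ^ 2 := by nlinarith
    exact mul_le_mul e2 e3 (by linarith) (by positivity)
  have hc2 : D * (n : ℝ) ≤ D ^ (K + 2) * (n : ℝ) ^ (K + 2) := by
    have e1 : D ≤ D ^ (K + 2) := le_self_pow₀ hD1 (by omega)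
    have e2 : (n : ℝ) ≤ (n : ℝ) ^ (K + 2) := le_self_pow₀ hn1 (by omega)
    exact mul_le_mul e1 e2 (by linarith) (by positivity)
  set E1 := Real.exp (-((L : ℝ) ^ 2 / (D ^ K * n)))
  set E2 := Real.exp (-((L : ℝ) ^ 2 / (D ^ (K + 2) * n)))
  set θ := (1 - D⁻¹) ^ n
  have hE1 : 0 < E1 := Real.exp_pos _
  set A := ∑ q ∈ (Omn n).filter (fun q => L ≤ ls q), wtq n s q
  set B := ∑ w ∈ NoCut n, s ^ (n - spn w)
  calc ρ ^ n * ∑ w ∈ (SAP n).filter (fun w => L ≤ lspan n w), s ^ (n - span n w)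
      ≤ ρ ^ n * (4 * n * A + B) := mul_le_mul_of_nonneg_left h3 hρn.le
    _ = 4 * n * (ρ ^ n * A) + ρ ^ n * B := by ring
    _ ≤ 4 * n * (D ^ K * (n : ℝ) ^ K * E1) + D * n * θ := by
        refine add_le_add (mul_le_mul_of_nonneg_left h1 (by linarith)) h2
    _ = (4 * n * (D ^ K * (n : ℝ) ^ K)) * E1 + D * n * θ := by ring
    _ ≤ (D ^ (K + 2) * (n : ℝ) ^ (K + 2)) * E2 + (D ^ (K + 2) * (n : ℝ) ^ (K + 2)) * θ := by
        refine add_le_add ?_ (mul_le_mul_of_nonneg_right hc2 hθ)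
        exact mul_le_mul hc1 hexp hE1.le (by positivity)
    _ = D ^ (K + 2) * (n : ℝ) ^ (K + 2) * (E2 + θ) := by ring

end Pool.Agent.DIA
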