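import Pool.Agent.DIA.Stmts

/-!
# Classes of polygons as weights
-/

set_option autoImplicit false

namespace Pool.Agent.DIA

open Finset Filter Topology MeasureTheory
open Pool.Agent.Lib27 Pool.Agent.SapR Pool.Agent.Gap Pool.Agent.AreaLaw Pool.Agent.FL
open Pool.Agent.FS
open Pool.Agent.NSP (Reg)
open Pool.Agent.EXW (Mf)

namespace CERx

theorem sum_ind {n : ℕ} {F : Finset (Fin (2 * n) → Fin 4)} (hF : F ⊆ SAP n)
    (f : (Fin (2 * n) → Fin 4) → ℝ) :
    ∑ s ∈ SAP n, (if s ∈ F then (1 : ℝ) else 0) * f s = ∑ s ∈ F, f s := by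
  simp only [ite_mul, one_mul, zero_mul]
  rw [Finset.sum_ite_mem, Finset.inter_eq_right.2 hF]

theorem sum_ind1 {n : ℕ} {F : Finset (Fin (2 * n) → Fin 4)} (hF : F ⊆ SAP n) :
    ∑ s ∈ SAP n, (if s ∈ F then (1 : ℝ) else 0) = F.card := by
  rw [Finset.sum_ite_mem, Finset.inter_eq_right.2 hF]
  simp

theorem wZ_ind {n : ℕ} {F : Finset (Fin (2 * n) → Fin 4)} (hF : F ⊆ SAP n) :
    wZ n (fun s => if s ∈ F then 1 else 0) = F.card := sum_ind1 hF

theorem wCdf_ind {n : ℕ} {F : Finset (Fin (2 * n) → Fin 4)} (hF : F ⊆ SAP n) (x : ℝ) :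
    wCdf n (fun s => if s ∈ F then 1 else 0) x = areaCdf n F x := by
  classical
  unfold wCdf areaCdf
  rw [wZ_ind hF, sum_ind hF]
  congr 1
  rw [Finset.sum_ite_mem]
  rw [Finset.sum_const, nsmul_eq_mul, mul_one]
  congr 2
  ext s
  simp only [Finset.mem_inter, Finset.mem_filter]
  constructor
  · rintro ⟨⟨_, h1⟩, h2⟩
    exact ⟨h2, h1⟩
  · rintro ⟨h1, h2⟩
    exact ⟨⟨hF h1, h2⟩, h1⟩

theorem wMom_ind {n : ℕ} {F : Finset (Fin (2 * n) → Fin 4)} (hF : F ⊆ SAP n) (r : ℕ) :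
    wMom n (fun s => if s ∈ F then 1 else 0) r = KCC.areaMoment n F r := by
  unfold wMom KCC.areaMoment
  rw [wZ_ind hF, sum_ind hF, sum_ind hF]

theorem pointwise (b : Bool) (h a c : ℕ) (p₁ p₂ p₃ p₄ p₅ : Prop) [Decidable p₁] [Decidable p₂]
    [Decidable p₃] [Decidable p₄] [Decidable p₅] (h₁ : p₁ ↔ inC b h (max a c))
    (h₂ : p₂ ↔ inC b h a) (h₃ : p₃ ↔ inC b h c) (h₄ : p₄ ↔ inC b h a ∧ h ≤ c)
    (h₅ : p₅ ↔ inC b h c ∧ h ≤ a) :
    |(if p₁ then (1 : ℝ) else 0) - ((if p₂ then 1 else 0) + (if p₃ then 1 else 0))| ≤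
      (if p₄ then 1 else 0) + (if p₅ then 1 else 0) := by
  cases b
  · have e1 : p₁ ↔ h ≤ a ∨ h ≤ c := by rw [h₁]; simp [inC]
    have e2 : p₂ ↔ h ≤ a := by rw [h₂]; simp [inC]
    have e3 : p₃ ↔ h ≤ c := by rw [h₃]; simp [inC]
    have e4 : p₄ ↔ h ≤ a ∧ h ≤ c := by rw [h₄]; simp [inC]
    have e5 : p₅ ↔ h ≤ c ∧ h ≤ a := by rw [h₅]; simp [inC]
    by_cases c1 : p₁ <;> by_cases c2 : p₂ <;> by_cases c3 : p₃ <;> by_cases c4 : p₄ <;>
      by_cases c5 : p₅ <;> simp only [c1, c2, c3, c4, c5, if_true, if_false] <;>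
      rw [e1] at c1 <;> rw [e2] at c2 <;> rw [e3] at c3 <;> rw [e4] at c4 <;> rw [e5] at c5 <;>
      first | (exfalso; omega) | norm_num
  · have e1 : p₁ ↔ (a = h ∧ c ≤ h) ∨ (c = h ∧ a ≤ h) := by
      rw [h₁]
      simp only [inC, true_and, Bool.true_eq_false, false_and, or_false]
      rcases le_total a c with h6 | h6
      · rw [max_eq_right h6]
        omega
      · rw [max_eq_left h6]
        omega
    have e2 : p₂ ↔ a = h := by rw [h₂]; simp [inC]
    have e3 : p₃ ↔ c = h := by rw [h₃]; simp [inC]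
    have e4 : p₄ ↔ a = h ∧ h ≤ c := by rw [h₄]; simp [inC]
    have e5 : p₅ ↔ c = h ∧ h ≤ a := by rw [h₅]; simp [inC]
    by_cases c1 : p₁ <;> by_cases c2 : p₂ <;> by_cases c3 : p₃ <;> by_cases c4 : p₄ <;>
      by_cases c5 : p₅ <;> simp only [c1, c2, c3, c4, c5, if_true, if_false] <;>
      rw [e1] at c1 <;> rw [e2] at c2 <;> rw [e3] at c3 <;> rw [e4] at c4 <;> rw [e5] at c5 <;>
      first | (exfalso; omega) | norm_num

end CERx

open CERx in
theorem t_CER (hD : DMX_Stmt) (hR : RFL_Stmt) : CER_Stmt := by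
  classical
  intro n b h
  refine ⟨?_, ?_, ?_, ?_⟩
  · have hcls : ∀ s ∈ SAP n, (s ∈ cls n b h ↔ inC b h (span n s)) := by
      intro s hs
      simp [cls, hs]
    have hdcl : ∀ s ∈ SAP n, (s ∈ dcl n b h ↔ inC b h (diam n s)) := by
      intro s hs
      simp [dcl, hs]
    have hbad : ∀ s ∈ SAP n, (s ∈ bad n b h ↔ inC b h (span n s) ∧ h ≤ lspan n s) := by
      intro s hs
      simp [bad, hs]
    have hsub : bad n b h ⊆ SAP n := by
      unfold bad
      exact Finset.filter_subset _ _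
    have h1 : wErr n (fun s => if s ∈ cls n b h then 1 else 0)
        (fun s => if s ∈ dcl n b h then 1 else 0) ≤
        ∑ s ∈ SAP n, ((if s ∈ bad n b h then (1 : ℝ) else 0) +
          (if fl n s ∈ bad n b h then 1 else 0)) := by
      unfold wErr
      apply Finset.sum_le_sum
      intro s hs
      obtain ⟨r1, _, _, r4, r5, _⟩ := hR n s
      have hfs := r1 hs
      refine pointwise b h (span n s) (lspan n s) _ _ _ _ _ ?_ ?_ ?_ ?_ ?_
      · rw [hdcl s hs, hD]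
      · exact hcls s hs
      · rw [hcls _ hfs, r4]
      · exact hbad s hs
      · rw [hbad _ hfs, r4, r5]
    refine h1.trans ?_
    rw [Finset.sum_add_distrib, sum_ind1 hsub]
    have h2 : ∑ s ∈ SAP n, (if fl n s ∈ bad n b h then (1 : ℝ) else 0) =
        ∑ s ∈ SAP n, (if s ∈ bad n b h then (1 : ℝ) else 0) := by
      refine Finset.sum_bij' (fun s _ => fl n s) (fun s _ => fl n s) ?_ ?_ ?_ ?_ ?_
      · intro s hs
        exact (hR n s).1 hs
      · intro s hs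
        exact (hR n s).1 hs
      · intro s _
        exact (hR n s).2.1
      · intro s _
        exact (hR n s).2.1
      · intro s _
        rfl
    rw [h2, sum_ind1 hsub]
    linarith
  · intro F hF
    exact ⟨wZ_ind hF, wCdf_ind hF, wMom_ind hF⟩
  · ext s
    simp [dcl, inC]
  · ext s
    simp [dcl, inC]

end Pool.Agent.DIA
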