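import Pool.Agent.DIA.Stmts

/-!
# The diameter is the maximum of the two spans (module DMX, helper1)
-/

set_option autoImplicit false

namespace Pool.Agent.DIA

open Finset
open Pool.Agent.Lib27 Pool.Agent.SapR Pool.Agent.Gap Pool.Agent.AreaLaw Pool.Agent.FL
open Pool.Agent.FS

private lemma dmx_span (n : ℕ) (s : Fin (2 * n) → Fin 4) {i j : ℕ} (hi : i < 2 * n)
    (hj : j < 2 * n) : ((pos n s i).1 + (pos n s i).2 - ((pos n s j).1 + (pos n s j).2)).toNat ≤
      span n s := by
  unfold span
  exact Finset.le_sup (f := fun k : ℕ × ℕ =>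
    ((pos n s k.1).1 + (pos n s k.1).2 - ((pos n s k.2).1 + (pos n s k.2).2)).toNat)
    (b := (i, j)) (Finset.mem_product.2 ⟨Finset.mem_range.2 hi, Finset.mem_range.2 hj⟩)

private lemma dmx_lspan (n : ℕ) (s : Fin (2 * n) → Fin 4) {i j : ℕ} (hi : i < 2 * n)
    (hj : j < 2 * n) : ((pos n s i).1 - (pos n s i).2 - ((pos n s j).1 - (pos n s j).2)).toNat ≤
      lspan n s := by
  unfold lspan
  exact Finset.le_sup (f := fun k : ℕ × ℕ =>
    ((pos n s k.1).1 - (pos n s k.1).2 - ((pos n s k.2).1 - (pos n s k.2).2)).toNat)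
    (b := (i, j)) (Finset.mem_product.2 ⟨Finset.mem_range.2 hi, Finset.mem_range.2 hj⟩)

theorem t_DMX : DMX_Stmt := by
  intro n s
  apply le_antisymm
  · unfold diam
    apply Finset.sup_le
    rintro ⟨i, j⟩ hk
    rw [Finset.mem_product, Finset.mem_range, Finset.mem_range] at hk
    obtain ⟨hi, hj⟩ := hk
    dsimp only at hi hj ⊢
    have h1 := dmx_span n s hi hj
    have h2 := dmx_span n s hj hi
    have h3 := dmx_lspan n s hi hj
    have h4 := dmx_lspan n s hj hi
    have h5 := le_max_left (span n s) (lspan n s)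
    have h6 := le_max_right (span n s) (lspan n s)
    rcases abs_cases ((pos n s i).1 - (pos n s j).1) with ⟨e1, _⟩ | ⟨e1, _⟩ <;>
    rcases abs_cases ((pos n s i).2 - (pos n s j).2) with ⟨e2, _⟩ | ⟨e2, _⟩ <;>
    rw [e1, e2] <;> omega
  · apply max_le
    · unfold span diam
      apply Finset.sup_mono_fun
      rintro ⟨i, j⟩ _
      dsimp only
      have h1 := le_abs_self ((pos n s i).1 - (pos n s j).1)
      have h2 := le_abs_self ((pos n s i).2 - (pos n s j).2)
      omega
    · unfold lspan diam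
      apply Finset.sup_mono_fun
      rintro ⟨i, j⟩ _
      dsimp only
      have h1 := le_abs_self ((pos n s i).1 - (pos n s j).1)
      have h2 := neg_abs_le ((pos n s i).2 - (pos n s j).2)
      omega

end Pool.Agent.DIA
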