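import Pool.Agent.DIA.FinalDefs
import Pool.Agent.NSP.StmtsM

/-!
# Project DIA (MP_f6626d_co): the graph diameter instead of the span, definitions

`hl p` half of the number of steps of a piece `p`, `htn p` its height, `jump p` the change of the
gap; `ep p s` end point, `vs p s` starting points of the steps, `vt p s` all vertices.
-/

set_option autoImplicit false

namespace Pool.Agent.DIA

open Finset Filter Topology MeasureTheory
open Pool.Agent.Lib27 Pool.Agent.SapR Pool.Agent.Gap Pool.Agent.AreaLaw Pool.Agent.FL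
open Pool.Agent.FS

/-- lateral coordinate -/
def lat (p : ℤ × ℤ) : ℤ := p.1 - p.2

/-- lateral span of a closed word -/
def lsn (w : Wd) : ℕ :=
  ((vs 0 w).toFinset ×ˢ (vs 0 w).toFinset).sup (fun p => (lat p.1 - lat p.2).toNat)

/-- lateral span in the frozen encoding -/
def lspan (n : ℕ) (s : Fin (2 * n) → Fin 4) : ℕ :=
  (Finset.range (2 * n) ×ˢ Finset.range (2 * n)).sup (fun k =>
    ((pos n s k.1).1 - (pos n s k.1).2 - ((pos n s k.2).1 - (pos n s k.2).2)).toNat)

/-- reflection of the letters: North and South are exchanged -/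
def rf : Fin 4 → Fin 4 := ![0, 3, 2, 1]

/-- reflection of a word -/
def fl (n : ℕ) (s : Fin (2 * n) → Fin 4) : Fin (2 * n) → Fin 4 := fun i => rf (s i)

/-- displacement of the midpoint of the gap along a piece -/
def kap (p : Wd × Wd) : ℤ := lat (ep 0 p.1) - jump p

/-- weight of a piece -/
noncomputable def wp (s ρ : ℝ) (p : Wd × Wd) : ℝ := ρ ^ hl p * s ^ (hl p - htn p)

/-- weighted number of arches of gap `x` and half length `m` -/
noncomputable def Al (r : ℕ) (s ρ : ℝ) (x : ℤ) (m : ℕ) : ℝ :=
  ρ ^ m * ∑ w ∈ ArchSet r x (2 * m), s ^ (m - hgt w)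

/-- weighted number of caps of gap `x` and half length `m` -/
noncomputable def Cl (r : ℕ) (s ρ : ℝ) (x : ℤ) (m : ℕ) : ℝ :=
  ρ ^ m * ∑ w ∈ CapSet r x (2 * m), s ^ (m - hgt w)

/-- sum over the vertices `v` of a word of `cosh (g * (lat v + x))` -/
noncomputable def vc (g : ℝ) (x : ℤ) (w : Wd) : ℝ :=
  ((vt 0 w).map (fun v => Real.cosh (g * ((lat v + x : ℤ) : ℝ)))).sum

/-- arches weighted by the sum over their vertices `v` of `cosh (g * (lat v + x))` -/
noncomputable def Vl (r : ℕ) (s ρ g : ℝ) (x : ℤ) (m : ℕ) : ℝ :=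
  ρ ^ m * ∑ w ∈ ArchSet r x (2 * m), s ^ (m - hgt w) * vc g x w

/-- lateral span of the canonical polygon word `q` -/
def ls (q : QI) : ℕ := lsn (q.2.2.2 ++ rot2 q.2.2.1)

/-! ### Weighted polygons -/

/-- total weight -/
noncomputable def wZ (n : ℕ) (W : (Fin (2 * n) → Fin 4) → ℝ) : ℝ := ∑ s ∈ SAP n, W s

open Classical in
/-- distribution function of `area / E[area]` under the weights `W` -/
noncomputable def wCdf (n : ℕ) (W : (Fin (2 * n) → Fin 4) → ℝ) (x : ℝ) : ℝ :=
  (∑ s ∈ (SAP n).filter (fun s => area n s * wZ n W ≤ x * ∑ t ∈ SAP n, W t * area n t), W s) /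
    wZ n W

/-- moments of `area / E[area]` under the weights `W` -/
noncomputable def wMom (n : ℕ) (W : (Fin (2 * n) → Fin 4) → ℝ) (r : ℕ) : ℝ :=
  ((∑ s ∈ SAP n, W s * area n s ^ r) / wZ n W) / ((∑ s ∈ SAP n, W s * area n s) / wZ n W) ^ r

/-- the error when the weights `W'` are compared with `W` and its reflection -/
noncomputable def wErr (n : ℕ) (W W' : (Fin (2 * n) → Fin 4) → ℝ) : ℝ :=
  ∑ s ∈ SAP n, |W' s - (W s + W (fl n s))|

open Classical in
/-- polygons of the class `(b, h)` of the span whose lateral span is also at least `h` -/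
noncomputable def bad (n : ℕ) (b : Bool) (h : ℕ) : Finset (Fin (2 * n) → Fin 4) :=
  (SAP n).filter (fun s => inC b h (span n s) ∧ h ≤ lspan n s)

open Classical in
/-- the class `(b, h)` of the diameter -/
noncomputable def dcl (n : ℕ) (b : Bool) (h : ℕ) : Finset (Fin (2 * n) → Fin 4) :=
  (SAP n).filter (fun s => inC b h (diam n s))

/-- the quotient of the numbers of elements of `bad` and of the class, amplified -/
noncomputable def bq (b : Bool) (n h : ℕ) : ℝ :=
  Real.exp (Real.sqrt n) * (bad n b h).card / (cls n b h).card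

end Pool.Agent.DIA
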