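import Pool.Agent.DIA.Stmts

/-!
# Project DIA (MP_f6626d_co): the error under the force (module FER)
-/

set_option autoImplicit false

namespace Pool.Agent.DIA

open Finset Filter Topology MeasureTheory
open Pool.Agent.Lib27 Pool.Agent.SapR Pool.Agent.Gap Pool.Agent.AreaLaw Pool.Agent.FL
open Pool.Agent.FS
open Pool.Agent.NSP (Reg)
open Pool.Agent.EXW (Mf)

namespace FER

/-- the pointwise error -/
theorem pt (a b L : ℕ) {f : ℝ} (hf : 0 ≤ f) :
    |Real.exp (f * ((max a b : ℕ) : ℝ)) - (Real.exp (f * a) + Real.exp (f * b))| ≤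
      (if L ≤ b then Real.exp (f * a) else 0) + Real.exp (f * L) := by
  have h1 : |Real.exp (f * ((max a b : ℕ) : ℝ)) - (Real.exp (f * a) + Real.exp (f * b))| =
      Real.exp (f * ((min a b : ℕ) : ℝ)) := by
    rcases le_total a b with h | h
    · rw [max_eq_right h, min_eq_left h]
      have h2 : Real.exp (f * b) - (Real.exp (f * a) + Real.exp (f * b)) =
          -Real.exp (f * a) := by ring
      rw [h2, abs_neg, abs_of_pos (Real.exp_pos _)]
    · rw [max_eq_left h, min_eq_right h]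
      have h2 : Real.exp (f * a) - (Real.exp (f * a) + Real.exp (f * b)) =
          -Real.exp (f * b) := by ring
      rw [h2, abs_neg, abs_of_pos (Real.exp_pos _)]
  rw [h1]
  split_ifs with h
  · have h2 : Real.exp (f * ((min a b : ℕ) : ℝ)) ≤ Real.exp (f * a) := by
      apply Real.exp_le_exp.mpr
      apply mul_le_mul_of_nonneg_left _ hf
      exact_mod_cast min_le_left a b
    have h3 := Real.exp_pos (f * (L : ℝ))
    linarith
  · rw [zero_add]
    apply Real.exp_le_exp.mpr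
    apply mul_le_mul_of_nonneg_left _ hf
    have h2 : min a b ≤ L := (min_le_right a b).trans (not_le.mp h).le
    exact_mod_cast h2

/-- the weights in terms of `s = exp (-f)` -/
theorem wt (f : ℝ) {a n : ℕ} (h : a ≤ n) :
    Real.exp (f * a) = Real.exp (f * n) * Real.exp (-f) ^ (n - a) := by
  rw [← Real.exp_nat_mul, ← Real.exp_add, Nat.cast_sub h]
  congr 1
  ring

theorem two_le_exp : (2 : ℝ) ≤ Real.exp 1 := by
  have := Real.add_one_le_exp (1 : ℝ)
  linarith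

theorem Mf_two {A f : ℝ} (hA : 1 ≤ A) (hf : 0 < f) : 2 ≤ Mf A f := by
  unfold Mf
  refine two_le_exp.trans (Real.exp_le_exp.mpr ?_)
  have h1 : 0 < min f 1 := lt_min hf one_pos
  rw [le_div_iff₀ h1, one_mul]
  exact (min_le_right _ _).trans hA

theorem Mf_mono {A A' f : ℝ} (hA : A ≤ A') (hf : 0 < f) : Mf A f ≤ Mf A' f := by
  unfold Mf
  refine Real.exp_le_exp.mpr ?_
  have h1 : 0 < min f 1 := lt_min hf one_pos
  exact (div_le_div_iff_of_pos_right h1).mpr hA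

theorem tails_mono {C C' θ θ' : ℝ} {n : ℕ} {s rho : ℝ} (h : Tails C θ n s rho) (hC : C ≤ C')
    (hC0 : 0 ≤ C) (hθ0 : 0 ≤ θ) (hθ : θ ≤ θ') : Tails C' θ' n s rho := by
  obtain ⟨h1, h2, h3⟩ := h
  have key : ∀ m : ℕ, C * θ ^ m ≤ C' * θ' ^ m := fun m =>
    mul_le_mul hC (pow_le_pow_left₀ hθ0 hθ m) (by positivity) (hC0.trans hC)
  refine ⟨fun m => (h1 m).trans (key m), fun m => (h2 m).trans (key m), h3.trans ?_⟩
  have e1 : C * n * θ ^ n = n * (C * θ ^ n) := by ring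
  have e2 : C' * n * θ' ^ n = n * (C' * θ' ^ n) := by ring
  rw [e1, e2]
  exact mul_le_mul_of_nonneg_left (key n) (by positivity)

/-- the numerical estimate -/
theorem est {n K1 K2 : ℕ} {D : ℝ} (hn : 1 ≤ n) (hD : 2 ≤ D) (h1 : D ^ (2 * (K2 + 4)) ≤ n)
    (h2 : D ^ (K1 + K2 + 1) ≤ n) :
    D ^ K1 * (D ^ K2 * (n : ℝ) ^ K2 * (Real.exp (-(((⌊(n : ℝ) / D⌋₊ : ℕ) : ℝ) ^ 2 / (D ^ K2 * n))) +
      (1 - D⁻¹) ^ n) + D * Real.exp (-((n : ℝ) / D))) ≤
      3 * ((n : ℝ) ^ (K2 + 1) * Real.exp (-Real.sqrt n)) := by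
  have hn0 : (0 : ℝ) < n := by exact_mod_cast hn
  have hn1 : (1 : ℝ) ≤ n := by exact_mod_cast hn
  have hD0 : 0 < D := by linarith
  have hD1 : 1 ≤ D := by linarith
  have hsq : D ^ (K2 + 4) ≤ Real.sqrt n := by
    apply Real.le_sqrt_of_sq_le
    rw [← pow_mul, mul_comm (K2 + 4) 2]
    exact h1
  have hs0 : 0 < Real.sqrt n := Real.sqrt_pos.mpr hn0
  have hss : Real.sqrt n * Real.sqrt n = n := Real.mul_self_sqrt hn0.le
  have hDn : D ≤ Real.sqrt n := by
    calc D = D ^ 1 := (pow_one D).symm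
      _ ≤ D ^ (K2 + 4) := pow_le_pow_right₀ hD1 (by omega)
      _ ≤ _ := hsq
  -- the exponents
  have a1 : Real.sqrt n ≤ (n : ℝ) / D := by
    rw [le_div_iff₀ hD0]
    calc Real.sqrt n * D ≤ Real.sqrt n * Real.sqrt n := mul_le_mul_of_nonneg_left hDn hs0.le
      _ = n := hss
  have h2D : 2 * D ≤ n := by
    have h3 : D * D ≤ n := by
      calc D * D ≤ Real.sqrt n * Real.sqrt n := mul_le_mul hDn hDn hD0.le hs0.le
        _ = n := hss
    have h4 : 2 * D ≤ D * D := mul_le_mul_of_nonneg_right hD hD0.le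
    linarith
  have hL : (n : ℝ) / (2 * D) ≤ ((⌊(n : ℝ) / D⌋₊ : ℕ) : ℝ) := by
    have h3 : (n : ℝ) / D < ((⌊(n : ℝ) / D⌋₊ : ℕ) : ℝ) + 1 := Nat.lt_floor_add_one _
    have h4 : 1 ≤ (n : ℝ) / (2 * D) := by
      rw [le_div_iff₀ (by positivity)]
      linarith
    have h5 : (n : ℝ) / D = (n : ℝ) / (2 * D) + (n : ℝ) / (2 * D) := by
      field_simp
      ring
    linarith
  have a2 : Real.sqrt n ≤ ((⌊(n : ℝ) / D⌋₊ : ℕ) : ℝ) ^ 2 / (D ^ K2 * n) := by
    have h3 : ((n : ℝ) / (2 * D)) ^ 2 ≤ ((⌊(n : ℝ) / D⌋₊ : ℕ) : ℝ) ^ 2 :=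
      pow_le_pow_left₀ (by positivity) hL 2
    have h4 : ((n : ℝ) / (2 * D)) ^ 2 / (D ^ K2 * n) = n / (4 * (D ^ 2 * D ^ K2)) := by
      field_simp
      ring
    have h5 : 4 * (D ^ 2 * D ^ K2) ≤ D ^ (K2 + 4) := by
      have h6 : (4 : ℝ) ≤ D ^ 2 := by nlinarith
      calc 4 * (D ^ 2 * D ^ K2) ≤ D ^ 2 * (D ^ 2 * D ^ K2) :=
            mul_le_mul_of_nonneg_right h6 (by positivity)
        _ = D ^ (K2 + 4) := by ring
    calc Real.sqrt n = n / Real.sqrt n := by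
          rw [eq_div_iff hs0.ne', hss]
      _ ≤ n / (4 * (D ^ 2 * D ^ K2)) :=
          div_le_div_of_nonneg_left hn0.le (by positivity) (h5.trans hsq)
      _ = ((n : ℝ) / (2 * D)) ^ 2 / (D ^ K2 * n) := h4.symm
      _ ≤ _ := div_le_div_of_nonneg_right h3 (by positivity)
  have b1 : Real.exp (-((n : ℝ) / D)) ≤ Real.exp (-Real.sqrt n) :=
    Real.exp_le_exp.mpr (neg_le_neg a1)
  have b2 : Real.exp (-(((⌊(n : ℝ) / D⌋₊ : ℕ) : ℝ) ^ 2 / (D ^ K2 * n))) ≤
      Real.exp (-Real.sqrt n) := Real.exp_le_exp.mpr (neg_le_neg a2)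
  have b3 : (1 - D⁻¹) ^ n ≤ Real.exp (-Real.sqrt n) := by
    have h3 : 0 ≤ 1 - D⁻¹ := by
      have : D⁻¹ ≤ 1 := inv_le_one_of_one_le₀ hD1
      linarith
    have h4 : 1 - D⁻¹ ≤ Real.exp (-D⁻¹) := by
      have := Real.add_one_le_exp (-D⁻¹)
      linarith
    calc (1 - D⁻¹) ^ n ≤ Real.exp (-D⁻¹) ^ n := pow_le_pow_left₀ h3 h4 n
      _ = Real.exp (-((n : ℝ) / D)) := by
          rw [← Real.exp_nat_mul]
          congr 1
          field_simp
      _ ≤ _ := b1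
  set E : ℝ := Real.exp (-Real.sqrt n) with hE
  have hE0 : 0 < E := Real.exp_pos _
  have hnK : (1 : ℝ) ≤ (n : ℝ) ^ K2 := one_le_pow₀ hn1
  have c1 : D ^ K2 * (n : ℝ) ^ K2 *
      (Real.exp (-(((⌊(n : ℝ) / D⌋₊ : ℕ) : ℝ) ^ 2 / (D ^ K2 * n))) + (1 - D⁻¹) ^ n) ≤
      D ^ K2 * (n : ℝ) ^ K2 * (2 * E) := by
    apply mul_le_mul_of_nonneg_left _ (by positivity)
    linarith
  have c2 : D * Real.exp (-((n : ℝ) / D)) ≤ D * (n : ℝ) ^ K2 * E := by
    calc D * Real.exp (-((n : ℝ) / D)) ≤ D * E := mul_le_mul_of_nonneg_left b1 hD0.le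
      _ = D * 1 * E := by ring
      _ ≤ D * (n : ℝ) ^ K2 * E := by
          apply mul_le_mul_of_nonneg_right _ hE0.le
          exact mul_le_mul_of_nonneg_left hnK hD0.le
  have d1 : D ^ K2 ≤ D ^ (K2 + 1) := pow_le_pow_right₀ hD1 (by omega)
  have d2 : D ≤ D ^ (K2 + 1) := by
    calc D = D ^ 1 := (pow_one D).symm
      _ ≤ D ^ (K2 + 1) := pow_le_pow_right₀ hD1 (by omega)
  calc D ^ K1 * (D ^ K2 * (n : ℝ) ^ K2 *
      (Real.exp (-(((⌊(n : ℝ) / D⌋₊ : ℕ) : ℝ) ^ 2 / (D ^ K2 * n))) +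
      (1 - D⁻¹) ^ n) + D * Real.exp (-((n : ℝ) / D))) ≤
      D ^ K1 * (D ^ K2 * (n : ℝ) ^ K2 * (2 * E) + D * (n : ℝ) ^ K2 * E) :=
        mul_le_mul_of_nonneg_left (add_le_add c1 c2) (by positivity)
    _ ≤ D ^ K1 * (D ^ (K2 + 1) * (n : ℝ) ^ K2 * (2 * E) + D ^ (K2 + 1) * (n : ℝ) ^ K2 * E) := by
        apply mul_le_mul_of_nonneg_left _ (by positivity)
        apply add_le_add
        · apply mul_le_mul_of_nonneg_right _ (by positivity)
          exact mul_le_mul_of_nonneg_right d1 (by positivity)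
        · apply mul_le_mul_of_nonneg_right _ hE0.le
          exact mul_le_mul_of_nonneg_right d2 (by positivity)
    _ = 3 * (D ^ (K1 + K2 + 1) * ((n : ℝ) ^ K2 * E)) := by ring
    _ ≤ 3 * (n * ((n : ℝ) ^ K2 * E)) := by
        apply mul_le_mul_of_nonneg_left _ (by norm_num)
        exact mul_le_mul_of_nonneg_right h2 (by positivity)
    _ = 3 * ((n : ℝ) ^ (K2 + 1) * E) := by ring

theorem lim (k : ℕ) :
    Tendsto (fun n : ℕ => 3 * ((n : ℝ) ^ k * Real.exp (-Real.sqrt n))) atTop (𝓝 0) := by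
  have h1 := Real.tendsto_pow_mul_exp_neg_atTop_nhds_zero (2 * k)
  have h2 : Tendsto (fun n : ℕ => Real.sqrt (n : ℝ)) atTop atTop :=
    Real.tendsto_sqrt_atTop.comp tendsto_natCast_atTop_atTop
  have h3 := (h1.comp h2).const_mul 3
  rw [mul_zero] at h3
  refine h3.congr fun n => ?_
  simp only [Function.comp_apply]
  rw [pow_mul, Real.sq_sqrt (Nat.cast_nonneg n)]

/-- the quotient -/
theorem quot {n : ℕ} {ρ E S S1 c e L X1 Y Z X D1 w : ℝ} (hn : 1 ≤ n) (hρ : 0 < ρ) (hE : 0 < E)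
    (he : e * E = 1)
    (h1 : w ≤ E * S1 + c * L) (h2 : ρ * S1 ≤ X1) (h3 : c * (ρ * e) * L ≤ Y)
    (h4 : 4 * n * Z ≤ S) (h5 : D1⁻¹ ≤ sc n * ρ * Z) (hD1 : 0 < D1) (hX : X = X1 + Y)
    (hX0 : 0 ≤ X) : w / (E * S) ≤ X * D1 * (Real.sqrt n / 4) := by
  have hn0 : (0 : ℝ) < n := by exact_mod_cast hn
  have hs0 : 0 < Real.sqrt n := Real.sqrt_pos.mpr hn0
  have hsc : 0 < sc n := mul_pos hn0 hs0
  have hZ : 0 < Z := by
    have h6 : 0 < D1⁻¹ := inv_pos.mpr hD1
    have h7 : 0 < sc n * ρ * Z := h6.trans_le h5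
    exact (mul_pos_iff_of_pos_left (mul_pos hsc hρ)).mp h7
  have hS : 0 < S := (by positivity : 0 < 4 * n * Z).trans_le h4
  rw [div_le_iff₀ (mul_pos hE hS)]
  have h8 : ρ * w ≤ E * X := by
    have h9 : ρ * w ≤ ρ * (E * S1 + c * L) := mul_le_mul_of_nonneg_left h1 hρ.le
    have h10 : ρ * (E * S1 + c * L) = E * (ρ * S1) + E * (c * (ρ * e) * L) := by
      linear_combination (-(c * ρ * L)) * he
    rw [h10] at h9
    have h11 : E * (ρ * S1) ≤ E * X1 := mul_le_mul_of_nonneg_left h2 hE.le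
    have h12 : E * (c * (ρ * e) * L) ≤ E * Y := mul_le_mul_of_nonneg_left h3 hE.le
    rw [hX, mul_add]
    linarith
  have h13 : E * X ≤ ρ * (X * D1 * (Real.sqrt n / 4) * (E * S)) := by
    have h14 : 1 ≤ D1 * (sc n * ρ * Z) := by
      have h15 := mul_le_mul_of_nonneg_left h5 hD1.le
      rwa [mul_inv_cancel₀ hD1.ne'] at h15
    have h16 : (X * E) * 1 ≤ (X * E) * (D1 * (sc n * ρ * Z)) :=
      mul_le_mul_of_nonneg_left h14 (by positivity)
    have h17 : ρ * (X * D1 * (Real.sqrt n / 4) * (E * (4 * n * Z))) =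
        (X * E) * (D1 * (sc n * ρ * Z)) := by
      unfold sc
      ring
    have h18 : ρ * (X * D1 * (Real.sqrt n / 4) * (E * (4 * n * Z))) ≤
        ρ * (X * D1 * (Real.sqrt n / 4) * (E * S)) := by
      apply mul_le_mul_of_nonneg_left _ hρ.le
      apply mul_le_mul_of_nonneg_left _ (by positivity)
      exact mul_le_mul_of_nonneg_left h4 hE.le
    linarith
  exact le_of_mul_le_mul_left (h8.trans h13) hρ

end FER

/-- FER: the error under the force. -/
theorem t_FER (hZ : ZBF_Stmt) (hP : SPB_Stmt) (hB : BDB_Stmt) (hD : DMX_Stmt) (hR : RFL_Stmt)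
    (hS : EXW.SLOW2_Stmt) : FER_Stmt := by
  classical
  intro f hf j
  obtain ⟨A1, hA1, hZ⟩ := hZ
  obtain ⟨K1, hZ⟩ := hZ f hf
  obtain ⟨A2, hA2, hP⟩ := hP
  obtain ⟨hB1, -, hB3, K2, hB4⟩ := hB
  have hA : 1 ≤ max A1 A2 := hA1.trans (le_max_left _ _)
  obtain ⟨hS1, -, -⟩ := hS (max A1 A2) 0 hA f hf
  refine squeeze_zero' (Eventually.of_forall fun n => ?_) ?_ (FER.lim (j + (K2 + 2)))
  · apply mul_nonneg (by positivity)
    apply div_nonneg
    · exact Finset.sum_nonneg fun s _ => abs_nonneg _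
    · exact Finset.sum_nonneg fun s _ => (Real.exp_pos _).le
  filter_upwards [hZ, hS1 (2 * (K2 + 4)), hS1 (K1 + K2 + 1), hS1 1, eventually_ge_atTop 1]
    with n hn h1 h2 h3 h4
  obtain ⟨hf0, ρ, hρ, hcrit, htail, hZq⟩ := hn
  have hD2 : 2 ≤ Mf (max A1 A2) (f n) := FER.Mf_two hA hf0
  have hDA : Mf A1 (f n) ≤ Mf (max A1 A2) (f n) := FER.Mf_mono (le_max_left _ _) hf0
  have hDB : Mf A2 (f n) ≤ Mf (max A1 A2) (f n) := FER.Mf_mono (le_max_right _ _) hf0
  have hM1 : 2 ≤ Mf A1 (f n) := FER.Mf_two hA1 hf0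
  have hM2 : 2 ≤ Mf A2 (f n) := FER.Mf_two hA2 hf0
  obtain ⟨D, hDdef⟩ : ∃ D, D = Mf (max A1 A2) (f n) := ⟨_, rfl⟩
  rw [← hDdef] at h1 h2 h3 hD2 hDA hDB
  have hD0 : 0 < D := by linarith
  have hn0 : (0 : ℝ) < n := by exact_mod_cast h4
  have hn1 : (1 : ℝ) ≤ n := by exact_mod_cast h4
  have hDn : D ≤ n := by
    have := h3.2
    rwa [pow_one] at this
  obtain ⟨L, hL⟩ : ∃ L, L = ⌊(n : ℝ) / D⌋₊ := ⟨_, rfl⟩
  have hLn : (L : ℝ) * D ≤ n := by
    have h5 : (L : ℝ) ≤ (n : ℝ) / D := by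
      rw [hL]
      exact Nat.floor_le (by positivity)
    rwa [le_div_iff₀ hD0] at h5
  have htail' : Tails D (1 - D⁻¹) n (Real.exp (-f n)) ρ := by
    refine FER.tails_mono htail hDA (by linarith) ?_ ?_
    · have h5 : (Mf A1 (f n))⁻¹ ≤ 1 := inv_le_one_of_one_le₀ (by linarith)
      linarith
    · have h5 : D⁻¹ ≤ (Mf A1 (f n))⁻¹ := inv_anti₀ (by linarith) hDA
      linarith
  have hs1 : Real.exp (-f n) ≤ 1 := by
    rw [← Real.exp_zero]
    exact Real.exp_le_exp.mpr (by linarith)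
  have hB4' := hB4 D hD2 n (Real.exp (-f n)) ρ h4 (Real.exp_pos _) hs1 hρ hcrit htail' L
  have hP' := hP (f n) n L ρ hf0 (hDB.trans hDn)
    ((mul_le_mul_of_nonneg_left hDB (Nat.cast_nonneg L)).trans hLn) hρ hcrit
  have hB3' := hB3 n (Real.exp (-f n)) h4 (Real.exp_pos _)
  have hPY : ((SAP n).card : ℝ) * (ρ ^ n * Real.exp (-f n) ^ n) * Real.exp (f n * L) ≤
      D * Real.exp (-((n : ℝ) / D)) := by
    rw [← mul_pow]
    refine hP'.trans ?_
    apply mul_le_mul hDB _ (Real.exp_pos _).le hD0.le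
    apply Real.exp_le_exp.mpr
    apply neg_le_neg
    exact div_le_div_of_nonneg_left hn0.le (by linarith) hDB
  have hwE : wErr n (fun s => Real.exp (f n * span n s)) (fun s => Real.exp (f n * diam n s)) ≤
      Real.exp (f n * n) * ∑ w ∈ (SAP n).filter (fun w => L ≤ lspan n w),
        Real.exp (-f n) ^ (n - span n w) + ((SAP n).card : ℝ) * Real.exp (f n * L) := by
    calc wErr n (fun s => Real.exp (f n * span n s)) (fun s => Real.exp (f n * diam n s)) ≤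
        ∑ s ∈ SAP n, ((if L ≤ lspan n s then Real.exp (f n * span n s) else 0) +
          Real.exp (f n * L)) := by
          refine Finset.sum_le_sum fun s _ => ?_
          change |Real.exp (f n * diam n s) - (Real.exp (f n * span n s) +
            Real.exp (f n * span n (fl n s)))| ≤ _
          rw [hD n s, (hR n s).2.2.2.1]
          exact FER.pt _ _ _ hf0.le
      _ = _ := by
          rw [Finset.sum_add_distrib, ← Finset.sum_filter, Finset.sum_const, nsmul_eq_mul,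
            Finset.mul_sum]
          congr 1
          refine Finset.sum_congr rfl fun s hs => ?_
          exact FER.wt (f n) (hB1 n s (Finset.mem_filter.mp hs).1)
  have hwZ : wZ n (fun s => Real.exp (f n * span n s)) =
      Real.exp (f n * n) * ∑ w ∈ SAP n, Real.exp (-f n) ^ (n - span n w) := by
    unfold wZ
    rw [Finset.mul_sum]
    exact Finset.sum_congr rfl fun s hs => FER.wt (f n) (hB1 n s hs)
  have hee : Real.exp (-f n) ^ n * Real.exp (f n * n) = 1 := by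
    rw [← Real.exp_nat_mul, ← Real.exp_add, ← Real.exp_zero]
    congr 1
    ring
  have hZq' : (D ^ K1)⁻¹ ≤ sc n * ρ ^ n * Zq n (Real.exp (-f n)) := by
    refine (inv_anti₀ (by positivity) ?_).trans hZq
    exact pow_le_pow_left₀ (by linarith) hDA K1
  have hinv : 0 ≤ 1 - D⁻¹ := by
    have h5 : D⁻¹ ≤ 1 := inv_le_one_of_one_le₀ (by linarith)
    linarith
  have hq := FER.quot (X := D ^ K2 * (n : ℝ) ^ K2 * (Real.exp (-((L : ℝ) ^ 2 / (D ^ K2 * n))) +
    (1 - D⁻¹) ^ n) + D * Real.exp (-((n : ℝ) / D))) h4 (pow_pos hρ n) (Real.exp_pos _) hee hwE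
    hB4' hPY hB3' hZq' (by positivity) rfl (by positivity)
  rw [← hwZ] at hq
  have hest := FER.est (K1 := K1) h4 hD2 h1.2 h2.2
  rw [← hL] at hest
  have hsq : Real.sqrt n / 4 ≤ n := by
    have h5 : Real.sqrt n ≤ n := by
      rw [Real.sqrt_le_left hn0.le]
      nlinarith
    have h6 : 0 ≤ Real.sqrt n := Real.sqrt_nonneg _
    linarith
  calc (n : ℝ) ^ j * (wErr n (fun s => Real.exp (f n * span n s))
      (fun s => Real.exp (f n * diam n s)) / wZ n (fun s => Real.exp (f n * span n s))) ≤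
      (n : ℝ) ^ j * ((3 * ((n : ℝ) ^ (K2 + 1) * Real.exp (-Real.sqrt n))) * n) := by
        apply mul_le_mul_of_nonneg_left _ (by positivity)
        refine hq.trans ?_
        apply mul_le_mul _ hsq (by positivity) (by positivity)
        rw [mul_comm]
        exact hest
    _ = 3 * ((n : ℝ) ^ (j + (K2 + 2)) * Real.exp (-Real.sqrt n)) := by ring

end Pool.Agent.DIA
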