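import Pool.Agent.EXW.FinalDefs

/-!
Graph diameter of self-avoiding polygons (problem MP_f6626d_co). `SAP`, `pos`, `area` are in
`Lib_helper27/Defs.lean`, `Staircase`, `areaCdf` in `Lib_helper41/SapR/FinalDefs.lean`, `span`,
`forceZ`, `forceCdf` in `Lib_helper89/FL/FinalDefs.lean`, `forceMoment` in `EXW/FinalDefs.lean`,
`areaMoment`, `airyMoment` in `KCS/FinalDefs.lean`.
-/

set_option autoImplicit false

namespace Pool.Agent.AreaLaw

/-- The diameter of the polygon `s`: the maximum of the distances `|x - x'| + |y - y'|` (the graph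
distance of the square lattice) of its vertices. -/
def diam (n : ℕ) (s : Fin (2 * n) → Fin 4) : ℕ :=
  (Finset.range (2 * n) ×ˢ Finset.range (2 * n)).sup (fun k =>
    (|(pos n s k.1).1 - (pos n s k.2).1| + |(pos n s k.1).2 - (pos n s k.2).2|).toNat)

/-- Total weight of the self-avoiding polygons of perimeter `2n` under the weights
`exp (f * diam)`. -/
noncomputable def diamZ (f : ℝ) (n : ℕ) : ℝ := ∑ s ∈ SAP n, Real.exp (f * diam n s)

open Classical in
/-- Distribution function of `area / E[area]` for the self-avoiding polygons of perimeter `2n`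
with probabilities proportional to `exp (f * diam)`: the probability that
`area ≤ x * E[area]`. -/
noncomputable def diamCdf (f : ℝ) (n : ℕ) (x : ℝ) : ℝ :=
  (∑ s ∈ (SAP n).filter (fun s => area n s * diamZ f n ≤
      x * ∑ t ∈ SAP n, Real.exp (f * diam n t) * area n t), Real.exp (f * diam n s)) / diamZ f n

/-- The `r`-th moment of `area / E[area]` for the self-avoiding polygons of perimeter `2n` with
probabilities proportional to `exp (f * diam)`: `E[area ^ r] / E[area] ^ r`. -/
noncomputable def diamMoment (f : ℝ) (n r : ℕ) : ℝ :=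
  ((∑ s ∈ SAP n, Real.exp (f * diam n s) * area n s ^ r) / diamZ f n) /
    ((∑ s ∈ SAP n, Real.exp (f * diam n s) * area n s) / diamZ f n) ^ r

end Pool.Agent.AreaLaw
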