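import Pool.Agent.DIA.Stmts
import Pool.Agent.Lib_helper89.FL.K1H

/-!
# DIA_K1G: the canonical root decomposition with a further functional (MP_f6626d_co)
-/

set_option autoImplicit false

namespace Pool.Agent.DIA

open Finset Pool.Agent.Lib27 Pool.Agent.SapR Pool.Agent.SapR.H58 Pool.Agent.FL Pool.Agent.FL.K1H

theorem t_K1G : K1G_Stmt := by
  classical
  intro r n hr Q hQ1 hQ2 F
  have hQ3 : ∀ (j : ℕ) (s : Wd), s.length = 2 * n → ep 0 s = 0 → j ≤ 2 * n →
      Q (s.rotate j) = Q s := by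
    intro j s hl hs hj
    rw [List.rotate_eq_drop_append_take (by omega), hQ1 _ _ (by rwa [List.take_append_drop]),
      List.take_append_drop]
  set G : List (Fin 4) → ℝ := fun s => if 0 < dbl 0 s then F (dbl 0 s) (spn s) (Q s) else 0 with hG
  -- step 1: reversal
  have h1 : ∑ s ∈ Fam r n, F |dbl 0 s| (spn s) (Q s) = 2 * ∑ s ∈ Fam r n, G s := by
    have e1 : ∀ s ∈ Fam r n, F |dbl 0 s| (spn s) (Q s) = G s + G (rv s) := by
      intro s hs
      have hcl := ((mem_Fam r n s).1 hs).1.2.1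
      have hne := dbl_ne_zero r n hr s hs
      simp only [hG, dbl_rv', spn_rv s hcl, hQ2 s hcl]
      rcases lt_or_gt_of_ne hne with h | h
      · rw [if_neg (by omega), if_pos (by omega), abs_of_neg h, zero_add]
      · rw [if_pos h, if_neg (by omega), abs_of_pos h, add_zero]
    rw [sum_congr rfl e1, sum_add_distrib]
    have e2 : ∑ s ∈ Fam r n, G (rv s) = ∑ s ∈ Fam r n, G s := by
      refine sum_nbij' rv rv (fun s hs => fam_rv r n s hs) (fun s hs => fam_rv r n s hs)
        (fun s _ => rv_rv s) (fun s _ => rv_rv s) (fun s _ => rfl)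
    rw [e2]; ring
  -- step 2: rotation
  have h2 : ∑ s ∈ Fam r n, G s = 2 * n * ∑ s ∈ (Fam r n).filter Canon, G s := by
    apply sum_canon r n hr
    intro s hs j hj
    have hs' := (mem_Fam r n s).1 hs
    simp only [hG]
    rw [dbl_rot' n j s hs'.1.1 hs'.1.2.1 hj, spn_rot' n j s hs'.1.1 hs'.1.2.1 hj,
      hQ3 j s hs'.1.1 hs'.1.2.1 hj]
  -- step 3: decomposition
  have h3 : ∑ s ∈ (Fam r n).filter Canon, G s =
      ∑ x ∈ Icc (1 : ℤ) r, ∑ M ∈ range (r + 2), ∑ T ∈ CapSet r x M,
        ∑ w ∈ ArchSet r x (2 * n - M),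
          F (dbl 0 w + dbl 0 T) (hgt w + hgt T) (Q (w ++ rot2 T)) := by
    simp only [hG]
    rw [← sum_filter]
    simp only [sum_sigma']
    symm
    refine sum_nbij (fun p => p.2.2.2 ++ rot2 p.2.2.1) ?_ ?_ ?_ ?_
    · rintro ⟨x, M, T, w⟩ hp
      simp only [mem_sigma, mem_Icc, mem_range] at hp
      obtain ⟨⟨hx1, hx2⟩, hM, hT, hw⟩ := hp
      have := glue_mem r n M x hx1 w T hT hw
      rw [H58.mem_CapSet] at hT
      rw [H58.mem_ArchSet] at hw
      rw [mem_filter, mem_filter]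
      exact ⟨this, k1pos x w T hx1 hw.2.1 hT.2.1⟩
    · rintro ⟨x, M, T, w⟩ hp ⟨x', M', T', w'⟩ hp' heq
      rw [mem_coe] at hp hp'
      simp only [mem_sigma, mem_Icc, mem_range] at hp hp'
      obtain ⟨⟨hx1, hx2⟩, hM, hT, hw⟩ := hp
      obtain ⟨⟨hx1', hx2'⟩, hM', hT', hw'⟩ := hp'
      rw [H58.mem_CapSet] at hT hT'
      rw [H58.mem_ArchSet] at hw hw'
      simp only at heq
      have hl := glue_len hw.2.1 hT.2.1 hw'.2.1 hT'.2.1 heq
      obtain ⟨e1, e2⟩ := List.append_inj heq hl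
      have e3 : T = T' := by
        have := congrArg rot2 e2
        rwa [rot2_rot2, rot2_rot2] at this
      have e4 : x = x' := by
        have h4 := hw.2.1.2.1
        have h5 := hw'.2.1.2.1
        rw [e1, h5, Prod.ext_iff] at h4
        exact h4.2.symm
      have e5 : M = M' := by rw [← hT.1, ← hT'.1, e3]
      subst e1 e3 e4 e5
      rfl
    · intro c hc
      rw [mem_coe, mem_filter, mem_filter] at hc
      obtain ⟨⟨hcF, hcC⟩, hcd⟩ := hc
      obtain ⟨x, w, T, hx, hcw, hwA, hTA, hTc, hwc⟩ := canon_decomp r n c hcF hcC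
      have hx1 : 1 ≤ x := by
        rcases dbl_glue_sign hwA hTA hx with h | h
        · exact h.1
        · rw [← hcw] at h
          omega
      have hT' := (H58.mem_CapSet r x _ T).1 hTc
      have hxl : 2 * x ≤ T.length := by
        have := gap_le_length 0 T
        rw [hTA.2.1] at this
        simp only [Prod.fst_zero, Prod.snd_zero] at this
        linarith
      have hTr := hT'.2.2.2
      refine ⟨⟨x, T.length, T, w⟩, ?_, ?_⟩
      · rw [mem_coe]
        simp only [mem_sigma, mem_Icc, mem_range]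
        exact ⟨⟨hx1, by omega⟩, by omega, hTc, hwc⟩
      · exact hcw.symm
    · rintro ⟨x, M, T, w⟩ hp
      simp only [mem_sigma, mem_Icc, mem_range] at hp
      obtain ⟨⟨hx1, hx2⟩, hM, hT, hw⟩ := hp
      rw [H58.mem_CapSet] at hT
      rw [H58.mem_ArchSet] at hw
      simp only
      rw [dbl_glue hw.2.1.2.1 hT.2.1.2.1, spn_glue hw.2.1 hT.2.1]
  rw [h1, h2, h3]
  ring

end Pool.Agent.DIA
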