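import Pool.Agent.DIA.Stmts
import Pool.Agent.Lib_helper89.FL.KW

/-!
# Project DIA, module KER: kernel sums
-/

set_option autoImplicit false

namespace Pool.Agent.DIA

open Finset Filter Topology MeasureTheory
open Pool.Agent.Lib27 Pool.Agent.SapR Pool.Agent.Gap Pool.Agent.AreaLaw Pool.Agent.FL
open Pool.Agent.FS

namespace KERx

/-! ### Calculus -/

lemma sinh_le (v : ℝ) : Real.sinh v ≤ v * Real.exp v := by
  rw [Real.sinh_eq]
  have h1 : 1 - 2 * v ≤ Real.exp (-(2 * v)) := by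
    have := Real.add_one_le_exp (-(2 * v)); linarith
  have h2 : Real.exp (-v) = Real.exp v * Real.exp (-(2 * v)) := by
    rw [← Real.exp_add]; congr 1; ring
  rw [h2]
  have h3 := Real.exp_pos v
  nlinarith

lemma cosh_le {u : ℝ} (hu : 0 ≤ u) : Real.cosh u ≤ 1 + u ^ 2 * Real.exp u := by
  have h1 : Real.cosh u = 1 + 2 * Real.sinh (u / 2) ^ 2 := by
    have h := Real.cosh_two_mul (u / 2)
    have h' := Real.cosh_sq (u / 2)
    rw [show 2 * (u / 2) = u by ring] at h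
    linarith
  have h2 := sinh_le (u / 2)
  have h3 : 0 ≤ Real.sinh (u / 2) := Real.sinh_nonneg_iff.2 (by positivity)
  have h4 : Real.exp u = Real.exp (u / 2) ^ 2 := by
    rw [← Real.exp_nat_mul]; congr 1; push_cast; ring
  have h5 : Real.sinh (u / 2) ^ 2 ≤ (u / 2 * Real.exp (u / 2)) ^ 2 := by gcongr
  have h6 : 0 ≤ u ^ 2 * Real.exp u := by positivity
  have h7 : (u / 2 * Real.exp (u / 2)) ^ 2 = u ^ 2 * Real.exp u / 4 := by
    rw [h4]; ring
  rw [h1]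
  linarith

lemma cosh_mul_le (a b c : ℝ) (h : |a| + |b| ≤ c) :
    Real.cosh a * Real.cosh b ≤ 1 + c ^ 2 * Real.exp c := by
  have hc : 0 ≤ c := le_trans (by positivity) h
  have h1 : Real.cosh a * Real.cosh b = (Real.cosh (a + b) + Real.cosh (a - b)) / 2 := by
    rw [Real.cosh_add, Real.cosh_sub]; ring
  have h2 : Real.cosh (a + b) ≤ Real.cosh c := by
    rw [Real.cosh_le_cosh, abs_of_nonneg hc]
    exact (abs_add_le a b).trans h
  have h3 : Real.cosh (a - b) ≤ Real.cosh c := by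
    rw [Real.cosh_le_cosh, abs_of_nonneg hc]
    have := abs_add_le a (-b)
    rw [abs_neg, ← sub_eq_add_neg] at this
    exact this.trans h
  have := cosh_le hc
  linarith

/-- geometric sums -/
lemma geo {D : ℝ} (hD : 2 ≤ D) (M : ℕ) :
    ∑ m ∈ range M, Real.exp (-(m / (2 * D))) ≤ 4 * D := by
  have hD0 : 0 < D := by linarith
  set q : ℝ := Real.exp (-(1 / (2 * D))) with hq
  have h1 : ∀ m : ℕ, Real.exp (-(m / (2 * D))) = q ^ m := by
    intro m
    rw [hq, ← Real.exp_nat_mul]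
    congr 1
    ring
  have hq0 : 0 < q := Real.exp_pos _
  -- 1 - q ≥ 1 / (4 D)
  have h2 : q ≤ 1 - 1 / (4 * D) := by
    have h3 := Real.add_one_le_exp (1 / (2 * D))
    have h4 : q = (Real.exp (1 / (2 * D)))⁻¹ := by rw [hq, Real.exp_neg]
    have h5 : (0 : ℝ) < 1 / (2 * D) + 1 := by positivity
    have h6 : q ≤ (1 / (2 * D) + 1)⁻¹ := by
      rw [h4]; exact inv_anti₀ h5 h3
    refine h6.trans ?_
    rw [inv_le_iff_one_le_mul₀ h5]
    have h7 : (1 - 1 / (4 * D)) * (1 / (2 * D) + 1) = 1 + (2 * D - 1) / (8 * D ^ 2) := by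
      field_simp; ring
    rw [h7]
    have : 0 ≤ (2 * D - 1) / (8 * D ^ 2) := div_nonneg (by linarith) (by positivity)
    linarith
  have h8 : (∑ m ∈ range M, q ^ m) * (1 - q) = 1 - q ^ M := by
    have := geom_sum_mul q M
    linarith
  have h9 : (∑ m ∈ range M, q ^ m) * (1 / (4 * D)) ≤ 1 := by
    have h10 : 0 ≤ ∑ m ∈ range M, q ^ m := sum_nonneg fun i _ => by positivity
    have h11 : (∑ m ∈ range M, q ^ m) * (1 / (4 * D)) ≤ (∑ m ∈ range M, q ^ m) * (1 - q) :=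
      mul_le_mul_of_nonneg_left (by linarith) h10
    have h12 : 0 ≤ q ^ M := by positivity
    linarith
  simp only [h1]
  have h13 : (∑ m ∈ range M, q ^ m) * (1 / (4 * D)) * (4 * D) ≤ 1 * (4 * D) :=
    mul_le_mul_of_nonneg_right h9 (by positivity)
  have h14 : (∑ m ∈ range M, q ^ m) * (1 / (4 * D)) * (4 * D) = ∑ m ∈ range M, q ^ m := by
    field_simp
  linarith

lemma theta_pow {D : ℝ} (hD : 2 ≤ D) (m : ℕ) : (1 - D⁻¹) ^ m ≤ Real.exp (-(m / D)) := by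
  have h0 : 0 ≤ 1 - D⁻¹ := by
    have : D⁻¹ ≤ 1 := inv_le_one_of_one_le₀ (by linarith)
    linarith
  have h1 : 1 - D⁻¹ ≤ Real.exp (-D⁻¹) := by
    have := Real.add_one_le_exp (-D⁻¹); linarith
  calc (1 - D⁻¹) ^ m ≤ Real.exp (-D⁻¹) ^ m := pow_le_pow_left₀ h0 h1 m
    _ = Real.exp (-(m / D)) := by rw [← Real.exp_nat_mul]; congr 1; ring

lemma gexp {D g : ℝ} (hD : 2 ≤ D) (hg : 8 * D * g ≤ 1) (m : ℕ) :
    Real.exp (2 * g * m) ≤ Real.exp (m / (4 * D)) := by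
  apply Real.exp_le_exp.2
  have hD0 : 0 < D := by linarith
  have h1 : g ≤ 1 / (8 * D) := by rw [le_div_iff₀ (by positivity)]; linarith
  have h2 : (m : ℝ) / (4 * D) = 2 * (1 / (8 * D)) * m := by field_simp; ring
  rw [h2]
  have : (0 : ℝ) ≤ m := Nat.cast_nonneg m
  nlinarith

/-- first moment -/
lemma sum1 {D g : ℝ} (hD : 2 ≤ D) (hg : 8 * D * g ≤ 1) (M : ℕ) :
    ∑ m ∈ range M, 2 * (m : ℝ) * Real.exp (2 * g * m) * (D * (1 - D⁻¹) ^ m) ≤ D ^ 13 := by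
  have hD0 : 0 < D := by linarith
  have h1 : ∀ m : ℕ, 2 * (m : ℝ) * Real.exp (2 * g * m) * (D * (1 - D⁻¹) ^ m) ≤
      8 * D ^ 2 * Real.exp (-(m / (2 * D))) := by
    intro m
    have a1 := gexp hD hg m
    have a2 := theta_pow hD m
    have a3 : (m : ℝ) ≤ 4 * D * Real.exp (m / (4 * D)) := by
      have := Real.add_one_le_exp ((m : ℝ) / (4 * D))
      have h : (m : ℝ) = 4 * D * (m / (4 * D)) := by field_simp
      calc (m : ℝ) = 4 * D * (m / (4 * D)) := h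
        _ ≤ 4 * D * Real.exp (m / (4 * D)) := by gcongr; linarith
    have e : 8 * D ^ 2 * Real.exp (-(m / (2 * D))) =
        2 * (4 * D * Real.exp (m / (4 * D))) * Real.exp (m / (4 * D)) *
          (D * Real.exp (-(m / D))) := by
      have : Real.exp (-((m : ℝ) / (2 * D))) = Real.exp (m / (4 * D)) * Real.exp (m / (4 * D)) *
          Real.exp (-(m / D)) := by
        rw [← Real.exp_add, ← Real.exp_add]; congr 1; field_simp; ring
      rw [this]; ring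
    rw [e]
    have hth : 0 ≤ (1 - D⁻¹) ^ m := by
      have : D⁻¹ ≤ 1 := inv_le_one_of_one_le₀ (by linarith)
      exact pow_nonneg (by linarith) m
    gcongr
  calc _ ≤ ∑ m ∈ range M, 8 * D ^ 2 * Real.exp (-(m / (2 * D))) := sum_le_sum fun m _ => h1 m
    _ = 8 * D ^ 2 * ∑ m ∈ range M, Real.exp (-(m / (2 * D))) := by rw [mul_sum]
    _ ≤ 8 * D ^ 2 * (4 * D) := by gcongr; exact geo hD M
    _ = 32 * D ^ 3 := by ring
    _ ≤ D ^ 10 * D ^ 3 := by
      have : (32 : ℝ) ≤ D ^ 10 := by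
        calc (32 : ℝ) ≤ 2 ^ 10 := by norm_num
          _ ≤ D ^ 10 := by gcongr
      gcongr
    _ = D ^ 13 := by ring

/-- second moment -/
lemma sum2 {D g : ℝ} (hD : 2 ≤ D) (hg : 8 * D * g ≤ 1) (M : ℕ) :
    ∑ m ∈ range M, (2 * (m : ℝ)) ^ 2 * Real.exp (2 * g * m) * (D * (1 - D⁻¹) ^ m) ≤ D ^ 13 := by
  have hD0 : 0 < D := by linarith
  have h1 : ∀ m : ℕ, (2 * (m : ℝ)) ^ 2 * Real.exp (2 * g * m) * (D * (1 - D⁻¹) ^ m) ≤
      128 * D ^ 3 * Real.exp (-(m / (2 * D))) := by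
    intro m
    have a1 := gexp hD hg m
    have a2 := theta_pow hD m
    have a3 : (2 * (m : ℝ)) ^ 2 ≤ 128 * D ^ 2 * Real.exp (m / (4 * D)) := by
      have h : (2 * (m : ℝ)) ^ 2 = 128 * D ^ 2 * ((m / (4 * D)) ^ 2 / 2) := by field_simp; ring
      rw [h]
      have := Real.quadratic_le_exp_of_nonneg (x := (m : ℝ) / (4 * D)) (by positivity)
      have h0 : (0 : ℝ) ≤ m / (4 * D) := by positivity
      gcongr
      linarith
    have e : 128 * D ^ 3 * Real.exp (-(m / (2 * D))) =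
        (128 * D ^ 2 * Real.exp (m / (4 * D))) * Real.exp (m / (4 * D)) *
          (D * Real.exp (-(m / D))) := by
      have : Real.exp (-((m : ℝ) / (2 * D))) = Real.exp (m / (4 * D)) * Real.exp (m / (4 * D)) *
          Real.exp (-(m / D)) := by
        rw [← Real.exp_add, ← Real.exp_add]; congr 1; field_simp; ring
      rw [this]; ring
    rw [e]
    have hth : 0 ≤ (1 - D⁻¹) ^ m := by
      have : D⁻¹ ≤ 1 := inv_le_one_of_one_le₀ (by linarith)
      exact pow_nonneg (by linarith) m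
    gcongr
  calc _ ≤ ∑ m ∈ range M, 128 * D ^ 3 * Real.exp (-(m / (2 * D))) := sum_le_sum fun m _ => h1 m
    _ = 128 * D ^ 3 * ∑ m ∈ range M, Real.exp (-(m / (2 * D))) := by rw [mul_sum]
    _ ≤ 128 * D ^ 3 * (4 * D) := by gcongr; exact geo hD M
    _ = 512 * D ^ 4 := by ring
    _ ≤ D ^ 9 * D ^ 4 := by
      have : (512 : ℝ) ≤ D ^ 9 := by
        calc (512 : ℝ) = 2 ^ 9 := by norm_num
          _ ≤ D ^ 9 := by gcongr
      gcongr
    _ = D ^ 13 := by ring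

/-! ### The kernel -/

lemma wp_nonneg {s ρ : ℝ} (hs : 0 < s) (hρ : 0 < ρ) (p : Wd × Wd) : 0 ≤ wp s ρ p := by
  unfold wp; positivity

lemma level_sum {D : ℝ} {n : ℕ} {s ρ : ℝ}
    (hT : Tails D (1 - D⁻¹) n s ρ) (f : ℕ → ℝ) (hf : ∀ m, 0 ≤ f m) :
    ∃ M : ℕ, ∑ p ∈ Pc (2 * n - 1), wp s ρ p * f (hl p) ≤
      ∑ m ∈ range M, f m * (D * (1 - D⁻¹) ^ m) := by
  classical
  refine ⟨2 * n + 2, ?_⟩
  have hmaps : ∀ p ∈ Pc (2 * n - 1), hl p ∈ range (2 * n + 2) := by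
    intro p hp
    have := (KW.len_hl hp).2.2
    rw [mem_range]
    omega
  rw [← sum_fiberwise_of_maps_to hmaps]
  refine sum_le_sum fun m _ => ?_
  have h1 : ∑ p ∈ (Pc (2 * n - 1)).filter (fun p => hl p = m), wp s ρ p * f (hl p) =
      f m * ∑ p ∈ (Pc (2 * n - 1)).filter (fun p => hl p = m), ρ ^ m * s ^ (m - htn p) := by
    rw [mul_sum]
    refine sum_congr rfl fun p hp => ?_
    have := (mem_filter.1 hp).2
    unfold wp
    rw [this]
    ring
  rw [h1]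
  exact mul_le_mul_of_nonneg_left (hT.1 m) (hf m)

lemma symm (hP : LTP_Stmt) (r : ℕ) (s ρ g : ℝ) :
    ∑ p ∈ Pc r, wp s ρ p * (Real.cosh (g * kap p) * Real.exp (g * jump p)) =
      ∑ p ∈ Pc r, wp s ρ p * (Real.cosh (g * kap p) * Real.cosh (g * jump p)) := by
  have h1 : ∑ p ∈ Pc r, wp s ρ p * (Real.cosh (g * kap p) * Real.exp (g * jump p)) =
      ∑ p ∈ Pc r, wp s ρ p * (Real.cosh (g * kap p) * Real.exp (-(g * jump p))) := by
    refine sum_nbij' SapR.flip SapR.flip (fun p hp => (hP r p hp).2.2.2.2.1)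
      (fun p hp => (hP r p hp).2.2.2.2.1) (fun p hp => (hP r p hp).2.2.2.2.2.1)
      (fun p hp => (hP r p hp).2.2.2.2.2.1) (fun p hp => ?_)
    obtain ⟨-, -, -, -, -, -, hk, hj, hh, ht⟩ := hP r p hp
    have hw : wp s ρ (SapR.flip p) = wp s ρ p := by
      unfold wp
      rw [hh, ht]
    rw [hw, hk, hj]
    push_cast
    ring_nf
  have h2 : ∑ p ∈ Pc r, wp s ρ p * (Real.cosh (g * kap p) * Real.cosh (g * jump p)) =
      (∑ p ∈ Pc r, wp s ρ p * (Real.cosh (g * kap p) * Real.exp (g * jump p)) +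
        ∑ p ∈ Pc r, wp s ρ p * (Real.cosh (g * kap p) * Real.exp (-(g * jump p)))) / 2 := by
    rw [← sum_add_distrib, sum_div]
    refine sum_congr rfl fun p _ => ?_
    rw [Real.cosh_eq (g * jump p)]
    ring
  rw [h2, ← h1]
  ring

lemma part1 (hP : LTP_Stmt) {D : ℝ} (hD : 2 ≤ D) {n : ℕ} {s ρ : ℝ} (hs : 0 < s) (hρ : 0 < ρ)
    (hc : ∑ p ∈ Pc (2 * n - 1), wp s ρ p = 1) (hT : Tails D (1 - D⁻¹) n s ρ) {g : ℝ} (hg : 0 ≤ g)
    (hg1 : 8 * D * g ≤ 1) :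
    ∑ p ∈ Pc (2 * n - 1), wp s ρ p * (Real.cosh (g * kap p) * Real.exp (g * jump p)) ≤
      1 + D ^ 13 * g ^ 2 := by
  rw [symm hP]
  obtain ⟨M, hM⟩ := level_sum hT (fun m => (2 * (m : ℝ)) ^ 2 * Real.exp (2 * g * m))
    (fun m => by positivity)
  have h1 : ∀ p ∈ Pc (2 * n - 1),
      wp s ρ p * (Real.cosh (g * kap p) * Real.cosh (g * jump p)) ≤
        wp s ρ p + g ^ 2 * (wp s ρ p * ((2 * (hl p : ℝ)) ^ 2 * Real.exp (2 * g * hl p))) := by
    intro p hp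
    obtain ⟨-, -, hk, hj, -⟩ := hP _ p hp
    have hk' : |((kap p : ℤ) : ℝ)| ≤ hl p := by exact_mod_cast hk
    have hj' : |((jump p : ℤ) : ℝ)| ≤ hl p := by exact_mod_cast hj
    have h2 := cosh_mul_le (g * kap p) (g * jump p) (2 * g * hl p) (by
      rw [abs_mul, abs_mul, abs_of_nonneg hg]
      nlinarith)
    have h3 := mul_le_mul_of_nonneg_left h2 (wp_nonneg hs hρ p)
    refine h3.trans (le_of_eq ?_)
    ring
  calc _ ≤ ∑ p ∈ Pc (2 * n - 1), (wp s ρ p +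
        g ^ 2 * (wp s ρ p * ((2 * (hl p : ℝ)) ^ 2 * Real.exp (2 * g * hl p)))) := sum_le_sum h1
    _ = 1 + g ^ 2 * ∑ p ∈ Pc (2 * n - 1),
        wp s ρ p * ((2 * (hl p : ℝ)) ^ 2 * Real.exp (2 * g * hl p)) := by
      rw [sum_add_distrib, hc, mul_sum]
    _ ≤ 1 + g ^ 2 * D ^ 13 := by
      have := hM.trans (sum2 hD hg1 M)
      gcongr
    _ = 1 + D ^ 13 * g ^ 2 := by ring

lemma part2 {D : ℝ} (hD : 2 ≤ D) {n : ℕ} {s ρ : ℝ}
    (hT : Tails D (1 - D⁻¹) n s ρ) {g : ℝ} (hg1 : 8 * D * g ≤ 1) :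
    ∑ p ∈ Pc (2 * n - 1), wp s ρ p * (2 * hl p * Real.exp (g * (2 * hl p))) ≤ D ^ 13 := by
  obtain ⟨M, hM⟩ := level_sum hT (fun m => 2 * (m : ℝ) * Real.exp (2 * g * m))
    (fun m => by positivity)
  have h1 : ∑ p ∈ Pc (2 * n - 1), wp s ρ p * (2 * hl p * Real.exp (g * (2 * hl p))) =
      ∑ p ∈ Pc (2 * n - 1), wp s ρ p * (2 * (hl p : ℝ) * Real.exp (2 * g * hl p)) := by
    refine sum_congr rfl fun p _ => ?_
    congr 3
    ring
  rw [h1]
  exact hM.trans (sum1 hD hg1 M)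

/-! ### Caps and arches -/

lemma cap_le {D : ℝ} (hD : 2 ≤ D) {n : ℕ} {s ρ : ℝ} (hs : 0 < s) (hρ : 0 < ρ)
    (hT : Tails D (1 - D⁻¹) n s ρ) (x : ℤ) (m : ℕ) (hx : 1 ≤ x) :
    Cl (2 * n - 1) s ρ x m ≤ D * (1 - D⁻¹) ^ m := by
  by_cases h : x ≤ m
  · refine le_trans ?_ (hT.2.1 m)
    unfold Cl
    rw [mul_sum]
    exact single_le_sum (f := fun x : ℤ => ∑ T ∈ CapSet (2 * n - 1) x (2 * m),
      ρ ^ m * s ^ (m - hgt T)) (fun i _ => sum_nonneg fun T _ => by positivity)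
      (mem_Icc.2 ⟨hx, h⟩)
  · unfold Cl
    rw [M41.CapSet_empty H66.k5cap (2 * n - 1) x (2 * m) hx (by push_cast; omega)]
    rw [sum_empty, mul_zero]
    have : D⁻¹ ≤ 1 := inv_le_one_of_one_le₀ (by linarith)
    have h1 : 0 ≤ 1 - D⁻¹ := by linarith
    positivity

lemma al_nonneg {s ρ : ℝ} (hs : 0 < s) (hρ : 0 < ρ) (r : ℕ) (x : ℤ) (m : ℕ) :
    0 ≤ Al r s ρ x m := by
  unfold Al
  exact mul_nonneg (by positivity) (sum_nonneg fun w _ => by positivity)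

lemma al_rec (hG : HG_Stmt) (hP : LTP_Stmt) {s ρ : ℝ} (r : ℕ) (x : ℤ) (m : ℕ) (hx : 1 ≤ x) :
    Al r s ρ x m = Cl r s ρ x m + ∑ p ∈ (allowed r x).filter (fun p => hl p < m),
      wp s ρ p * Al r s ρ (x + jump p) (m - hl p) := by
  have h1 := KW.k2' r x (2 * m) hx (fun w => s ^ (m - hgt w))
  unfold Al Cl
  rw [h1, mul_add, sum_filter]
  congr 1
  rw [mul_sum]
  refine sum_congr rfl fun p hp => ?_
  obtain ⟨hpc, -, hxj, -⟩ := (M41.mem_allowed _ _ _).1 hp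
  obtain ⟨hlen, hl1, -⟩ := hP r p hpc
  obtain ⟨ht1, ht2⟩ := hG.2.2 r p hpc
  split_ifs with hm
  · have e1 : 2 * m - (p.1.length + p.2.length) = 2 * (m - hl p) := by omega
    rw [e1, mul_sum, mul_sum, mul_sum]
    refine sum_congr rfl fun w hw => ?_
    have hw' := (M41.mem_ArchSet _ _ _ _).1 hw
    have e2 := hG.1 r x _ p w hx hp hw
    have e3 := (hG.2.1 _ w hxj hw'.2.1).2
    rw [hw'.1] at e3
    have e4 : m - hgt (p.1 ++ w ++ p.2) = (hl p - htn p) + ((m - hl p) - hgt w) := by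
      rw [e2]; omega
    have e5 : ρ ^ m = ρ ^ hl p * ρ ^ (m - hl p) := by
      rw [← pow_add]; congr 1; omega
    unfold wp
    rw [e4, e5, pow_add]
    ring
  · have e1 : 2 * m - (p.1.length + p.2.length) = 0 := by omega
    rw [e1]
    have e6 : ArchSet r (x + jump p) 0 = ∅ := by
      rw [eq_empty_iff_forall_notMem]
      intro w hw
      have hw' := (M41.mem_ArchSet _ _ _ _).1 hw
      exact hw'.2.1.1 (List.length_eq_zero_iff.1 hw'.1)
    rw [e6, sum_empty, mul_zero]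

lemma al_le (hG : HG_Stmt) (hP : LTP_Stmt) {D : ℝ} (hD : 2 ≤ D) {n : ℕ} {s ρ : ℝ} (hs : 0 < s)
    (hρ : 0 < ρ) (hc : ∑ p ∈ Pc (2 * n - 1), wp s ρ p = 1) (hT : Tails D (1 - D⁻¹) n s ρ)
    (m : ℕ) : ∀ x : ℤ, 1 ≤ x →
      Al (2 * n - 1) s ρ x m ≤ ∑ j ∈ range (m + 1), D * (1 - D⁻¹) ^ j := by
  have hθ : 0 ≤ 1 - D⁻¹ := by
    have : D⁻¹ ≤ 1 := inv_le_one_of_one_le₀ (by linarith)
    linarith
  induction m using Nat.strong_induction_on with
  | _ m ih =>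
    intro x hx
    rw [al_rec hG hP _ _ _ hx]
    have h1 := cap_le hD hs hρ hT x m hx
    rw [sum_range_succ]
    have h2 : ∑ p ∈ (allowed (2 * n - 1) x).filter (fun p => hl p < m),
        wp s ρ p * Al (2 * n - 1) s ρ (x + jump p) (m - hl p) ≤
        ∑ j ∈ range m, D * (1 - D⁻¹) ^ j := by
      calc _ ≤ ∑ p ∈ (allowed (2 * n - 1) x).filter (fun p => hl p < m),
            wp s ρ p * ∑ j ∈ range m, D * (1 - D⁻¹) ^ j := by
            refine sum_le_sum fun p hp => ?_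
            obtain ⟨hp1, hp2⟩ := mem_filter.1 hp
            obtain ⟨hpc, -, hxj, -⟩ := (M41.mem_allowed _ _ _).1 hp1
            have hl1 := (hP _ p hpc).2.1
            refine mul_le_mul_of_nonneg_left ?_ (wp_nonneg hs hρ p)
            refine (ih (m - hl p) (by omega) _ hxj).trans ?_
            refine sum_le_sum_of_subset_of_nonneg ?_ (fun i _ _ => by positivity)
            intro i hi
            rw [mem_range] at hi ⊢
            omega
        _ = (∑ p ∈ (allowed (2 * n - 1) x).filter (fun p => hl p < m), wp s ρ p) *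
            ∑ j ∈ range m, D * (1 - D⁻¹) ^ j := by rw [sum_mul]
        _ ≤ 1 * ∑ j ∈ range m, D * (1 - D⁻¹) ^ j := by
            refine mul_le_mul_of_nonneg_right ?_ (sum_nonneg fun i _ => by positivity)
            rw [← hc]
            refine sum_le_sum_of_subset_of_nonneg ?_ (fun i _ _ => wp_nonneg hs hρ i)
            intro p hp
            exact ((M41.mem_allowed _ _ _).1 (mem_filter.1 hp).1).1
        _ = _ := one_mul _
    linarith

lemma geoD {D : ℝ} (hD : 2 ≤ D) (m : ℕ) : ∑ j ∈ range m, D * (1 - D⁻¹) ^ j ≤ D ^ 2 := by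
  have hD0 : 0 < D := by linarith
  have hθ : 0 ≤ 1 - D⁻¹ := by
    have : D⁻¹ ≤ 1 := inv_le_one_of_one_le₀ (by linarith)
    linarith
  have h1 := geom_sum_mul (1 - D⁻¹) m
  have h2 : (∑ j ∈ range m, (1 - D⁻¹) ^ j) * D⁻¹ ≤ 1 := by
    have : 0 ≤ (1 - D⁻¹) ^ m := by positivity
    have h3 : (∑ j ∈ range m, (1 - D⁻¹) ^ j) * D⁻¹ = 1 - (1 - D⁻¹) ^ m := by
      have : (1 - D⁻¹ - 1) = -D⁻¹ := by ring
      rw [this] at h1
      linarith
    linarith
  have h4 : ∑ j ∈ range m, (1 - D⁻¹) ^ j ≤ D := by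
    rw [← div_eq_mul_inv, div_le_one hD0] at h2
    exact h2
  rw [← mul_sum, pow_two]
  exact mul_le_mul_of_nonneg_left h4 hD0.le

end KERx

open KERx in
theorem t_KER (hG : HG_Stmt) (hP : LTP_Stmt) : KER_Stmt := by
  refine ⟨13, ?_⟩
  intro D hD n s ρ hn hs hs1 hρ hc hT
  refine ⟨fun g hg hg1 => ⟨part1 hP hD hs hρ hc hT hg hg1, part2 hD hT hg1⟩, ?_, ?_⟩
  · intro x m hx
    exact (al_le hG hP hD hs hρ hc hT m x hx).trans (geoD hD _)
  · intro x m hx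
    exact cap_le hD hs hρ hT x m hx

end Pool.Agent.DIA
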