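import Pool.Agent.DIA.Stmts
import Pool.Agent.Lib_helper89.FL.K1H

/-!
# Project DIA, module LTA: lateral bounds of words
-/

set_option autoImplicit false

namespace Pool.Agent.DIA

open Finset Filter Topology MeasureTheory
open Pool.Agent.Lib27 Pool.Agent.SapR Pool.Agent.Gap Pool.Agent.AreaLaw Pool.Agent.FL
open Pool.Agent.FS

namespace LTAaux

lemma lat_step (p : ℤ × ℤ) (d : Fin 4) : |lat (p + dv d) - lat p| = 1 := by
  unfold lat
  fin_cases d <;> simp [dv]

/-- a vertex splits the word -/
lemma split (w : Wd) : ∀ (p : ℤ × ℤ), ∀ v ∈ vt p w,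
    |lat v - lat p| + |lat (ep p w) - lat v| ≤ w.length := by
  induction w with
  | nil =>
    intro p v hv
    rw [vt_nil, List.mem_singleton] at hv
    subst hv
    simp
  | cons d w ih =>
    intro p v hv
    rw [vt_cons, List.mem_cons] at hv
    have h1 := lat_step p d
    rw [ep_cons, List.length_cons]
    push_cast
    rcases hv with rfl | hv
    · have h2 := ih (v + dv d) (v + dv d) (mem_vt_self _ _)
      rw [sub_self, abs_zero, zero_add] at h2 ⊢
      have h3 := abs_add_le (lat (ep (v + dv d) w) - lat (v + dv d)) (lat (v + dv d) - lat v)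
      rw [sub_add_sub_cancel] at h3
      linarith
    · have h2 := ih (p + dv d) v hv
      have h3 := abs_add_le (lat v - lat (p + dv d)) (lat (p + dv d) - lat p)
      rw [sub_add_sub_cancel] at h3
      linarith

/-- two vertices -/
lemma two (w : Wd) : ∀ (p : ℤ × ℤ), ∀ v ∈ vt p w, ∀ v' ∈ vt p w,
    |lat v - lat v'| ≤ w.length := by
  induction w with
  | nil =>
    intro p v hv v' hv'
    rw [vt_nil, List.mem_singleton] at hv hv'
    subst hv
    subst hv'
    simp
  | cons d w ih =>
    intro p v hv v' hv'
    have h1 := split (d :: w) p v hv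
    have h2 := split (d :: w) p v' hv'
    have h1' := abs_nonneg (lat (ep p (d :: w)) - lat v)
    have h2' := abs_nonneg (lat (ep p (d :: w)) - lat v')
    have hv0 := hv
    have hv0' := hv'
    rw [vt_cons, List.mem_cons] at hv0 hv0'
    rcases hv0 with rfl | hv0
    · rw [abs_sub_comm]
      linarith
    · rcases hv0' with rfl | hv0'
      · linarith
      · have h3 := ih (p + dv d) v hv0 v' hv0'
        rw [List.length_cons]
        push_cast
        linarith

lemma mem_vt_of_vs {p v : ℤ × ℤ} {w : Wd} (h : v ∈ vs p w) : v ∈ vt p w := by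
  unfold vt
  exact List.mem_append_left _ h

lemma lat_zero : lat 0 = 0 := rfl

lemma mid (x : ℤ) (w : Wd) (he : ep 0 w = (-x, x)) (v : ℤ × ℤ) (hv : v ∈ vt 0 w) :
    2 * |lat v + x| ≤ w.length := by
  have h := split w 0 v hv
  rw [he, lat_zero, sub_zero] at h
  have h2 : lat (-x, x) = -2 * x := by
    unfold lat
    ring
  rw [h2] at h
  have h3 := abs_add_le (lat v) (-(-2 * x - lat v))
  rw [abs_neg, show lat v + -(-2 * x - lat v) = 2 * (lat v + x) by ring, abs_mul, abs_two] at h3
  linarith

end LTAaux

open LTAaux in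
/-- **LTA**. -/
theorem t_LTA : LTA_Stmt := by
  refine ⟨fun w v hv => ?_, fun x w he v hv => mid x w he v hv, fun w => ?_, ?_⟩
  · have h := split w 0 v hv
    rwa [lat_zero, sub_zero] at h
  · unfold lsn
    rw [Finset.sup_le_iff]
    rintro ⟨c, c'⟩ hc
    rw [Finset.mem_product, List.mem_toFinset, List.mem_toFinset] at hc
    have h := two w 0 c (mem_vt_of_vs hc.1) c' (mem_vt_of_vs hc.2)
    have h2 := le_abs_self (lat c - lat c')
    show (lat c - lat c').toNat ≤ w.length
    omega
  · intro x w T L hw hT hL
    rcases Nat.eq_zero_or_pos L with rfl | hpos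
    · left
      exact ⟨0, mem_vt_self _ _, by positivity⟩
    · unfold lsn at hL
      obtain ⟨⟨c, c'⟩, hc, hcc⟩ := (Finset.le_sup_iff hpos).1 hL
      rw [Finset.mem_product, List.mem_toFinset, List.mem_toFinset] at hc
      have h1 : (L : ℤ) ≤ lat c - lat c' := by
        have : L ≤ (lat c - lat c').toNat := hcc
        omega
      have key : ∀ e : ℤ × ℤ, e ∈ vs 0 (w ++ rot2 T) → (L : ℤ) ≤ 2 * |lat e + x| →
          (∃ v ∈ vt 0 w, (L : ℤ) ≤ 2 * |lat v + x|) ∨ L ≤ T.length := by
        intro e he hle
        rcases (FL.K1H.mem_glue hw e).1 he with h | ⟨q, hq, rfl⟩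
        · exact Or.inl ⟨e, mem_vt_of_vs h, hle⟩
        · right
          have h2 : lat (-q + (-x, x)) + x = -(lat q + x) := by
            unfold lat
            simp only [Prod.fst_add, Prod.snd_add, Prod.fst_neg, Prod.snd_neg]
            ring
          rw [h2, abs_neg] at hle
          have h3 := mid x T hT.2.1 q (mem_vt_of_vs hq)
          have h4 : (L : ℤ) ≤ T.length := hle.trans h3
          exact_mod_cast h4
      by_cases h5 : (L : ℤ) ≤ 2 * |lat c + x|
      · exact key c hc.1 h5
      · apply key c' hc.2
        have h6 := le_abs_self (lat c + x)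
        have h7 := neg_abs_le (lat c' + x)
        have h5' := not_le.1 h5
        linarith

end Pool.Agent.DIA
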