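import Pool.Agent.DIA.Stmts
import Pool.Agent.Lib_helper66.SapR.K5

/-!
# Project DIA, module LTP: lateral bounds of the pieces
-/

set_option autoImplicit false

namespace Pool.Agent.DIA

open Finset Filter Topology MeasureTheory
open Pool.Agent.Lib27 Pool.Agent.SapR Pool.Agent.Gap Pool.Agent.AreaLaw Pool.Agent.FL
open Pool.Agent.FS
open Pool.Agent.SapR.H66 (nrm nrm_ep0 ep0_rot2 k5size k5flip)

namespace LTPm

lemma abs_lat_ep (w : List (Fin 4)) : |lat (ep 0 w)| ≤ w.length := by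
  have h1 := nrm_ep0 w
  unfold nrm at h1
  unfold lat
  exact (abs_sub _ _).trans h1

lemma two_jump {p : List (Fin 4) × List (Fin 4)} (h : StripPair p.1 p.2) :
    2 * jump p = lat (ep 0 p.1) + lat (ep 0 p.2) := by
  have h1 := h.2.1
  unfold lev at h1
  unfold jump lat
  omega

lemma kap_flip {p : List (Fin 4) × List (Fin 4)} (h : StripPair p.1 p.2)
    (hj : jump (SapR.flip p) = - jump p) : kap (SapR.flip p) = kap p := by
  have h1 := two_jump h
  unfold kap
  rw [hj]
  have h2 : lat (ep 0 (SapR.flip p).1) = - lat (ep 0 p.2) := by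
    show lat (ep 0 (rot2 p.2)) = _
    rw [ep0_rot2]
    unfold lat
    simp only [Prod.fst_neg, Prod.snd_neg]
    ring
  rw [h2]
  omega

end LTPm

open LTPm in
theorem t_LTP (hG : HG_Stmt) : LTP_Stmt := by
  intro r p hp
  obtain ⟨⟨hS, hI⟩, hlen⟩ := (Pool.Agent.SapR.H66.mem_Pc r p).1 hp
  obtain ⟨s1, s2, -, -, -, -, -⟩ := k5size r p hp
  obtain ⟨f1, f2, f3, f4, -, f6, -⟩ := k5flip r p hp
  obtain ⟨g1, g2⟩ := hG.2.2 r p hp
  have h2 : 2 * hl p = p.1.length + p.2.length := by
    unfold hl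
    obtain ⟨k, hk⟩ := s1
    omega
  have a1 := abs_lat_ep p.1
  have a2 := abs_lat_ep p.2
  have hj := two_jump hS
  have hk : 2 * kap p = lat (ep 0 p.1) - lat (ep 0 p.2) := by
    unfold kap
    omega
  have h2' : (2 : ℤ) * hl p = p.1.length + p.2.length := by exact_mod_cast h2
  rw [abs_le] at a1 a2
  refine ⟨h2, by omega, ?_, ?_, f1, f2, kap_flip hS f3, f3, ?_, ?_⟩
  · rw [abs_le]
    constructor <;> omega
  · rw [abs_le]
    constructor <;> omega
  · unfold hl
    rw [f6]
  · unfold htn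
    rw [f4]

end Pool.Agent.DIA
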