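import Pool.Agent.DIA.Stmts
import Pool.Agent.Lib_helper66.SapR.K5

/-!
Module LTQ of project DIA: canonical polygon words with large lateral span.
-/

set_option autoImplicit false

namespace Pool.Agent.DIA

open Finset Filter Topology MeasureTheory
open Pool.Agent.Lib27 Pool.Agent.SapR Pool.Agent.Gap Pool.Agent.AreaLaw Pool.Agent.FL
open Pool.Agent.FS

namespace LTQ

lemma sum_even (f : ℕ → ℝ) (hf : ∀ m, f (2 * m + 1) = 0) (n : ℕ) :
    ∑ M ∈ range (2 * n + 1), f M = ∑ m ∈ range (n + 1), f (2 * m) := by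
  induction n with
  | zero => simp
  | succ n ih =>
    rw [show 2 * (n + 1) + 1 = (2 * n + 1) + 1 + 1 by ring, sum_range_succ, sum_range_succ, ih,
      hf n, add_zero, sum_range_succ (fun m => f (2 * m)) (n + 1)]
    rfl

lemma sum_Omn (n : ℕ) (hn : 1 ≤ n) (F : ℤ → ℕ → Wd → Wd → ℝ) :
    ∑ q ∈ Omn n, F q.1 q.2.1 q.2.2.1 q.2.2.2 =
      ∑ m ∈ range (n + 1), ∑ x ∈ Icc (1 : ℤ) m, ∑ T ∈ CapSet (2 * n - 1) x (2 * m),
        ∑ w ∈ ArchSet (2 * n - 1) x (2 * (n - m)), F x (2 * m) T w := by
  unfold Omn M41.Om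
  rw [sum_sigma]
  simp_rw [sum_sigma, sum_product]
  rw [sum_comm, show 2 * n - 1 + 2 = 2 * n + 1 by omega, sum_even]
  · apply sum_congr rfl
    intro m hm
    have hm' := mem_range.1 hm
    symm
    rw [show 2 * n - 2 * m = 2 * (n - m) by omega]
    apply sum_subset
    · intro x hx
      rw [mem_Icc] at *
      omega
    · intro x hx hx'
      rw [mem_Icc] at hx hx'
      rw [M41.CapSet_empty H66.k5cap (2 * n - 1) x (2 * m) hx.1 (Or.inr (Or.inl (by omega)))]
      simp
  · intro m
    apply sum_eq_zero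
    intro x hx
    rw [M41.CapSet_empty H66.k5cap (2 * n - 1) x (2 * m + 1) (mem_Icc.1 hx).1 (Or.inl (by omega))]
    simp

lemma mem_Omn {n : ℕ} (hn : 1 ≤ n) {q : QI} (hq : q ∈ Omn n) :
    1 ≤ q.1 ∧ q.2.1 ≤ 2 * n ∧ q.2.2.1.length = q.2.1 ∧ Arch q.1 q.2.2.1 ∧
      q.2.2.2.length = 2 * n - q.2.1 ∧ Arch q.1 q.2.2.2 := by
  unfold Omn M41.Om at hq
  obtain ⟨x, M, T, w⟩ := q
  rw [mem_sigma, mem_sigma, mem_product, mem_Icc, mem_range] at hq
  obtain ⟨hx, hM, hT, hw⟩ := hq
  have h1 := (M41.mem_CapSet _ _ _ _).1 hT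
  have h2 := (M41.mem_ArchSet _ _ _ _).1 hw
  refine ⟨hx.1, ?_, h1.1, h1.2.1, h2.1, h2.2.1⟩
  simp only at hM ⊢
  omega

lemma vc_nonneg (g : ℝ) (x : ℤ) (w : Wd) : 0 ≤ vc g x w := by
  unfold vc
  apply List.sum_nonneg
  intro a ha
  obtain ⟨v, -, rfl⟩ := List.mem_map.1 ha
  exact (Real.cosh_pos _).le

lemma vc_ge (g : ℝ) (hg : 0 ≤ g) (x : ℤ) (w : Wd) (L : ℕ) (v : ℤ × ℤ) (hv : v ∈ vt 0 w)
    (hL : (L : ℤ) ≤ 2 * |lat v + x|) : Real.exp (g * L / 2) / 2 ≤ vc g x w := by
  have h1 : Real.cosh (g * ((lat v + x : ℤ) : ℝ)) ≤ vc g x w := by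
    unfold vc
    apply List.single_le_sum
    · intro a ha
      obtain ⟨u, -, rfl⟩ := List.mem_map.1 ha
      exact (Real.cosh_pos _).le
    · exact List.mem_map.2 ⟨v, hv, rfl⟩
  refine le_trans ?_ h1
  have h2 : (L : ℝ) ≤ 2 * |((lat v + x : ℤ) : ℝ)| := by exact_mod_cast hL
  rw [← Real.cosh_abs, abs_mul, abs_of_nonneg hg]
  have h3 : g * L / 2 ≤ g * |((lat v + x : ℤ) : ℝ)| := by nlinarith
  have h4 : Real.exp (g * L / 2) ≤ Real.exp (g * |((lat v + x : ℤ) : ℝ)|) := Real.exp_le_exp.2 h3
  rw [Real.cosh_eq]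
  have h5 := Real.exp_pos (-(g * |((lat v + x : ℤ) : ℝ)|))
  linarith

lemma Cl_nonneg (r : ℕ) (s ρ : ℝ) (hs : 0 < s) (hρ : 0 < ρ) (x : ℤ) (m : ℕ) :
    0 ≤ Cl r s ρ x m := by
  unfold Cl
  exact mul_nonneg (pow_nonneg hρ.le _) (sum_nonneg fun w _ => pow_nonneg hs.le _)

end LTQ

open LTQ in
theorem t_LTQ (hV : VIN_Stmt) (hK : KER_Stmt) (hA : LTA_Stmt) (hG : HG_Stmt) : LTQ_Stmt := by
  obtain ⟨K0, hV⟩ := hV
  obtain ⟨_, hK⟩ := hK
  obtain ⟨-, -, hA3, hA4⟩ := hA
  obtain ⟨-, hG2, -⟩ := hG
  refine ⟨K0 + 12, ?_⟩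
  intro D hD n s ρ hn hs hs1 hρ hcrit hT L
  obtain ⟨-, hK2, -⟩ := hK D hD n s ρ hn hs hs1 hρ hcrit hT
  have hV' := hV D hD n s ρ hn hs hs1 hρ hcrit hT
  have hD0 : 0 < D := by linarith
  have hD1 : 1 ≤ D := by linarith
  have hnR : (1 : ℝ) ≤ n := by exact_mod_cast hn
  have hn0 : (0 : ℝ) < n := by linarith
  by_cases hL : 2 * n < L
  · rw [filter_false_of_mem, sum_empty, mul_zero]
    · positivity
    · intro q hq hLq
      obtain ⟨h1, h2, h3, h4, h5, h6⟩ := mem_Omn hn hq
      have h7 := hA3 (q.2.2.2 ++ rot2 q.2.2.1)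
      unfold ls at hLq
      rw [List.length_append, show (rot2 q.2.2.1).length = q.2.2.1.length by
        unfold rot2; exact List.length_map ..] at h7
      omega
  · have hL2 : L ≤ 2 * n := by omega
    have hL2R : (L : ℝ) ≤ 2 * n := by exact_mod_cast hL2
    have hL0 : (0 : ℝ) ≤ L := by positivity
    set P : ℝ := D ^ (K0 + 3) with hP
    have hPpos : 0 < P := by positivity
    have hPK : D ^ K0 ≤ P := pow_le_pow_right₀ hD1 (by omega)
    have hP8 : 4 * D ≤ P := by
      have : D ^ 3 ≤ P := pow_le_pow_right₀ hD1 (by omega)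
      nlinarith [mul_le_mul hD hD (by norm_num) hD0.le]
    set g : ℝ := L / (4 * P * n) with hg
    have hg0 : 0 ≤ g := by positivity
    have hgPn : g * (4 * P * n) = L := by
      rw [hg]; field_simp
    have hg8 : 8 * D * g ≤ 1 := by
      rw [hg, mul_div_assoc', div_le_one (by positivity)]
      nlinarith [mul_nonneg hD0.le hL0, mul_le_mul_of_nonneg_right hP8 hn0.le]
    set b : ℝ := 2 * Real.exp (-(g * L / 2)) with hb
    have hb0 : 0 ≤ b := by positivity
    -- pointwise
    have hpt : ∀ q ∈ Omn n, (if L ≤ ls q then wtq n s q else 0) ≤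
        s ^ (n - (hgt q.2.2.2 + hgt q.2.2.1)) * ((if L ≤ q.2.1 then 1 else 0) +
          b * vc g q.1 q.2.2.2) := by
      intro q hq
      obtain ⟨h1, h2, h3, h4, h5, h6⟩ := mem_Omn hn hq
      have hsp : 0 < s ^ (n - (hgt q.2.2.2 + hgt q.2.2.1)) := pow_pos hs _
      have hvc := vc_nonneg g q.1 q.2.2.2
      split_ifs with c1 c2 c2
      · unfold wtq
        nlinarith [mul_nonneg hsp.le (mul_nonneg hb0 hvc)]
      · unfold wtq
        have c3 := hA4 q.1 q.2.2.2 q.2.2.1 L h6 h4 c1
        rcases c3 with ⟨v, hv, hLv⟩ | c3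
        · have h7 := vc_ge g hg0 q.1 q.2.2.2 L v hv hLv
          have h8 : 1 ≤ b * vc g q.1 q.2.2.2 := by
            calc (1 : ℝ) = b * (Real.exp (g * L / 2) / 2) := by
                  rw [hb, Real.exp_neg]
                  have := (Real.exp_pos (g * L / 2)).ne'
                  field_simp
              _ ≤ _ := mul_le_mul_of_nonneg_left h7 hb0
          nlinarith
        · omega
      · have := mul_nonneg hb0 hvc
        positivity
      · have := mul_nonneg hb0 hvc
        rw [zero_add]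
        positivity
    set a : ℕ → ℝ := fun m => if L ≤ 2 * m then 1 else 0 with ha
    have ha0 : ∀ m, 0 ≤ a m := by
      intro m; rw [ha]; simp only; split_ifs <;> norm_num
    have hterm : ∀ m ∈ range (n + 1), ∀ x ∈ Icc (1 : ℤ) m,
        ρ ^ n * ∑ T ∈ CapSet (2 * n - 1) x (2 * m), ∑ w ∈ ArchSet (2 * n - 1) x (2 * (n - m)),
          s ^ (n - (hgt w + hgt T)) * (a m + b * vc g x w) =
        Cl (2 * n - 1) s ρ x m * (a m * Al (2 * n - 1) s ρ x (n - m) +
          b * Vl (2 * n - 1) s ρ g x (n - m)) := by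
      intro m hm x hx
      have hm' := mem_range.1 hm
      have hx' := (mem_Icc.1 hx).1
      have e1 : ρ ^ n = ρ ^ m * ρ ^ (n - m) := by rw [← pow_add]; congr 1; omega
      have e2 : ∑ T ∈ CapSet (2 * n - 1) x (2 * m), ∑ w ∈ ArchSet (2 * n - 1) x (2 * (n - m)),
          s ^ (n - (hgt w + hgt T)) * (a m + b * vc g x w) =
          (∑ T ∈ CapSet (2 * n - 1) x (2 * m), s ^ (m - hgt T)) *
            ∑ w ∈ ArchSet (2 * n - 1) x (2 * (n - m)),
              s ^ (n - m - hgt w) * (a m + b * vc g x w) := by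
        rw [sum_mul_sum]
        apply sum_congr rfl
        intro T hT1
        apply sum_congr rfl
        intro w hw
        have h1 := (M41.mem_CapSet _ _ _ _).1 hT1
        have h2 := (M41.mem_ArchSet _ _ _ _).1 hw
        have h3 := hG2 x T hx' h1.2.1
        have h4 := hG2 x w hx' h2.2.1
        rw [← mul_assoc, ← pow_add]
        congr 2
        omega
      have e3 : ∑ w ∈ ArchSet (2 * n - 1) x (2 * (n - m)),
            s ^ (n - m - hgt w) * (a m + b * vc g x w) =
          a m * ∑ w ∈ ArchSet (2 * n - 1) x (2 * (n - m)), s ^ (n - m - hgt w) +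
          b * ∑ w ∈ ArchSet (2 * n - 1) x (2 * (n - m)), s ^ (n - m - hgt w) * vc g x w := by
        rw [mul_sum, mul_sum, ← sum_add_distrib]
        apply sum_congr rfl
        intro w _
        ring
      rw [e1, e2, e3]
      unfold Cl Al Vl
      ring
    have hθ0 : 0 ≤ 1 - D⁻¹ := by
      have : D⁻¹ ≤ 1 := inv_le_one_of_one_le₀ hD1
      linarith
    have hθ : ∀ m : ℕ, (1 - D⁻¹) ^ m ≤ Real.exp (-(m / D)) := by
      intro m
      calc (1 - D⁻¹) ^ m ≤ (Real.exp (-D⁻¹)) ^ m := by
            apply pow_le_pow_left₀ hθ0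
            have := Real.add_one_le_exp (-D⁻¹)
            linarith
        _ = Real.exp (-(m / D)) := by
            rw [← Real.exp_nat_mul]; congr 1; rw [div_eq_mul_inv]; ring
    have hT2 : ∀ m : ℕ, ∑ x ∈ Icc (1 : ℤ) m, Cl (2 * n - 1) s ρ x m ≤ D * (1 - D⁻¹) ^ m := by
      intro m
      refine le_trans (le_of_eq ?_) (hT.2.1 m)
      apply sum_congr rfl
      intro x _
      unfold Cl
      rw [mul_sum]
    set E : ℝ := Real.exp (P * g ^ 2 * n) with hE
    have hE0 : 0 < E := Real.exp_pos _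
    have hmain : ∀ m ∈ range (n + 1), ∑ x ∈ Icc (1 : ℤ) m,
        Cl (2 * n - 1) s ρ x m * (a m * Al (2 * n - 1) s ρ x (n - m) +
          b * Vl (2 * n - 1) s ρ g x (n - m)) ≤
        D ^ 3 * Real.exp (-(L / (2 * D))) + D * P * (n + 1) * (b * E) := by
      intro m hm
      have hm' := mem_range.1 hm
      have hmn : (m : ℝ) ≤ n := by exact_mod_cast (by omega : m ≤ n)
      have h1 : ∀ x ∈ Icc (1 : ℤ) m,
          Cl (2 * n - 1) s ρ x m * (a m * Al (2 * n - 1) s ρ x (n - m) +
            b * Vl (2 * n - 1) s ρ g x (n - m)) ≤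
          Cl (2 * n - 1) s ρ x m * (a m * D ^ 2 + b * (P * (n + 1) * (E * Real.exp (g * m)))) := by
        intro x hx
        rw [mem_Icc] at hx
        apply mul_le_mul_of_nonneg_left _ (Cl_nonneg _ _ _ hs hρ _ _)
        apply add_le_add
        · exact mul_le_mul_of_nonneg_left (hK2 x (n - m) hx.1) (ha0 m)
        · apply mul_le_mul_of_nonneg_left _ hb0
          refine le_trans (hV' g hg0 hg8 x (n - m) hx.1) ?_
          have hxm : ((x : ℤ) : ℝ) ≤ m := by exact_mod_cast hx.2
          have hnm : ((n - m : ℕ) : ℝ) ≤ n := by exact_mod_cast Nat.sub_le n m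
          have hnm0 : (0 : ℝ) ≤ ((n - m : ℕ) : ℝ) := by positivity
          apply mul_le_mul _ _ (Real.exp_pos _).le (by positivity)
          · apply mul_le_mul hPK (by linarith) (by positivity) hPpos.le
          · rw [hE, ← Real.exp_add]
            apply Real.exp_le_exp.2
            apply add_le_add
            · apply mul_le_mul _ hnm hnm0 (by positivity)
              exact mul_le_mul_of_nonneg_right hPK (by positivity)
            · exact mul_le_mul_of_nonneg_left hxm hg0
      refine le_trans (sum_le_sum h1) ?_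
      rw [← sum_mul]
      have hnn : 0 ≤ a m * D ^ 2 + b * (P * (n + 1) * (E * Real.exp (g * m))) := by
        have := ha0 m
        positivity
      refine le_trans (mul_le_mul_of_nonneg_right (le_trans (hT2 m)
        (mul_le_mul_of_nonneg_left (hθ m) hD0.le)) hnn) ?_
      have h2 : Real.exp (-(m / D)) * a m ≤ Real.exp (-(L / (2 * D))) := by
        rw [ha]
        simp only
        split_ifs with c
        · rw [mul_one]
          apply Real.exp_le_exp.2
          have : (L : ℝ) ≤ 2 * m := by exact_mod_cast c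
          have h3 : (L : ℝ) / (2 * D) ≤ m / D := by
            rw [div_le_div_iff₀ (by positivity) hD0]
            nlinarith
          linarith
        · rw [mul_zero]; positivity
      have h3 : Real.exp (-(m / D)) * Real.exp (g * m) ≤ 1 := by
        rw [← Real.exp_add]
        rw [Real.exp_le_one_iff]
        have h4 : g ≤ 1 / D := by
          rw [le_div_iff₀ hD0]
          nlinarith
        have h5 : g * m ≤ 1 / D * m := mul_le_mul_of_nonneg_right h4 (by positivity)
        have h6 : 1 / D * (m : ℝ) = m / D := by ring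
        linarith
      have h4 : D * Real.exp (-(m / D)) * (a m * D ^ 2 + b * (P * (n + 1) * (E * Real.exp (g * m))))
          = D ^ 3 * (Real.exp (-(m / D)) * a m) + D * P * (n + 1) * (b * E) *
            (Real.exp (-(m / D)) * Real.exp (g * m)) := by ring
      rw [h4]
      apply add_le_add
      · exact mul_le_mul_of_nonneg_left h2 (by positivity)
      · exact mul_le_of_le_one_right (by positivity) h3
    -- assembly
    have hsum : ρ ^ n * ∑ q ∈ (Omn n).filter (fun q => L ≤ ls q), wtq n s q ≤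
        (n + 1) * (D ^ 3 * Real.exp (-(L / (2 * D))) + D * P * (n + 1) * (b * E)) := by
      calc ρ ^ n * ∑ q ∈ (Omn n).filter (fun q => L ≤ ls q), wtq n s q
          ≤ ρ ^ n * ∑ q ∈ Omn n, s ^ (n - (hgt q.2.2.2 + hgt q.2.2.1)) *
              ((if L ≤ q.2.1 then 1 else 0) + b * vc g q.1 q.2.2.2) := by
            apply mul_le_mul_of_nonneg_left _ (pow_nonneg hρ.le _)
            rw [sum_filter]
            exact sum_le_sum hpt
        _ = ∑ m ∈ range (n + 1), ∑ x ∈ Icc (1 : ℤ) m,
              Cl (2 * n - 1) s ρ x m * (a m * Al (2 * n - 1) s ρ x (n - m) +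
                b * Vl (2 * n - 1) s ρ g x (n - m)) := by
            rw [sum_Omn n hn (fun x M T w => s ^ (n - (hgt w + hgt T)) *
              ((if L ≤ M then 1 else 0) + b * vc g x w)), mul_sum]
            apply sum_congr rfl
            intro m hm
            rw [mul_sum]
            apply sum_congr rfl
            intro x hx
            exact hterm m hm x hx
        _ ≤ ∑ m ∈ range (n + 1), (D ^ 3 * Real.exp (-(L / (2 * D))) +
              D * P * (n + 1) * (b * E)) := sum_le_sum hmain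
        _ = _ := by rw [sum_const, card_range, nsmul_eq_mul]; push_cast; ring
    refine le_trans hsum ?_
    set Q : ℝ := D ^ (K0 + 12) with hQ
    have hQpos : 0 < Q := by positivity
    have hQP : 16 * P * D ^ 5 ≤ Q := by
      have h16 : (16 : ℝ) ≤ D ^ 4 := by
        have := pow_le_pow_left₀ (by norm_num : (0 : ℝ) ≤ 2) hD 4
        norm_num at this ⊢
        exact this
      calc 16 * P * D ^ 5 ≤ D ^ 4 * P * D ^ 5 := by
            apply mul_le_mul_of_nonneg_right _ (by positivity)
            exact mul_le_mul_of_nonneg_right h16 hPpos.le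
        _ = Q := by rw [hP, hQ]; ring
    have hD5 : (1 : ℝ) ≤ D ^ 5 := one_le_pow₀ hD1
    have hQP1 : 16 * P ≤ Q := le_trans (by nlinarith) hQP
    set A : ℝ := Real.exp (-((L : ℝ) ^ 2 / (Q * n))) with hA
    have hA0 : 0 < A := Real.exp_pos _
    have hb1 : b * E ≤ 2 * A := by
      rw [hb, hE, mul_assoc, ← Real.exp_add]
      apply mul_le_mul_of_nonneg_left _ (by norm_num)
      apply Real.exp_le_exp.2
      have e1 : -(g * L / 2) + P * g ^ 2 * n = -((L : ℝ) ^ 2 / (16 * P * n)) := by
        rw [hg]; field_simp; ring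
      rw [e1]
      apply neg_le_neg
      apply div_le_div_of_nonneg_left (by positivity) (by positivity)
      exact mul_le_mul_of_nonneg_right hQP1 hn0.le
    have hc1 : Real.exp (-(L / (2 * D))) ≤ A := by
      apply Real.exp_le_exp.2
      apply neg_le_neg
      rw [div_le_div_iff₀ (by positivity) (by positivity)]
      have h1 : 4 * D ≤ Q := by
        have : P ≤ Q := by linarith
        linarith
      have h2 : (L : ℝ) ^ 2 * (2 * D) ≤ (L * (2 * n)) * (2 * D) := by
        apply mul_le_mul_of_nonneg_right _ (by positivity)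
        rw [sq]
        exact mul_le_mul_of_nonneg_left hL2R hL0
      have h3 : (L * (2 * n)) * (2 * D) ≤ L * (Q * n) := by
        have : (L : ℝ) * n * (4 * D) ≤ L * n * Q := mul_le_mul_of_nonneg_left h1 (by positivity)
        nlinarith
      linarith
    have hnK : (n : ℝ) ^ 2 ≤ (n : ℝ) ^ (K0 + 12) := pow_le_pow_right₀ hnR (by omega)
    have hD3 : D ^ 3 ≤ P := pow_le_pow_right₀ hD1 (by omega)
    have hDD5 : D ≤ D ^ 5 := by
      calc D = D ^ 1 := by ring
        _ ≤ D ^ 5 := pow_le_pow_right₀ hD1 (by omega)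
    have hn1 : (n : ℝ) + 1 ≤ 2 * n := by linarith
    calc (n + 1) * (D ^ 3 * Real.exp (-(L / (2 * D))) + D * P * (n + 1) * (b * E))
        ≤ (2 * n) * (P * A + D ^ 5 * P * (2 * n) * (2 * A)) := by
          apply mul_le_mul hn1 _ (by positivity) (by positivity)
          apply add_le_add
          · exact mul_le_mul hD3 hc1 (Real.exp_pos _).le hPpos.le
          · apply mul_le_mul _ hb1 (by positivity) (by positivity)
            apply mul_le_mul _ hn1 (by positivity) (by positivity)
            exact mul_le_mul_of_nonneg_right hDD5 hPpos.le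
      _ ≤ (16 * P * D ^ 5) * n ^ 2 * A := by
          have h1 : (n : ℝ) ≤ n ^ 2 := by nlinarith
          have h2 : P * n ≤ P * D ^ 5 * n ^ 2 := by
            calc P * n ≤ P * n ^ 2 := mul_le_mul_of_nonneg_left h1 hPpos.le
              _ = P * 1 * n ^ 2 := by ring
              _ ≤ P * D ^ 5 * n ^ 2 := by
                apply mul_le_mul_of_nonneg_right _ (by positivity)
                exact mul_le_mul_of_nonneg_left hD5 hPpos.le
          have h3 : P * n * A ≤ P * D ^ 5 * n ^ 2 * A := mul_le_mul_of_nonneg_right h2 hA0.le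
          have hX : 0 ≤ P * D ^ 5 * n ^ 2 * A := by positivity
          calc (2 * n) * (P * A + D ^ 5 * P * (2 * n) * (2 * A))
              = 2 * (P * n * A) + 8 * (P * D ^ 5 * n ^ 2 * A) := by ring
            _ ≤ 16 * (P * D ^ 5 * n ^ 2 * A) := by linarith
            _ = (16 * P * D ^ 5) * n ^ 2 * A := by ring
      _ ≤ Q * n ^ (K0 + 12) * A := by
          apply mul_le_mul_of_nonneg_right _ hA0.le
          exact mul_le_mul hQP hnK (by positivity) hQpos.le

end Pool.Agent.DIA
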