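import Pool.Agent.DIA.Stmts

/-!
# Project DIA (MP_f6626d_co): mirror symmetry of arches
-/

set_option autoImplicit false

namespace Pool.Agent.DIA

open Finset Filter Topology MeasureTheory
open Pool.Agent.Lib27 Pool.Agent.SapR Pool.Agent.Gap Pool.Agent.AreaLaw Pool.Agent.FL
open Pool.Agent.FS
open Pool.Agent.NSP (Reg)
open Pool.Agent.EXW (Mf)

namespace MIRM

/-- exchange of East and North, West and South -/
def sw : Fin 4 → Fin 4 := ![1, 0, 3, 2]

/-- exchange of the coordinates -/
def sg (v : ℤ × ℤ) : ℤ × ℤ := (v.2, v.1)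

theorem dv_sw (a : Fin 4) : dv (sw a) = sg (dv a) := by
  revert a
  decide

theorem sg_add (u v : ℤ × ℤ) : sg (u + v) = sg u + sg v := rfl

theorem sg_inj : Function.Injective sg := by
  intro u v h
  have h1 := congrArg Prod.fst h
  have h2 := congrArg Prod.snd h
  exact Prod.ext h2 h1

theorem ep_sw (p : ℤ × ℤ) (w : Wd) : ep (sg p) (w.map sw) = sg (ep p w) := by
  induction w generalizing p with
  | nil => rfl
  | cons a w ih => rw [List.map_cons, ep_cons, ep_cons, dv_sw, ← sg_add, ih]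

theorem vs_sw (p : ℤ × ℤ) (w : Wd) : vs (sg p) (w.map sw) = (vs p w).map sg := by
  induction w generalizing p with
  | nil => rfl
  | cons a w ih => rw [List.map_cons, vs_cons, vs_cons, dv_sw, ← sg_add, ih, List.map_cons]

theorem vt_sw (p : ℤ × ℤ) (w : Wd) : vt (sg p) (w.map sw) = (vt p w).map sg := by
  unfold vt
  rw [vs_sw, ep_sw, List.map_append, List.map_singleton]

/-- the mirror image, traversed backwards -/
def mir (w : Wd) : Wd := (rv w).map sw

theorem mir_length (w : Wd) : (mir w).length = w.length := by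
  simp [mir, rv]

theorem mir_mir (w : Wd) : mir (mir w) = w := by
  have h : ∀ a : Fin 4, sw (sw (a + 2) + 2) = a := by decide
  unfold mir rv
  simp only [List.map_reverse, List.reverse_reverse, List.map_map]
  exact (List.map_congr_left (g := id) fun a _ => h a).trans (List.map_id w)

theorem ep_rv0 (w : Wd) : ep 0 (rv w) = - ep 0 w := by
  have h := ep_rv 0 w
  rw [ep_eq] at h
  exact eq_neg_of_add_eq_zero_left h

theorem vt_rv0 (w : Wd) : vt 0 (rv w) = (vt 0 w).reverse.map (fun v => v - ep 0 w) := by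
  have h := vt_rv 0 w
  rw [vt_eq] at h
  rw [← h, List.map_map]
  have : ((fun v : ℤ × ℤ => v - ep 0 w) ∘ fun v => v + ep 0 w) = id := by
    funext v
    simp
  rw [this, List.map_id]

theorem sg_zero : sg 0 = 0 := rfl

theorem ep_mir (w : Wd) : ep 0 (mir w) = sg (- ep 0 w) := by
  have h := ep_sw 0 (rv w)
  rw [sg_zero] at h
  rw [mir, h, ep_rv0]

theorem vt_mir (w : Wd) : vt 0 (mir w) = (vt 0 w).reverse.map (fun v => sg (v - ep 0 w)) := by
  have h := vt_sw 0 (rv w)
  rw [sg_zero] at h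
  rw [mir, h, vt_rv0, List.map_map]
  rfl

/-- interior vertices -/
theorem tail_mir (w : Wd) (hw : w ≠ []) (p : ℤ × ℤ) (hp : p ∈ (vs 0 (mir w)).tail) :
    ∃ v ∈ (vs 0 w).tail, p = sg (v - ep 0 w) := by
  have h := vs_sw 0 (rv w)
  rw [sg_zero] at h
  rw [mir, h, ← List.map_tail] at hp
  obtain ⟨u, hu, rfl⟩ := List.mem_map.1 hp
  have h1 := vs_rv 0 w
  obtain ⟨a, l, rfl⟩ := List.exists_cons_of_ne_nil hw
  have h1' : vs (ep 0 (a :: l)) (rv (a :: l)) ++ [(0 : ℤ × ℤ)] =
      (ep 0 (a :: l) :: (vs (0 + dv a) l).reverse) ++ [0] := by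
    rw [h1]
    simp
  have h2 := List.append_cancel_right h1'
  rw [vs_eq] at h2
  have h3 := congrArg List.tail h2
  rw [← List.map_tail, List.tail_cons] at h3
  refine ⟨u + ep 0 (a :: l), ?_, ?_⟩
  · rw [vs_cons, List.tail_cons]
    rw [← List.mem_reverse, ← h3]
    exact List.mem_map.2 ⟨u, hu, rfl⟩
  · simp

section

variable {x : ℤ} {w : Wd}

theorem lev_f (h : ep 0 w = (-x, x)) (v : ℤ × ℤ) : lev (sg (v - ep 0 w)) = lev v := by
  rw [h]
  simp only [lev, sg, Prod.fst_sub, Prod.snd_sub]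
  ring

theorem lat_f (h : ep 0 w = (-x, x)) (v : ℤ × ℤ) :
    lat (sg (v - ep 0 w)) + x = - (lat v + x) := by
  rw [h]
  simp only [lat, sg, Prod.fst_sub, Prod.snd_sub]
  ring

theorem cnt_mir (h : ep 0 w = (-x, x)) (k : ℤ) : cnt (vt 0 (mir w)) k = cnt (vt 0 w) k := by
  unfold cnt
  rw [vt_mir, List.countP_map, List.countP_reverse]
  congr 1
  funext v
  simp only [Function.comp_apply, lev_f h]

theorem cntI_mir (h : ep 0 w = (-x, x)) (a b : ℤ) :
    cntI (vt 0 (mir w)) a b = cntI (vt 0 w) a b := by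
  unfold cntI
  rw [vt_mir, List.countP_map, List.countP_reverse]
  congr 1
  funext v
  simp only [Function.comp_apply, lev_f h]

theorem arch_mir (h : Arch x w) : Arch x (mir w) := by
  obtain ⟨h1, h2, h3, h4⟩ := h
  refine ⟨?_, ?_, ?_, ?_⟩
  · intro h
    apply h1
    have h5 := mir_length w
    rw [h] at h5
    exact List.length_eq_zero_iff.1 h5.symm
  · rw [ep_mir, h2]
    simp [sg]
  · rw [vt_mir]
    refine (List.nodup_reverse.2 h3).map ?_
    intro u v huv
    have := sg_inj huv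
    exact sub_left_injective this
  · intro p hp
    obtain ⟨v, hv, rfl⟩ := tail_mir w h1 p hp
    rw [lev_f h2]
    exact h4 v hv

theorem runs_mir {r : ℕ} (h : ep 0 w = (-x, x)) (hr : ArchRuns r w) : ArchRuns r (mir w) := by
  intro a b ha hab
  rw [cntI_mir h]
  refine hr a b ha fun k h1 h2 hc => hab k h1 h2 ?_
  unfold Cut at hc ⊢
  rw [cnt_mir h, cnt_mir h, cnt_mir h]
  exact hc

theorem hgt_le (h : ep 0 w = (-x, x)) : hgt (mir w) ≤ hgt w := by
  classical
  unfold hgt
  refine Finset.sup_le fun p hp => ?_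
  rw [List.mem_toFinset, vt_mir, List.mem_map] at hp
  obtain ⟨v, hv, rfl⟩ := hp
  rw [List.mem_reverse] at hv
  rw [lev_f h]
  exact Finset.le_sup (f := fun p : ℤ × ℤ => (lev p).toNat) (List.mem_toFinset.2 hv)

theorem hgt_mir (h : Arch x w) : hgt (mir w) = hgt w := by
  apply le_antisymm (hgt_le h.2.1)
  have h1 := hgt_le (arch_mir h).2.1
  rwa [mir_mir] at h1

theorem mem_mir {r N : ℕ} (h : w ∈ ArchSet r x N) : mir w ∈ ArchSet r x N := by
  classical
  unfold ArchSet at h ⊢
  rw [Finset.mem_filter, mem_words] at h ⊢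
  exact ⟨by rw [mir_length, h.1], arch_mir h.2.1, runs_mir h.2.1.2.1 h.2.2⟩

theorem arch_of_mem {r N : ℕ} (h : w ∈ ArchSet r x N) : Arch x w := by
  classical
  unfold ArchSet at h
  rw [Finset.mem_filter] at h
  exact h.2.1

end

end MIRM

open MIRM in
theorem t_MIR : MIR_Stmt := by
  intro r x N G F _
  refine Finset.sum_nbij' mir mir (fun w hw => mem_mir hw) (fun w hw => mem_mir hw)
    (fun w _ => mir_mir w) (fun w _ => mir_mir w) fun w hw => ?_
  have hA := arch_of_mem hw
  rw [hgt_mir hA, vt_mir, List.map_map]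
  congr 1
  rw [List.map_reverse, List.sum_reverse]
  congr 1
  refine List.map_congr_left fun v _ => ?_
  simp only [Function.comp_apply]
  rw [lat_f hA.2.1, neg_neg]

end Pool.Agent.DIA
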