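import Pool.Agent.DIA.Stmts
import Pool.Agent.NSP.MainPre2

/-!
# Project DIA: assembly, prescribed span or diameter
-/

set_option autoImplicit false

namespace Pool.Agent.DIA

open Finset Filter Topology MeasureTheory
open Pool.Agent.Lib27 Pool.Agent.SapR Pool.Agent.Gap Pool.Agent.AreaLaw Pool.Agent.FL
open Pool.Agent.FS
open Pool.Agent.KCS (airyMoment)
open Pool.Agent.KCC (areaMoment)

/-- the final theorem for prescribed span or diameter -/
def FINC : Prop := ∃ μ : Measure ℝ, IsProbabilityMeasure μ ∧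
  (∀ r : ℕ, Integrable (fun x : ℝ => x ^ r) μ ∧ ∫ x, x ^ r ∂μ = airyMoment r) ∧
  (∀ x : ℝ, μ {x} = 0 →
    Tendsto (fun n : ℕ => areaCdf n (Staircase n) x) atTop (𝓝 (μ (Set.Iic x)).toReal)) ∧
  ∃ e : ℕ → ℝ, (∀ n, 0 < e n) ∧ Tendsto e atTop (𝓝 0) ∧
    ∀ h : ℕ → ℕ, (∀ᶠ n : ℕ in atTop, e n * n ≤ (h n : ℝ) ∧ h n ≤ n) →
      ∀ g : ∀ n : ℕ, (Fin (2 * n) → Fin 4) → ℕ, (g = span ∨ g = diam) →
        (∀ x : ℝ, μ {x} = 0 →
          Tendsto (fun n : ℕ => areaCdf n ((SAP n).filter (fun s => g n s = h n)) x) atTop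
            (𝓝 (μ (Set.Iic x)).toReal) ∧
          Tendsto (fun n : ℕ => areaCdf n ((SAP n).filter (fun s => h n ≤ g n s)) x) atTop
            (𝓝 (μ (Set.Iic x)).toReal)) ∧
        ∀ r : ℕ,
          Tendsto (fun n : ℕ => areaMoment n ((SAP n).filter (fun s => g n s = h n)) r) atTop
            (𝓝 (airyMoment r)) ∧
          Tendsto (fun n : ℕ => areaMoment n ((SAP n).filter (fun s => h n ≤ g n s)) r) atTop
            (𝓝 (airyMoment r))

theorem finC (hE : NSP.FIN_NSM) (hS : SAL_Stmt) (hC : CER_Stmt) (hT : TRW_Stmt) : FINC := by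
  classical
  obtain ⟨μ, hμ, hmom, hst, e₁, he₁, hl₁, hold⟩ := hE
  obtain ⟨e₂, he₂, hl₂, hsal⟩ := hS
  refine ⟨μ, hμ, hmom, hst, fun n => max (e₁ n) (e₂ n), fun n => lt_max_of_lt_left (he₁ n), ?_, ?_⟩
  · have := hl₁.max hl₂
    simpa using this
  intro h hh
  have hh1 : ∀ᶠ n : ℕ in atTop, e₁ n * n ≤ (h n : ℝ) ∧ h n ≤ n := by
    filter_upwards [hh] with n hn
    exact ⟨(mul_le_mul_of_nonneg_right (le_max_left _ _) (Nat.cast_nonneg n)).trans hn.1, hn.2⟩
  have hh2 : ∀ᶠ n : ℕ in atTop, e₂ n * n ≤ (h n : ℝ) ∧ h n ≤ n := by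
    filter_upwards [hh] with n hn
    exact ⟨(mul_le_mul_of_nonneg_right (le_max_right _ _) (Nat.cast_nonneg n)).trans hn.1, hn.2⟩
  obtain ⟨hcd, hmo⟩ := hold h hh1
  have ht : ∀ n h, cls n true h = (SAP n).filter (fun s => span n s = h) := by
    intro n h
    unfold cls
    apply Finset.filter_congr
    intro s _
    unfold inC
    simp
  have hf : ∀ n h, cls n false h = (SAP n).filter (fun s => h ≤ span n s) := by
    intro n h
    unfold cls
    apply Finset.filter_congr
    intro s _
    unfold inC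
    simp
  -- the classes of the span
  have keyS : ∀ b : Bool, (∀ x : ℝ, μ {x} = 0 →
      Tendsto (fun n : ℕ => areaCdf n (cls n b (h n)) x) atTop (𝓝 (μ (Set.Iic x)).toReal)) ∧
      ∀ r : ℕ, Tendsto (fun n : ℕ => areaMoment n (cls n b (h n)) r) atTop
        (𝓝 (airyMoment r)) := by
    intro b
    cases b with
    | true =>
      refine ⟨fun x hx => ((hcd x hx).1).congr fun n => by rw [ht],
        fun r => ((hmo r).1).congr fun n => by rw [ht]⟩
    | false =>
      refine ⟨fun x hx => ((hcd x hx).2).congr fun n => by rw [hf],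
        fun r => ((hmo r).2).congr fun n => by rw [hf]⟩
  have hcS : ∀ n b h, cls n b h ⊆ SAP n := fun n b h => by
    unfold cls
    exact Finset.filter_subset _ _
  have hdS : ∀ n b h, dcl n b h ⊆ SAP n := fun n b h => by
    unfold dcl
    exact Finset.filter_subset _ _
  have hbS : ∀ n b h, bad n b h ⊆ cls n b h := fun n b h s hs => by
    unfold bad at hs
    unfold cls
    rw [Finset.mem_filter] at hs ⊢
    exact ⟨hs.1, hs.2.1⟩
  -- the classes of the diameter
  have keyD : ∀ b : Bool, (∀ x : ℝ, μ {x} = 0 →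
      Tendsto (fun n : ℕ => areaCdf n (dcl n b (h n)) x) atTop (𝓝 (μ (Set.Iic x)).toReal)) ∧
      ∀ r : ℕ, Tendsto (fun n : ℕ => areaMoment n (dcl n b (h n)) r) atTop
        (𝓝 (airyMoment r)) := by
    intro b
    have e0 : airyMoment 0 = 1 := by
      have := (hmom 0).2
      simp at this
      exact this.symm
    have hcard : ∀ᶠ n : ℕ in atTop, 0 < (cls n b (h n)).card := by
      have h0 := (keyS b).2 0
      rw [e0] at h0
      filter_upwards [h0.eventually_ne one_ne_zero] with n hn
      rw [Nat.pos_iff_ne_zero]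
      intro hz
      apply hn
      unfold areaMoment
      rw [hz]
      simp
    have hZ : ∀ n, wZ n (fun s => if s ∈ cls n b (h n) then (1 : ℝ) else 0) =
        (cls n b (h n)).card := fun n => ((hC n b (h n)).2.1 _ (hcS n b (h n))).1
    have hpos : ∀ᶠ n : ℕ in atTop,
        0 < wZ n (fun s => if s ∈ cls n b (h n) then (1 : ℝ) else 0) := by
      filter_upwards [hcard] with n hn
      rw [hZ]
      exact_mod_cast hn
    have herr : ∀ j : ℕ, Tendsto (fun n : ℕ => (n : ℝ) ^ j *
        (wErr n (fun s => if s ∈ cls n b (h n) then (1 : ℝ) else 0)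
          (fun s => if s ∈ dcl n b (h n) then (1 : ℝ) else 0) /
          wZ n (fun s => if s ∈ cls n b (h n) then (1 : ℝ) else 0))) atTop (𝓝 0) := by
      intro j
      have h3 : Tendsto (fun n : ℕ => (n : ℝ) ^ j * Real.exp (-Real.sqrt n)) atTop (𝓝 0) := by
        have h4 : Tendsto (fun y : ℝ => y ^ (2 * j) * Real.exp (-y)) atTop (𝓝 0) :=
          Real.tendsto_pow_mul_exp_neg_atTop_nhds_zero (2 * j)
        have h5 : Tendsto (fun n : ℕ => Real.sqrt (n : ℝ)) atTop atTop :=
          Real.tendsto_sqrt_atTop.comp tendsto_natCast_atTop_atTop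
        refine (h4.comp h5).congr fun n => ?_
        simp only [Function.comp]
        rw [pow_mul, Real.sq_sqrt (Nat.cast_nonneg n)]
      have h6 := (h3.mul (hsal h hh2 b)).const_mul 2
      simp only [mul_zero] at h6
      refine squeeze_zero' (Filter.Eventually.of_forall fun n => ?_) ?_ h6
      · have h7 : 0 ≤ wErr n (fun s => if s ∈ cls n b (h n) then (1 : ℝ) else 0)
          (fun s => if s ∈ dcl n b (h n) then (1 : ℝ) else 0) :=
          Finset.sum_nonneg fun s _ => abs_nonneg _
        have h8 : 0 ≤ wZ n (fun s => if s ∈ cls n b (h n) then (1 : ℝ) else 0) := by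
          rw [hZ]
          exact Nat.cast_nonneg _
        positivity
      · filter_upwards [hcard] with n hn
        have hc0 : (0 : ℝ) < (cls n b (h n)).card := by exact_mod_cast hn
        have h7 := (hC n b (h n)).1
        rw [hZ]
        have h9 : (n : ℝ) ^ j * (wErr n (fun s => if s ∈ cls n b (h n) then (1 : ℝ) else 0)
          (fun s => if s ∈ dcl n b (h n) then (1 : ℝ) else 0) / (cls n b (h n)).card) ≤
            (n : ℝ) ^ j * (2 * (bad n b (h n)).card / (cls n b (h n)).card) :=
          mul_le_mul_of_nonneg_left (div_le_div_of_nonneg_right h7 hc0.le) (by positivity)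
        refine h9.trans (le_of_eq ?_)
        unfold bq
        have h10 : Real.exp (-Real.sqrt n) * Real.exp (Real.sqrt n) = 1 := by
          rw [← Real.exp_add]; simp
        calc (n : ℝ) ^ j * (2 * ((bad n b (h n)).card : ℝ) / (cls n b (h n)).card)
            = 2 * ((n : ℝ) ^ j * (((bad n b (h n)).card : ℝ) / (cls n b (h n)).card)) := by ring
          _ = 2 * ((n : ℝ) ^ j * (((bad n b (h n)).card : ℝ) / (cls n b (h n)).card) *
                (Real.exp (-Real.sqrt n) * Real.exp (Real.sqrt n))) := by rw [h10, mul_one]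
          _ = _ := by ring
    have key := hT μ hμ (fun n s => if s ∈ cls n b (h n) then (1 : ℝ) else 0)
      (fun n s => if s ∈ dcl n b (h n) then (1 : ℝ) else 0)
      (fun n s => by
        show (0 : ℝ) ≤ (if s ∈ cls n b (h n) then (1 : ℝ) else 0)
        split_ifs <;> norm_num)
      (fun n s => by
        show (0 : ℝ) ≤ (if s ∈ dcl n b (h n) then (1 : ℝ) else 0)
        split_ifs <;> norm_num) hpos herr
    refine ⟨fun x hx => ?_, fun r => ?_⟩
    · have h4 := key.1 (fun y hy => ((keyS b).1 y hy).congr fun n =>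
        (((hC n b (h n)).2.1 _ (hcS n b (h n))).2.1 y).symm) x hx
      exact h4.congr fun n => ((hC n b (h n)).2.1 _ (hdS n b (h n))).2.1 x
    · have h4 := key.2 r (airyMoment r) (((keyS b).2 r).congr fun n =>
        (((hC n b (h n)).2.1 _ (hcS n b (h n))).2.2 r).symm)
      exact h4.congr fun n => ((hC n b (h n)).2.1 _ (hdS n b (h n))).2.2 r
  rintro g (rfl | rfl)
  · exact ⟨hcd, hmo⟩
  · refine ⟨fun x hx => ⟨?_, ?_⟩, fun r => ⟨?_, ?_⟩⟩
    · exact ((keyD true).1 x hx).congr fun n => by rw [(hC n true (h n)).2.2.1]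
    · exact ((keyD false).1 x hx).congr fun n => by rw [(hC n false (h n)).2.2.2]
    · exact ((keyD true).2 r).congr fun n => by rw [(hC n true (h n)).2.2.1]
    · exact ((keyD false).2 r).congr fun n => by rw [(hC n false (h n)).2.2.2]

end Pool.Agent.DIA
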