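import Pool.Agent.DIA.Stmts
import Pool.Agent.NSP.NSF
import Pool.Agent.NSP.FINB

/-!
# Project DIA, module SAL: all spans, diagonal argument
-/

set_option autoImplicit false

namespace Pool.Agent.DIA

open Finset Filter Topology MeasureTheory
open Pool.Agent.Lib27 Pool.Agent.SapR Pool.Agent.Gap Pool.Agent.AreaLaw Pool.Agent.FL
open Pool.Agent.FS

namespace SALaux

/-- the range of the old regime -/
def ok (e : ℝ) (n j : ℕ) : Prop := e * n ≤ (j : ℝ) ∧ (j : ℝ) ≤ (1 - e) * n

theorem ok_mono (e e' : ℝ) (n h : ℕ) (hee : e' ≤ e) (hok : ok e n h) : ok e' n h := by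
  have hn : (0 : ℝ) ≤ n := Nat.cast_nonneg n
  refine ⟨(mul_le_mul_of_nonneg_right hee hn).trans hok.1, hok.2.trans ?_⟩
  exact mul_le_mul_of_nonneg_right (by linarith) hn

theorem diag (hS : SLD_Stmt) (hD : NSP.DIAGM_Stmt) (b : Bool) :
    ∃ e : ℕ → ℝ, (∀ n, 0 < e n) ∧ Tendsto e atTop (𝓝 0) ∧
      ∀ h : ℕ → ℕ, (∀ᶠ n in atTop, ok (e n) n (h n)) →
        Tendsto (fun n => bq b n (h n)) atTop (𝓝 0) := by
  classical
  obtain ⟨e, h1, h2, h3⟩ := hD ok (fun _ n j => bq b n j) (fun _ => 0) ok_mono (by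
    intro e he h _ d hd
    set v : ℝ := min e (1 / 4) with hv
    have hv0 : 0 < v := lt_min he (by norm_num)
    have hve : v ≤ e := min_le_left _ _
    have hv4 : v ≤ 1 / 4 := min_le_right _ _
    set h' : ℕ → ℕ := fun n => if ok e n (h n) then h n else n / 2 with hh'
    have h4 : ∀ᶠ n : ℕ in atTop, v * n ≤ (h' n : ℝ) ∧ (h' n : ℝ) ≤ (1 - v) * n := by
      filter_upwards [eventually_ge_atTop 2] with n hn3
      have hn0 : (0 : ℝ) ≤ n := Nat.cast_nonneg n
      by_cases hp : ok e n (h n)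
      · have e1 : h' n = h n := if_pos hp
        rw [e1]
        exact ok_mono e v n (h n) hve hp
      · have e1 : h' n = n / 2 := if_neg hp
        rw [e1]
        have h2 : (n : ℝ) ≤ 4 * ((n / 2 : ℕ) : ℝ) := by
          have : n ≤ 4 * (n / 2) := by omega
          exact_mod_cast this
        have h3 : 2 * ((n / 2 : ℕ) : ℝ) ≤ n := by
          have : 2 * (n / 2) ≤ n := by omega
          exact_mod_cast this
        have h4 : v * n ≤ 1 / 4 * n := mul_le_mul_of_nonneg_right hv4 hn0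
        constructor <;> linarith
    have h5 := (Metric.tendsto_nhds.1 (hS v hv0 h' h4 b)) d hd
    filter_upwards [h5] with n hn hok
    have e1 : h' n = h n := if_pos hok
    rw [e1, Real.dist_eq] at hn
    exact hn.le)
  exact ⟨e, h1, h2, fun h hh => h3 h hh 0⟩

end SALaux

open SALaux in
theorem t_SAL (hR : SRG_Stmt) (hS : SLD_Stmt) (hCH : NSP.CHOZ_Stmt) (hEQ : NSP.EQZ_Stmt)
    (hBD : NSP.BDZ_Stmt) (hD : NSP.DIAGM_Stmt) : SAL_Stmt := by
  obtain ⟨e1, a1, a2, a3⟩ := diag hS hD true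
  obtain ⟨e2, b1, b2, b3⟩ := diag hS hD false
  have hpos : ∀ n, 0 < max (e1 n) (e2 n) := fun n => lt_max_of_lt_left (a1 n)
  have hlim : Tendsto (fun n => max (e1 n) (e2 n)) atTop (𝓝 0) := by
    have := a2.max b2
    rwa [max_self] at this
  refine ⟨fun n => max (e1 n) (e2 n), hpos, hlim, ?_⟩
  intro h hh b
  refine NSP.finb_gen (fun n => max (e1 n) (e2 n)) hpos hlim (bq b) 0 ?_ ?_ h hh
  · intro h' hh'
    cases b with
    | true =>
      refine a3 h' (hh'.mono fun n hn => ?_)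
      exact ok_mono _ _ n (h' n) (le_max_left _ _) hn
    | false =>
      refine b3 h' (hh'.mono fun n hn => ?_)
      exact ok_mono _ _ n (h' n) (le_max_right _ _) hn
  · intro h' h1 h2
    have h3 := NSP.nsf_gen hCH hEQ hBD (fun n j => if n ≤ 2 * j then bq b n j else 0) 0
      (fun s h'' hreg => hR s h'' hreg b) h' h1 h2
    refine h3.congr' ?_
    have h4 : ∀ᶠ n : ℕ in atTop, (1 : ℝ) / 2 < (h' n : ℝ) / n :=
      h2.eventually (lt_mem_nhds (by norm_num))
    filter_upwards [h4, eventually_gt_atTop 0] with n hn hn0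
    have hn' : (0 : ℝ) < n := by exact_mod_cast hn0
    rw [lt_div_iff₀ hn'] at hn
    have h5 : n ≤ 2 * h' n := by
      have : (n : ℝ) ≤ 2 * (h' n : ℝ) := by linarith
      exact_mod_cast this
    exact if_pos h5

end Pool.Agent.DIA
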