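import Pool.Agent.DIA.Stmts

/-!
# Project DIA (MP_f6626d_co): module SLD, the old regime
-/

set_option autoImplicit false

namespace Pool.Agent.DIA

open Finset Filter Topology MeasureTheory
open Pool.Agent.Lib27 Pool.Agent.SapR Pool.Agent.Gap Pool.Agent.AreaLaw Pool.Agent.FL
open Pool.Agent.FS

namespace SLDx

lemma tails_mono {C C' θ θ' : ℝ} (hC : C ≤ C') (hC0 : 0 ≤ C') (hθ : 0 < θ) (hh : θ ≤ θ')
    {n : ℕ} {s rho : ℝ} (hT : Tails C θ n s rho) : Tails C' θ' n s rho := by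
  obtain ⟨h1, h2, h3⟩ := hT
  have h4 : ∀ m : ℕ, C * θ ^ m ≤ C' * θ' ^ m := fun m =>
    mul_le_mul hC (pow_le_pow_left₀ hθ.le hh m) (by positivity) hC0
  refine ⟨fun m => (h1 m).trans (h4 m), fun m => (h2 m).trans (h4 m), h3.trans ?_⟩
  have h5 := mul_le_mul_of_nonneg_left (h4 n) (Nat.cast_nonneg (α := ℝ) n)
  calc C * n * θ ^ n = n * (C * θ ^ n) := by ring
    _ ≤ n * (C' * θ' ^ n) := h5
    _ = C' * n * θ' ^ n := by ring

lemma lim0 (j : ℕ) (κ : ℝ) (hκ : 0 < κ) :
    Tendsto (fun n : ℕ => Real.exp (Real.sqrt n) * ((n : ℝ) ^ j * Real.exp (-(κ * n)))) atTop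
      (𝓝 0) := by
  have h1 : Tendsto (fun n : ℕ => (n : ℝ) ^ j * (Real.exp (-(κ / 2))) ^ n) atTop (𝓝 0) := by
    refine tendsto_pow_const_mul_const_pow_of_abs_lt_one j ?_
    rw [abs_of_pos (Real.exp_pos _), Real.exp_lt_one_iff]
    linarith
  refine squeeze_zero' (Eventually.of_forall fun n => by positivity) ?_ h1
  obtain ⟨N, hN⟩ := exists_nat_ge ((2 / κ) ^ 2)
  filter_upwards [eventually_ge_atTop N] with n hn
  have hn0 : (0 : ℝ) ≤ n := Nat.cast_nonneg n
  have h2 : 2 / κ ≤ Real.sqrt n := by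
    refine Real.le_sqrt_of_sq_le (hN.trans ?_)
    exact_mod_cast hn
  have h3 : Real.sqrt n ≤ κ / 2 * n := by
    have h4 : Real.sqrt n * Real.sqrt n = n := Real.mul_self_sqrt hn0
    have h5 : 1 ≤ κ / 2 * Real.sqrt n := by
      rw [div_le_iff₀ hκ] at h2
      linarith
    have h6 : 0 ≤ Real.sqrt n := Real.sqrt_nonneg _
    nlinarith
  calc Real.exp (Real.sqrt n) * ((n : ℝ) ^ j * Real.exp (-(κ * n)))
      = (n : ℝ) ^ j * Real.exp (Real.sqrt n + -(κ * n)) := by
        rw [Real.exp_add]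
        ring
    _ ≤ (n : ℝ) ^ j * Real.exp (n * (-(κ / 2))) := by
        refine mul_le_mul_of_nonneg_left (Real.exp_le_exp.2 ?_) (by positivity)
        linarith
    _ = (n : ℝ) ^ j * (Real.exp (-(κ / 2))) ^ n := by rw [Real.exp_nat_mul]

open Classical in
lemma bad_le (n : ℕ) (b : Bool) (h : ℕ) (s : ℝ) (hs0 : 0 < s) (hs1 : s ≤ 1) :
    s ^ (n - h) * ((bad n b h).card : ℝ) ≤
      ∑ w ∈ (SAP n).filter (fun w => h ≤ lspan n w), s ^ (n - span n w) := by
  have h1 : s ^ (n - h) * ((bad n b h).card : ℝ) = ∑ w ∈ bad n b h, s ^ (n - h) := by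
    rw [Finset.sum_const, nsmul_eq_mul, mul_comm]
  rw [h1]
  have hmem : ∀ w ∈ bad n b h, w ∈ SAP n ∧ inC b h (span n w) ∧ h ≤ lspan n w := by
    intro w hw
    unfold bad at hw
    exact Finset.mem_filter.1 hw
  refine le_trans (Finset.sum_le_sum (g := fun w => s ^ (n - span n w)) fun w hw => ?_) ?_
  · have h2 : h ≤ span n w := by
      rcases (hmem w hw).2.1 with h3 | h3
      · exact h3.2.ge
      · exact h3.2
    exact pow_le_pow_of_le_one hs0.le hs1 (by omega)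
  · refine Finset.sum_le_sum_of_subset_of_nonneg (fun w hw => ?_) fun w _ _ => by positivity
    exact Finset.mem_filter.2 ⟨(hmem w hw).1, (hmem w hw).2.2⟩

end SLDx

open SLDx in
theorem t_SLD (hB : BDB_Stmt) (hC : CLS_Stmt) (hZ : ZB_Stmt) (hH : CHOICE_Stmt)
    (hP : SUBB.POL_Stmt) : SLD_Stmt := by
  classical
  intro v hv h hh b
  obtain ⟨-, hB2, -, K, hB4⟩ := hB
  obtain ⟨c, hc, hPv⟩ := hP v hv
  obtain ⟨e, he0, hec, hev⟩ : ∃ e : ℝ, 0 < e ∧ e ≤ c ∧ e ≤ v :=
    ⟨min c v, lt_min hc hv, min_le_left _ _, min_le_right _ _⟩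
  obtain ⟨f1, hf1, N1, hH1⟩ := hH e he0
  -- the force
  have hex : ∀ n : ℕ, ∃ f : ℝ, (e / 2 ≤ f ∧ f ≤ f1) ∧
      ((∃ f' : ℝ, e / 2 ≤ f' ∧ f' ≤ f1 ∧ Cen n f' (h n)) → Cen n f (h n)) := by
    intro n
    by_cases hcase : ∃ f' : ℝ, e / 2 ≤ f' ∧ f' ≤ f1 ∧ Cen n f' (h n)
    · obtain ⟨f', h1, h2, h3⟩ := hcase
      exact ⟨f', ⟨h1, h2⟩, fun _ => h3⟩
    · exact ⟨e / 2, ⟨le_rfl, hf1⟩, fun h1 => absurd h1 hcase⟩
  choose f hf hfc using hex
  have hcen : ∀ᶠ n : ℕ in atTop, Cen n (f n) (h n) := by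
    filter_upwards [hPv, hh, eventually_ge_atTop N1] with n h1 h2 h3
    have hn0 : (0 : ℝ) ≤ n := Nat.cast_nonneg n
    refine hfc n (hH1 n h3 (h n) ?_ ?_)
    · have h4 : (((SAP n).filter (fun s => h n ≤ span n s)).card : ℝ) ≤
          (((SAP n).filter (fun s => v * n ≤ (span n s : ℝ))).card : ℝ) := by
        refine Nat.cast_le.2 (Finset.card_le_card fun s hs => ?_)
        rw [Finset.mem_filter] at hs ⊢
        refine ⟨hs.1, h2.1.trans ?_⟩
        exact_mod_cast hs.2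
      refine h4.trans (h1.trans ?_)
      refine mul_le_mul_of_nonneg_right (Real.exp_le_exp.2 ?_) (Nat.cast_nonneg _)
      nlinarith
    · refine h2.2.trans ?_
      nlinarith
  obtain ⟨⟨c', hc', hlow⟩, -⟩ := hC (e / 2) f1 (by linarith) hf1 f h hf hcen b
  obtain ⟨C, θ, hC0, hθ, hθ1, N2, hZ2⟩ := hZ (Real.exp (-(e / 2))) (Real.exp_pos _) (by
    rw [Real.exp_lt_one_iff]
    linarith)
  obtain ⟨D, hD2, hDC, hDθ⟩ : ∃ D : ℝ, 2 ≤ D ∧ C ≤ D ∧ θ ≤ 1 - D⁻¹ := by
    refine ⟨max 2 (max C (1 - θ)⁻¹), le_max_left _ _,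
      (le_max_left _ _).trans (le_max_right _ _), ?_⟩
    have h1 : (1 - θ)⁻¹ ≤ max 2 (max C (1 - θ)⁻¹) := (le_max_right _ _).trans (le_max_right _ _)
    have h2 : 0 < (1 - θ)⁻¹ := inv_pos.2 (by linarith)
    have h3 := inv_anti₀ h2 h1
    rw [inv_inv] at h3
    linarith
  have hD0 : (0 : ℝ) < D := by linarith
  have hDK : (0 : ℝ) < D ^ K := pow_pos hD0 K
  have hq0 : (0 : ℝ) < 1 - D⁻¹ := hθ.trans_le hDθ
  have hq1 : 1 - D⁻¹ < 1 := by
    have := inv_pos.2 hD0
    linarith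
  -- the bound
  have hlim : Tendsto (fun n : ℕ => D ^ K * C / (4 * c') *
      (Real.exp (Real.sqrt n) * ((n : ℝ) ^ (K + 1) * Real.exp (-(v ^ 2 / D ^ K * n))) +
        Real.exp (Real.sqrt n) * ((n : ℝ) ^ (K + 1) * Real.exp (-(-Real.log (1 - D⁻¹) * n)))))
      atTop (𝓝 0) := by
    have h1 := (lim0 (K + 1) (v ^ 2 / D ^ K) (by positivity)).add
      (lim0 (K + 1) (-Real.log (1 - D⁻¹)) (neg_pos.2 (Real.log_neg hq0 hq1)))
    have h2 := h1.const_mul (D ^ K * C / (4 * c'))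
    rwa [add_zero, mul_zero] at h2
  refine squeeze_zero' (Eventually.of_forall fun n => ?_) ?_ hlim
  · unfold bq
    positivity
  · filter_upwards [hlow, hh, eventually_ge_atTop N2, eventually_ge_atTop 1] with n h1 h2 h3 hn1
    have hn0 : (0 : ℝ) < n := by exact_mod_cast hn1
    have hs0 : 0 < Real.exp (-(f n)) := Real.exp_pos _
    have hs1 : Real.exp (-(f n)) ≤ Real.exp (-(e / 2)) :=
      Real.exp_le_exp.2 (by linarith [(hf n).1])
    have hs2 : Real.exp (-(f n)) ≤ 1 := by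
      rw [Real.exp_le_one_iff]
      linarith [(hf n).1]
    obtain ⟨rho, hcrit, hT, -, -, hz, -⟩ := hZ2 n h3 (Real.exp (-(f n))) hs0 hs1
    have hT2 := tails_mono hDC hD0.le hθ hDθ hT
    set s : ℝ := Real.exp (-(f n)) with hs
    have hr : 0 < rho ^ n := pow_pos hcrit.1 n
    -- the numerator
    have hnum : rho ^ n * (s ^ (n - h n) * ((bad n b (h n)).card : ℝ)) ≤
        D ^ K * (n : ℝ) ^ K * (Real.exp (-(v ^ 2 / D ^ K * n)) + (1 - D⁻¹) ^ n) := by
      have h4 := hB4 D hD2 n s rho hn1 hs0 hs2 hcrit.1 hcrit.2 hT2 (h n)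
      refine (mul_le_mul_of_nonneg_left (bad_le n b (h n) s hs0 hs2) hr.le).trans (h4.trans ?_)
      refine mul_le_mul_of_nonneg_left (add_le_add_left (Real.exp_le_exp.2 (neg_le_neg ?_)) _)
        (by positivity)
      have h5 : (v * n) ^ 2 ≤ (h n : ℝ) ^ 2 := pow_le_pow_left₀ (by positivity) h2.1 2
      rw [le_div_iff₀ (by positivity)]
      calc v ^ 2 / D ^ K * n * (D ^ K * n) = (v * n) ^ 2 := by
            field_simp
        _ ≤ _ := h5
    -- the denominator
    have hden : 4 * c' / (C * n) ≤ rho ^ n * (s ^ (n - h n) * ((cls n b (h n)).card : ℝ)) := by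
      have h4 : 4 * (n : ℝ) * ((Omn n).filter (fun q => inC b (h n) (sp q))).card ≤
          ((cls n b (h n)).card : ℝ) := by
        have h5 := hB2 n b (h n) hn1
        exact_mod_cast h5
      have hsq : Real.sqrt n * Real.sqrt n = n := Real.mul_self_sqrt hn0.le
      have hsq0 : 0 < Real.sqrt n := Real.sqrt_pos.2 hn0
      have h6 : 4 * c' / n * (sc n * rho ^ n * Zq n s) ≤
          rho ^ n * (s ^ (n - h n) * ((cls n b (h n)).card : ℝ)) := by
        calc 4 * c' / n * (sc n * rho ^ n * Zq n s)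
            = rho ^ n * (4 * n * (c' / Real.sqrt n * Zq n s)) := by
              unfold sc
              have h7 : (n : ℝ) / Real.sqrt n = Real.sqrt n := by
                rw [div_eq_iff hsq0.ne', hsq]
              calc 4 * c' / n * (n * Real.sqrt n * rho ^ n * Zq n s)
                  = 4 * c' * Real.sqrt n * rho ^ n * Zq n s := by
                    field_simp
                _ = 4 * c' * (n / Real.sqrt n) * rho ^ n * Zq n s := by rw [h7]
                _ = _ := by ring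
          _ ≤ rho ^ n * (4 * n * (s ^ (n - h n) *
              ((Omn n).filter (fun q => inC b (h n) (sp q))).card)) := by gcongr
          _ = rho ^ n * (s ^ (n - h n) *
              (4 * n * ((Omn n).filter (fun q => inC b (h n) (sp q))).card)) := by ring
          _ ≤ _ := by gcongr
      refine le_trans ?_ h6
      calc 4 * c' / (C * n) = 4 * c' / n * C⁻¹ := by
            field_simp
        _ ≤ _ := by gcongr
    -- the quotient
    have hY : 0 < 4 * c' / (C * n) := by positivity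
    have hcls : 0 < rho ^ n * (s ^ (n - h n) * ((cls n b (h n)).card : ℝ)) := hY.trans_le hden
    have hrs : 0 < rho ^ n * s ^ (n - h n) := by positivity
    have hquot : ((bad n b (h n)).card : ℝ) / (cls n b (h n)).card =
        (rho ^ n * (s ^ (n - h n) * ((bad n b (h n)).card : ℝ))) /
          (rho ^ n * (s ^ (n - h n) * ((cls n b (h n)).card : ℝ))) := by
      rw [← mul_assoc, ← mul_assoc, mul_div_mul_left _ _ hrs.ne']
    unfold bq
    rw [mul_div_assoc, hquot]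
    have hq : (1 - D⁻¹) ^ n = Real.exp (-(-Real.log (1 - D⁻¹) * n)) := by
      rw [neg_mul, neg_neg, mul_comm, Real.exp_nat_mul, Real.exp_log hq0]
    calc Real.exp (Real.sqrt n) * ((rho ^ n * (s ^ (n - h n) * ((bad n b (h n)).card : ℝ))) /
          (rho ^ n * (s ^ (n - h n) * ((cls n b (h n)).card : ℝ))))
        ≤ Real.exp (Real.sqrt n) * ((D ^ K * (n : ℝ) ^ K *
            (Real.exp (-(v ^ 2 / D ^ K * n)) + (1 - D⁻¹) ^ n)) / (4 * c' / (C * n))) := by
          refine mul_le_mul_of_nonneg_left ?_ (Real.exp_pos _).le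
          exact div_le_div₀ (by positivity) hnum hY hden
      _ = _ := by
          rw [hq]
          field_simp
          ring

end Pool.Agent.DIA
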