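import Pool.Agent.DIA.Stmts

/-!
# Project DIA, module SRG: regular sequences (helper63)
-/

set_option autoImplicit false
set_option maxHeartbeats 4000000

namespace Pool.Agent.DIA

open Finset Filter Topology MeasureTheory
open Pool.Agent.Lib27 Pool.Agent.SapR Pool.Agent.Gap Pool.Agent.AreaLaw Pool.Agent.FL
open Pool.Agent.FS
open Pool.Agent.NSP (Reg)

namespace SRGM

/-- quotients -/
theorem quot {w a c A B : ℝ} (hw : 0 < w) (ha : 0 ≤ a) (hA : w * a ≤ A) (hB : B ≤ w * c)
    (hB0 : 0 < B) : a / c ≤ A / B := by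
  have hwc : 0 < w * c := hB0.trans_le hB
  have hc : 0 < c := by
    by_contra hcon
    push Not at hcon
    have := mul_nonpos_of_nonneg_of_nonpos hw.le hcon
    linarith
  have h1 : a / c = (w * a) / (w * c) := by
    field_simp
  rw [h1]
  have h2 : 0 ≤ w * a := by positivity
  exact div_le_div₀ (h2.trans hA) hA hB0 hB

theorem tails_mono {C C' θ θ' : ℝ} {n : ℕ} {s rho : ℝ} (h : Tails C θ n s rho) (hC : C ≤ C')
    (hC0 : 0 ≤ C) (hθ0 : 0 ≤ θ) (hθ : θ ≤ θ') : Tails C' θ' n s rho := by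
  obtain ⟨h1, h2, h3⟩ := h
  have key : ∀ m : ℕ, C * θ ^ m ≤ C' * θ' ^ m := fun m =>
    mul_le_mul hC (pow_le_pow_left₀ hθ0 hθ m) (by positivity) (hC0.trans hC)
  refine ⟨fun m => (h1 m).trans (key m), fun m => (h2 m).trans (key m), h3.trans ?_⟩
  have e1 : C * n * θ ^ n = n * (C * θ ^ n) := by ring
  have e2 : C' * n * θ' ^ n = n * (C' * θ' ^ n) := by ring
  rw [e1, e2]
  exact mul_le_mul_of_nonneg_left (key n) (by positivity)

/-- the elementary limit -/
theorem lim0 (K : ℕ) (κ A : ℝ) (hκ : 0 < κ) :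
    Tendsto (fun n : ℕ => A * ((n : ℝ) ^ K / Real.exp (κ * n))) atTop (𝓝 0) := by
  have h1 := (isLittleO_pow_exp_pos_mul_atTop K hκ).tendsto_div_nhds_zero
  have h2 := h1.comp tendsto_natCast_atTop_atTop
  have h3 := h2.const_mul A
  rw [mul_zero] at h3
  exact h3

theorem sqrt_small (κ : ℝ) (hκ : 0 < κ) : ∀ᶠ n : ℕ in atTop, Real.sqrt n ≤ κ * n := by
  obtain ⟨N, hN⟩ := exists_nat_ge ((κ⁻¹) ^ 2)
  filter_upwards [eventually_ge_atTop N] with n hn
  have h1 : (κ⁻¹) ^ 2 ≤ (n : ℝ) := hN.trans (by exact_mod_cast hn)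
  have h2 : κ⁻¹ ≤ Real.sqrt n := Real.le_sqrt_of_sq_le h1
  have h3 : 1 ≤ κ * Real.sqrt n := by
    calc (1 : ℝ) = κ * κ⁻¹ := (mul_inv_cancel₀ hκ.ne').symm
      _ ≤ κ * Real.sqrt n := mul_le_mul_of_nonneg_left h2 hκ.le
  calc Real.sqrt n = 1 * Real.sqrt n := (one_mul _).symm
    _ ≤ (κ * Real.sqrt n) * Real.sqrt n := mul_le_mul_of_nonneg_right h3 (Real.sqrt_nonneg _)
    _ = κ * n := by rw [mul_assoc, Real.mul_self_sqrt (Nat.cast_nonneg n)]

/-- the exponential part -/
theorem expo {D : ℝ} (hD : 2 ≤ D) (K n h : ℕ) (hn : 1 ≤ n) (hh : n ≤ 2 * h) (κ : ℝ)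
    (hκ1 : κ ≤ 1 / (4 * D ^ K)) (hκ2 : κ ≤ 1 / D) :
    Real.exp (-((h : ℝ) ^ 2 / (D ^ K * n))) + (1 - D⁻¹) ^ n ≤ 2 * Real.exp (-(κ * n)) := by
  have hn0 : (0 : ℝ) < n := by exact_mod_cast hn
  have hD0 : 0 < D := by linarith
  have hDK : 0 < D ^ K := by positivity
  have h1 : Real.exp (-((h : ℝ) ^ 2 / (D ^ K * n))) ≤ Real.exp (-(κ * n)) := by
    apply Real.exp_le_exp.2
    apply neg_le_neg
    have h2 : (n : ℝ) ≤ 2 * h := by exact_mod_cast hh
    have h3 : (n : ℝ) ^ 2 / 4 ≤ (h : ℝ) ^ 2 := by nlinarith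
    calc κ * n ≤ 1 / (4 * D ^ K) * n := mul_le_mul_of_nonneg_right hκ1 hn0.le
      _ = ((n : ℝ) ^ 2 / 4) / (D ^ K * n) := by
        field_simp
      _ ≤ (h : ℝ) ^ 2 / (D ^ K * n) := div_le_div_of_nonneg_right h3 (by positivity)
  have h4 : (1 - D⁻¹) ^ n ≤ Real.exp (-(κ * n)) := by
    have h5 : 1 - D⁻¹ ≤ Real.exp (-D⁻¹) := by
      have := Real.add_one_le_exp (-D⁻¹)
      linarith
    have h6 : 0 ≤ 1 - D⁻¹ := by
      have : D⁻¹ ≤ 1 := inv_le_one_of_one_le₀ (by linarith)
      linarith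
    calc (1 - D⁻¹) ^ n ≤ (Real.exp (-D⁻¹)) ^ n := pow_le_pow_left₀ h6 h5 n
      _ = Real.exp (-(D⁻¹ * n)) := by
        rw [← Real.exp_nat_mul]
        congr 1
        ring
      _ ≤ Real.exp (-(κ * n)) := by
        apply Real.exp_le_exp.2
        apply neg_le_neg
        rw [one_div] at hκ2
        exact mul_le_mul_of_nonneg_right hκ2 hn0.le
  linarith

/-- the first bound -/
theorem bad_le (n : ℕ) (b : Bool) (h : ℕ) (s : ℝ) (hs : 0 < s) (hs1 : s ≤ 1) :
    s ^ (n - h) * ((bad n b h).card : ℝ) ≤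
      ∑ w ∈ (SAP n).filter (fun w => h ≤ lspan n w), s ^ (n - span n w) := by
  classical
  have hsub : bad n b h ⊆ (SAP n).filter (fun w => h ≤ lspan n w) := by
    intro w hw
    unfold bad at hw
    rw [mem_filter] at hw ⊢
    exact ⟨hw.1, hw.2.2⟩
  calc s ^ (n - h) * ((bad n b h).card : ℝ) = ∑ w ∈ bad n b h, s ^ (n - h) := by
        rw [sum_const, nsmul_eq_mul, mul_comm]
    _ ≤ ∑ w ∈ bad n b h, s ^ (n - span n w) := by
        refine sum_le_sum fun w hw => ?_
        unfold bad at hw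
        rw [mem_filter] at hw
        have h1 : h ≤ span n w := by
          rcases hw.2.1 with h2 | h2
          · exact h2.2.ge
          · exact h2.2
        exact pow_le_pow_of_le_one hs.le hs1 (by omega)
    _ ≤ _ := sum_le_sum_of_subset_of_nonneg hsub (fun w _ _ => by positivity)

end SRGM

open SRGM in
theorem t_SRG (hB : BDB_Stmt) (hC : NSP.CLSZ_Stmt) (hZ : ZB_Stmt) : SRG_Stmt := by
  classical
  intro s h hreg b
  obtain ⟨-, hB2, -, K, hB4⟩ := hB
  obtain ⟨C, θ, hC0, hθ0, hθ1, N, hZB⟩ := hZ (1 / 4) (by norm_num) (by norm_num)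
  obtain ⟨⟨c, hc, hcl⟩, -⟩ := hC s h hreg b
  set D : ℝ := max 2 (max C (1 / (1 - θ))) with hD
  have hD2 : 2 ≤ D := le_max_left _ _
  have hCD : C ≤ D := (le_max_left _ _).trans (le_max_right _ _)
  have hθD : θ ≤ 1 - D⁻¹ := by
    have h1 : 1 / (1 - θ) ≤ D := (le_max_right _ _).trans (le_max_right _ _)
    have h2 : 0 < 1 - θ := by linarith
    have h3 : D⁻¹ ≤ 1 - θ := by
      rw [one_div] at h1
      exact inv_le_of_inv_le₀ h2 h1
    linarith
  have hD0 : 0 < D := by linarith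
  have hDK : 0 < D ^ K := by positivity
  set κ : ℝ := min (1 / (4 * D ^ K)) (1 / D) with hκ
  have hκ0 : 0 < κ := lt_min (by positivity) (by positivity)
  have hκ1 : κ ≤ 1 / (4 * D ^ K) := min_le_left _ _
  have hκ2 : κ ≤ 1 / D := min_le_right _ _
  refine squeeze_zero' (Eventually.of_forall fun n => ?_) ?_
    (lim0 (K + 1) (κ / 2) (D ^ K * 2 * C / (4 * c)) (by positivity))
  · split_ifs
    · unfold bq
      positivity
    · exact le_rfl
  · have hs4 : ∀ᶠ n : ℕ in atTop, s n ≤ 1 / 4 :=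
      (hreg.lim.eventually_lt_const (by norm_num : (0 : ℝ) < 1 / 4)).mono fun n hn => hn.le
    filter_upwards [hcl, hs4, eventually_ge_atTop N, eventually_ge_atTop 1,
      sqrt_small (κ / 2) (by positivity), hreg.ge] with n h1 h2 h3 h4 h5 h6
    split_ifs with hif
    · have hs0 := hreg.pos n
      have hs1 : s n ≤ 1 := by linarith
      obtain ⟨ρ, ⟨hρ0, hρ1⟩, hT, -, -, hZl, -⟩ := hZB n h3 (s n) hs0 h2
      have hT' : Tails D (1 - D⁻¹) n (s n) ρ := tails_mono hT hCD hC0.le hθ0.le hθD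
      have hn0 : (0 : ℝ) < n := by exact_mod_cast h4
      have e1 := hB4 D hD2 n (s n) ρ h4 hs0 hs1 hρ0 hρ1 hT' (h n)
      have e2 := bad_le n b (h n) (s n) hs0 hs1
      have hρn : 0 < ρ ^ n := by positivity
      have hsn : 0 < s n ^ (n - h n) := by positivity
      -- upper bound
      have e3 : (ρ ^ n * s n ^ (n - h n)) * ((bad n b (h n)).card : ℝ) ≤
          D ^ K * (n : ℝ) ^ K * (2 * Real.exp (-(κ * n))) := by
        calc (ρ ^ n * s n ^ (n - h n)) * ((bad n b (h n)).card : ℝ) =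
            ρ ^ n * (s n ^ (n - h n) * ((bad n b (h n)).card : ℝ)) := by ring
          _ ≤ ρ ^ n * ∑ w ∈ (SAP n).filter (fun w => h n ≤ lspan n w),
              (s n) ^ (n - span n w) := mul_le_mul_of_nonneg_left e2 hρn.le
          _ ≤ _ := e1
          _ ≤ _ := mul_le_mul_of_nonneg_left (expo hD2 K n (h n) h4 hif κ hκ1 hκ2)
              (by positivity)
      -- lower bound
      have e4 : 4 * c / (C * n) ≤ (ρ ^ n * s n ^ (n - h n)) * ((cls n b (h n)).card : ℝ) := by
        have f1 := hB2 n b (h n) h4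
        have f2 : (4 * n * ((Omn n).filter (fun q => inC b (h n) (sp q))).card : ℝ) ≤
            ((cls n b (h n)).card : ℝ) := by
          have : 4 * n * ((Omn n).filter (fun q => inC b (h n) (sp q))).card ≤
              (cls n b (h n)).card := by
            convert f1 using 3
          exact_mod_cast this
        have f3 : Real.sqrt (s n * n) ≤ Real.sqrt n := by
          apply Real.sqrt_le_sqrt
          nlinarith
        have f4 : 0 < Real.sqrt (s n * n) := Real.sqrt_pos.2 (by positivity)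
        have f5 : 0 < Real.sqrt n := Real.sqrt_pos.2 hn0
        have f7 : 0 < sc n := by
          unfold sc
          positivity
        have f10 : 0 ≤ C⁻¹ / sc n := by positivity
        have f6 : (C : ℝ)⁻¹ / sc n ≤ ρ ^ n * Zq n (s n) := by
          rw [div_le_iff₀ f7]
          calc C⁻¹ ≤ sc n * ρ ^ n * Zq n (s n) := hZl
            _ = ρ ^ n * Zq n (s n) * sc n := by ring
        calc 4 * c / (C * n) = 4 * n * (c / Real.sqrt n * (C⁻¹ / sc n)) := by
              unfold sc
              have f8 : Real.sqrt n * Real.sqrt n = n := Real.mul_self_sqrt hn0.le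
              have f9 : c / Real.sqrt n * (C⁻¹ / (n * Real.sqrt n)) =
                  c * C⁻¹ / (n * (Real.sqrt n * Real.sqrt n)) := by
                field_simp
              rw [f9, f8]
              field_simp
          _ ≤ 4 * n * (c / Real.sqrt (s n * n) * (ρ ^ n * Zq n (s n))) := by
              gcongr
          _ = 4 * n * (ρ ^ n * (c / Real.sqrt (s n * n) * Zq n (s n))) := by ring
          _ ≤ 4 * n * (ρ ^ n * (s n ^ (n - h n) *
                ((Omn n).filter (fun q => inC b (h n) (sp q))).card)) := by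
              gcongr
          _ = (ρ ^ n * s n ^ (n - h n)) *
                (4 * n * ((Omn n).filter (fun q => inC b (h n) (sp q))).card) := by ring
          _ ≤ _ := mul_le_mul_of_nonneg_left f2 (by positivity)
      have e5 := quot (mul_pos hρn hsn) (Nat.cast_nonneg (bad n b (h n)).card) e3 e4
        (by positivity)
      unfold bq
      calc Real.exp (Real.sqrt n) * ((bad n b (h n)).card : ℝ) / ((cls n b (h n)).card : ℝ) =
          Real.exp (Real.sqrt n) * (((bad n b (h n)).card : ℝ) / ((cls n b (h n)).card : ℝ)) := by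
            ring
        _ ≤ Real.exp (κ / 2 * n) * (D ^ K * (n : ℝ) ^ K * (2 * Real.exp (-(κ * n))) /
              (4 * c / (C * n))) := by
            gcongr
        _ = D ^ K * 2 * C / (4 * c) * ((n : ℝ) ^ (K + 1) *
              (Real.exp (κ / 2 * n) * Real.exp (-(κ * n)))) := by
            rw [pow_succ]
            field_simp
        _ = D ^ K * 2 * C / (4 * c) * ((n : ℝ) ^ (K + 1) / Real.exp (κ / 2 * n)) := by
            rw [← Real.exp_add, div_eq_mul_inv ((n : ℝ) ^ (K + 1)), ← Real.exp_neg]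
            congr 3
            ring
    · positivity

end Pool.Agent.DIA
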