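import Pool.Agent.DIA.MainL
import Pool.Agent.DIA.MainPre
import Pool.Agent.DIA.SRG
import Pool.Agent.DIA.SLD
import Pool.Agent.DIA.SAL
import Pool.Agent.DIA.CER
import Pool.Agent.NSP.Main

/-!
# Project DIA: the theorem for prescribed span or diameter
-/

set_option autoImplicit false

namespace Pool.Agent.DIA

open Finset Filter Topology MeasureTheory
open Pool.Agent.Lib27 Pool.Agent.SapR Pool.Agent.Gap Pool.Agent.AreaLaw Pool.Agent.FL
open Pool.Agent.FS

theorem m_SRG : SRG_Stmt := t_SRG m_BDB NSP.m_CLSZ zb_main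

theorem m_SLD : SLD_Stmt :=
  t_SLD m_BDB (CLS_thm eq_main loc_main arm_main zb_main) zb_main CHOICE_thm SUBB.pol

theorem m_SAL : SAL_Stmt := t_SAL m_SRG m_SLD NSP.m_CHOZ NSP.m_EQZ NSP.m_BDZ NSP.t_DIAGM

/-- The area law of self-avoiding polygons with prescribed span or diameter. -/
theorem mainC : FINC := finC NSP.main m_SAL (t_CER t_DMX t_RFL) m_TRW

end Pool.Agent.DIA
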