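import Pool.Agent.DIA.Stmts

/-!
# Project DIA: assembly, force
-/

set_option autoImplicit false

namespace Pool.Agent.DIA

open Finset Filter Topology MeasureTheory
open Pool.Agent.Lib27 Pool.Agent.SapR Pool.Agent.Gap Pool.Agent.AreaLaw Pool.Agent.FL
open Pool.Agent.FS
open Pool.Agent.KCS (airyMoment)

/-- the final theorem for a force acting on the span or on the diameter -/
def FINF : Prop := ∃ μ : Measure ℝ, IsProbabilityMeasure μ ∧
  (∀ r : ℕ, Integrable (fun x : ℝ => x ^ r) μ ∧ ∫ x, x ^ r ∂μ = airyMoment r) ∧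
  (∀ x : ℝ, μ {x} = 0 →
    Tendsto (fun n : ℕ => areaCdf n (Staircase n) x) atTop (𝓝 (μ (Set.Iic x)).toReal)) ∧
  ∀ f : ℕ → ℝ, Tendsto (fun n : ℕ => f n * Real.log n) atTop atTop →
    (∀ x : ℝ, μ {x} = 0 →
      Tendsto (fun n : ℕ => forceCdf (f n) n x) atTop (𝓝 (μ (Set.Iic x)).toReal) ∧
      Tendsto (fun n : ℕ => diamCdf (f n) n x) atTop (𝓝 (μ (Set.Iic x)).toReal)) ∧
    ∀ r : ℕ, Tendsto (fun n : ℕ => forceMoment (f n) n r) atTop (𝓝 (airyMoment r)) ∧
      Tendsto (fun n : ℕ => diamMoment (f n) n r) atTop (𝓝 (airyMoment r))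

theorem finF (hE : EXW.FINAL3_Stmt) (hF : FER_Stmt) (hT : TRW_Stmt) : FINF := by
  obtain ⟨μ, hμ, hmom, hst, hforce⟩ := hE
  refine ⟨μ, hμ, hmom, hst, fun f hf => ?_⟩
  obtain ⟨h1, h2⟩ := hforce f hf
  have hpos : ∀ᶠ n : ℕ in atTop, 0 < wZ n (fun s => Real.exp (f n * span n s)) := by
    have h0 := h2 0
    have e0 : airyMoment 0 = 1 := by
      have := (hmom 0).2
      simp at this
      exact this.symm
    rw [e0] at h0
    have h3 : ∀ᶠ n : ℕ in atTop, forceMoment (f n) n 0 ≠ 0 :=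
      h0.eventually_ne one_ne_zero
    filter_upwards [h3] with n hn
    refine lt_of_le_of_ne (Finset.sum_nonneg fun s _ => (Real.exp_pos _).le) ?_
    intro hz
    apply hn
    have hz' : forceZ (f n) n = 0 := hz.symm
    unfold forceMoment
    rw [hz', div_zero, zero_div]
  have key := hT μ hμ (fun n s => Real.exp (f n * span n s)) (fun n s => Real.exp (f n * diam n s))
    (fun n s => (Real.exp_pos _).le) (fun n s => (Real.exp_pos _).le) hpos (hF f hf)
  refine ⟨fun x hx => ⟨h1 x hx, ?_⟩, fun r => ⟨h2 r, ?_⟩⟩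
  · exact key.1 (fun x hx => h1 x hx) x hx
  · exact key.2 r _ (h2 r)

end Pool.Agent.DIA
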