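import Pool.Agent.DIA.Stmts
import Pool.Agent.EXW.ROOM
import Pool.Agent.Lib_helper27.Growth

/-!
# Project DIA, module SPB: the weight of all polygons at the critical weight
-/

set_option autoImplicit false

namespace Pool.Agent.DIA

open Finset Filter Topology MeasureTheory
open Pool.Agent.Lib27 Pool.Agent.SapR Pool.Agent.Gap Pool.Agent.AreaLaw Pool.Agent.FL
open Pool.Agent.FS
open Pool.Agent.EXW (Mf)
open scoped NNReal ENNReal

namespace SPBx

lemma dv_opp (d : Fin 4) : dv (d + 2) + dv d = 0 := by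
  fin_cases d <;> rfl

/-- a self-avoiding word has no immediate reversal -/
lemma Cs_three (N : ℕ) : (Cs (N + 2)).card ≤ 3 * (Cs (N + 1)).card := by
  classical
  have h1 : ((Cs (N + 2)).image List.tail) ⊆ Cs (N + 1) := by
    intro b hb
    obtain ⟨a, ha, rfl⟩ := mem_image.1 hb
    rw [mem_Cs] at ha ⊢
    obtain ⟨hl, hs⟩ := ha
    cases a with
    | nil => simp at hl
    | cons d t =>
      refine ⟨by simpa using hl, ?_⟩
      exact (SAWs_append [d] t hs).2
  have h2 := Finset.card_le_mul_card_image (s := Cs (N + 2)) (f := List.tail) 3 (fun b hb => by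
    have hb' := h1 hb
    rw [mem_Cs] at hb'
    obtain ⟨hl, -⟩ := hb'
    cases b with
    | nil => simp at hl
    | cons d t =>
      have h3 : (Cs (N + 2)).filter (fun a => a.tail = d :: t) ⊆
          (univ.erase (d + 2)).image (fun e => e :: d :: t) := by
        intro a ha
        rw [mem_filter, mem_Cs] at ha
        obtain ⟨⟨hl, hs⟩, ht⟩ := ha
        cases a with
        | nil => simp at hl
        | cons e u =>
          simp only [List.tail_cons] at ht
          subst ht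
          rw [mem_image]
          refine ⟨e, ?_, rfl⟩
          rw [mem_erase]
          refine ⟨?_, mem_univ _⟩
          rintro rfl
          unfold SAWs at hs
          rw [vt_cons, vt_cons, List.nodup_cons] at hs
          apply hs.1
          rw [zero_add, dv_opp]
          apply List.mem_cons_of_mem
          exact mem_vt_self _ _
      refine (card_le_card h3).trans (card_image_le.trans ?_)
      rw [card_erase_of_mem (mem_univ _), card_univ, Fintype.card_fin])
  exact h2.trans (Nat.mul_le_mul_left 3 (card_le_card h1))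

lemma Cs_le_three (N : ℕ) : (Cs (N + 1)).card ≤ 4 * 3 ^ N := by
  induction N with
  | zero => simpa using Cs_le 1
  | succ N ih =>
    calc (Cs (N + 1 + 1)).card ≤ 3 * (Cs (N + 1)).card := Cs_three N
      _ ≤ 3 * (4 * 3 ^ N) := Nat.mul_le_mul_left 3 ih
      _ = 4 * 3 ^ (N + 1) := by ring

/-- the case of a large force -/
lemma big {f ρ D : ℝ} {n L : ℕ} (hf : 1 ≤ f) (hn : 1 ≤ n) (hD : 100 ≤ D)
    (hL : (L : ℝ) * D ≤ n) (hρ0 : 0 < ρ) (hρ : ρ ≤ 1 / 4) :
    ((SAP n).card : ℝ) * (ρ * Real.exp (-f)) ^ n * Real.exp (f * L) ≤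
      D * Real.exp (-(n / D)) := by
  obtain ⟨k, rfl⟩ : ∃ k, n = k + 1 := ⟨n - 1, by omega⟩
  have h1 : ((SAP (k + 1)).card : ℝ) ≤ 2 * 9 ^ (k + 1) := by
    have h2 := W_le_Cs (k + 1) hn
    rw [← card_SAP, show 2 * (k + 1) - 1 = 2 * k + 1 by omega] at h2
    have h3 := Cs_le_three (2 * k)
    have h4 : (SAP (k + 1)).card ≤ 4 * (4 * 3 ^ (2 * k)) := h2.trans (Nat.mul_le_mul_left 4 h3)
    have h5 : ((SAP (k + 1)).card : ℝ) ≤ 4 * (4 * 3 ^ (2 * k)) := by exact_mod_cast h4
    have h6 : (3 : ℝ) ^ (2 * k) = 9 ^ k := by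
      rw [pow_mul]
      norm_num
    rw [h6] at h5
    have h7 : (0 : ℝ) < 9 ^ k := by positivity
    rw [pow_succ]
    linarith
  have h2 : (ρ * Real.exp (-f)) ^ (k + 1) ≤
      (1 / 4) ^ (k + 1) * Real.exp (-f * ((k + 1 : ℕ) : ℝ)) := by
    rw [mul_pow, ← Real.exp_nat_mul, mul_comm (((k + 1 : ℕ) : ℝ)) (-f)]
    gcongr
  have h3 : ((9 : ℝ) / 4) ^ (k + 1) ≤ Real.exp (((k + 1 : ℕ) : ℝ) * (9 / 10)) := by
    rw [Real.exp_nat_mul]
    apply pow_le_pow_left₀ (by norm_num)
    have := Real.quadratic_le_exp_of_nonneg (x := 9 / 10) (by norm_num)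
    linarith
  have hn0 : (0 : ℝ) < ((k + 1 : ℕ) : ℝ) := by positivity
  have hD0 : 0 < D := by linarith
  set N : ℝ := ((k + 1 : ℕ) : ℝ) with hN
  have hLN : (L : ℝ) ≤ N / D := by
    rw [le_div_iff₀ hD0]
    exact hL
  have hND : N / D ≤ N / 100 := by
    apply div_le_div_of_nonneg_left hn0.le (by norm_num) hD
  calc ((SAP (k + 1)).card : ℝ) * (ρ * Real.exp (-f)) ^ (k + 1) * Real.exp (f * L)
      ≤ (2 * 9 ^ (k + 1)) * ((1 / 4) ^ (k + 1) * Real.exp (-f * N)) * Real.exp (f * L) := by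
        gcongr
    _ = 2 * ((9 : ℝ) / 4) ^ (k + 1) * (Real.exp (-f * N) * Real.exp (f * L)) := by
        rw [div_pow, div_pow, one_pow]
        ring
    _ ≤ 2 * Real.exp (N * (9 / 10)) * (Real.exp (-f * N) * Real.exp (f * L)) := by
        gcongr
    _ = 2 * Real.exp (N * (9 / 10) + (-f * N + f * L)) := by
        rw [Real.exp_add, Real.exp_add]
        ring
    _ ≤ D * Real.exp (-(N / D)) := by
        have h4 : N * (9 / 10) + (-f * N + f * L) ≤ -(N / D) := by
          have h5 : f * (N - L) ≥ 1 * (N - L) :=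
            mul_le_mul_of_nonneg_right hf (by linarith)
          linarith
        have h6 := Real.exp_le_exp.2 h4
        have h7 := Real.exp_pos (-(N / D))
        nlinarith [Real.exp_pos (N * (9 / 10) + (-f * N + f * L))]

/-- the number of self-avoiding words of length `m` and the susceptibility -/
lemma Cs_chi {y X : ℝ} (hy : 0 ≤ y) (hX : 0 ≤ X)
    (h : FL.chi y.toNNReal ≤ ENNReal.ofReal X) (m : ℕ) : ((Cs m).card : ℝ) * y ^ m ≤ X := by
  have h1 := MG.chi_lower ((y.toNNReal : ℝ≥0) : ℝ≥0∞) (m + 1)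
  have h2 : ((Cs m).card : ℝ≥0∞) * ((y.toNNReal : ℝ≥0) : ℝ≥0∞) ^ m ≤
      ∑ n ∈ range (m + 1), ((Cs n).card : ℝ≥0∞) * ((y.toNNReal : ℝ≥0) : ℝ≥0∞) ^ n :=
    Finset.single_le_sum (f := fun n : ℕ => ((Cs n).card : ℝ≥0∞) *
      ((y.toNNReal : ℝ≥0) : ℝ≥0∞) ^ n) (fun i _ => zero_le) (self_mem_range_succ m)
  have h3 : ((Cs m).card : ℝ≥0∞) * ((y.toNNReal : ℝ≥0) : ℝ≥0∞) ^ m =
      ENNReal.ofReal ((Cs m).card * y ^ m) := by
    rw [ENNReal.ofReal_mul (by positivity), ENNReal.ofReal_pow hy, ENNReal.ofReal_natCast]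
    rfl
  have h4 := h2.trans (h1.trans h)
  rw [h3] at h4
  exact (ENNReal.ofReal_le_ofReal_iff hX).1 h4

/-- polygons at the weight `r` -/
lemma poly {x y X δ r : ℝ} {n : ℕ} (hn : 1 ≤ n) (hx : 0 < x) (hδ : 0 < δ) (hδ1 : δ ≤ 1 / 2)
    (hX : 0 ≤ X) (h : FL.chi y.toNNReal ≤ ENNReal.ofReal X) (hr0 : 0 ≤ r)
    (hr : r ≤ (1 + δ) ^ 2 * x ^ 2) (hy : x * (1 + 4 * δ) ≤ y) :
    ((SAP n).card : ℝ) * r ^ n ≤ 4 * X ^ 2 * Real.exp (-(2 * δ * n)) := by
  have hy0 : 0 < y := lt_of_lt_of_le (by positivity) hy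
  have h1 : ((SAP n).card : ℝ) ≤ 4 * (Cs (2 * n - 1)).card := by
    have := W_le_Cs n hn
    rw [← card_SAP] at this
    exact_mod_cast this
  have h2 := Cs_chi hy0.le hX h (2 * n - 1)
  have h3 : y ≤ X := by
    have h4 := Cs_chi hy0.le hX h 1
    have h5 : (1 : ℝ) ≤ (Cs 1).card := by exact_mod_cast Cs_pos 1
    rw [pow_one] at h4
    nlinarith
  have h4 : r ^ n ≤ y ^ (2 * n - 1) * y * Real.exp (-(2 * δ * n)) := by
    have h5 : (1 + δ) * x ≤ y * Real.exp (-δ) := by
      have h6 : 1 - δ ≤ Real.exp (-δ) := by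
        have := Real.add_one_le_exp (-δ)
        linarith
      have h7 : 0 ≤ x * (δ * (1 - 2 * δ)) :=
        mul_nonneg hx.le (mul_nonneg hδ.le (by linarith))
      calc (1 + δ) * x ≤ x * (1 + 4 * δ) * (1 - δ) := by nlinarith
        _ ≤ y * (1 - δ) := mul_le_mul_of_nonneg_right hy (by linarith)
        _ ≤ y * Real.exp (-δ) := mul_le_mul_of_nonneg_left h6 hy0.le
    calc r ^ n ≤ ((1 + δ) ^ 2 * x ^ 2) ^ n := pow_le_pow_left₀ hr0 hr n
      _ = ((1 + δ) * x) ^ (2 * n) := by rw [← mul_pow, ← pow_mul]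
      _ ≤ (y * Real.exp (-δ)) ^ (2 * n) := pow_le_pow_left₀ (by positivity) h5 _
      _ = y ^ (2 * n - 1) * y * Real.exp (-(2 * δ * n)) := by
        rw [mul_pow, ← Real.exp_nat_mul, ← pow_succ, Nat.sub_add_cancel (by omega)]
        congr 2
        push_cast
        ring
  calc ((SAP n).card : ℝ) * r ^ n
      ≤ (4 * (Cs (2 * n - 1)).card) * (y ^ (2 * n - 1) * y * Real.exp (-(2 * δ * n))) := by
        gcongr
    _ = 4 * ((Cs (2 * n - 1)).card * y ^ (2 * n - 1)) * y * Real.exp (-(2 * δ * n)) := by ring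
    _ ≤ 4 * X * X * Real.exp (-(2 * δ * n)) := by gcongr
    _ = _ := by ring

end SPBx

open SPBx EXW.RoomX in
theorem t_SPB (hMC : EXW.MC_Stmt) (hMN : EXW.MN_Stmt) (h1 : MGI1_Stmt) (h2 : MGI2_Stmt) :
    SPB_Stmt := by
  obtain ⟨A0, hA0, hC⟩ := hMC
  obtain ⟨A1, hA1, hN⟩ := hMN
  refine ⟨2 * A0 + 2 * A1 + 16, by linarith, fun f n L ρ hf hn hL hρ hF => ?_⟩
  have hM0 : 0 < Mf (2 * A0 + 2 * A1 + 16) f := Real.exp_pos _
  have hn1 : 1 ≤ n := by
    have : (0 : ℝ) < n := hM0.trans_le hn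
    exact_mod_cast this
  rcases le_or_gt 1 f with hf1 | hf1
  · have hD : 100 ≤ Mf (2 * A0 + 2 * A1 + 16) f := by
      unfold Mf
      rw [min_eq_right hf1, div_one]
      have h3 := Real.quadratic_le_exp_of_nonneg (x := 2 * A0 + 2 * A1 + 16) (by linarith)
      nlinarith
    refine big hf1 hn1 hD hL hρ ?_
    refine (h2.2 n (Real.exp (-f)) ρ hn1 (Real.exp_pos _) ?_ hρ hF).2
    rw [← Real.exp_zero]
    exact Real.exp_le_exp.2 (by linarith)
  · have hf1' : f ≤ 1 := hf1.le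
    obtain ⟨x, hx, hroom⟩ := hC f hf hf1'
    obtain ⟨x', e, C0, hx'0, he, he1, hC0, hone', hB⟩ := hN f hf hf1'
    have hM : Mf (2 * A0 + 2 * A1 + 16) f = Real.exp ((2 * A0 + 2 * A1 + 16) / f) := by
      unfold Mf
      rw [min_eq_left hf1']
    rw [hM] at hn hL hM0 ⊢
    set D : ℝ := Real.exp ((2 * A0 + 2 * A1 + 16) / f) with hD
    have hone : (1 : ℝ) ≤ 1 / f := by
      rw [le_div_iff₀ hf]
      linarith
    have hn0 : (0 : ℝ) < n := hM0.trans_le hn
    set s : ℝ≥0 := (Real.exp (-f)).toNNReal with hs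
    have hsr : (s : ℝ) = Real.exp (-f) := Real.coe_toNNReal _ (Real.exp_pos _).le
    have hs0 : 0 < s := Real.toNNReal_pos.2 (Real.exp_pos _)
    have hqs : ((s⁻¹ : ℝ≥0) : ℝ≥0∞) = (ENNReal.ofReal (Real.exp (-(f / 2))))⁻¹ ^ 2 := by
      rw [ENNReal.coe_inv hs0.ne', ← ENNReal.inv_pow, ← ENNReal.ofReal_pow (Real.exp_pos _).le,
        ← Real.exp_nat_mul]
      congr 2
      show (Real.exp (-f)).toNNReal = (Real.exp (((2 : ℕ) : ℝ) * -(f / 2))).toNNReal
      congr 2
      push_cast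
      ring
    have hxx : x' ≤ x.toNNReal :=
      uniq ((s⁻¹ : ℝ≥0) : ℝ≥0∞) x.toNNReal x' (Real.toNNReal_pos.2 hx.x_pos)
        (MG.free_one hx.crE hqs) hone'
    have hxr : (x' : ℝ) ≤ x := by
      have h3 : ((x.toNNReal : ℝ≥0) : ℝ) = x := Real.coe_toNNReal _ hx.x_pos.le
      rw [← h3]
      exact_mod_cast hxx
    obtain ⟨y, hxy, hUp, hchi⟩ := hroom (f / 4) (by positivity) le_rfl
    set δ : ℝ := f / 16 * Real.exp (-(A0 / f)) with hδ
    have hδ0 : 0 < δ := by positivity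
    have hexp1 : Real.exp (-(A0 / f)) ≤ 1 := by
      rw [← Real.exp_zero]
      apply Real.exp_le_exp.2
      have : 0 ≤ A0 / f := by positivity
      linarith
    have hδ1 : δ ≤ 1 / 4 := by
      rw [hδ]
      calc f / 16 * Real.exp (-(A0 / f)) ≤ (1 / 4) * 1 := by
            gcongr
            linarith
        _ = 1 / 4 := by norm_num
    -- `exp (-(A0 + 16) / f) ≤ δ`
    have hδlow : Real.exp (-((A0 + 16) / f)) ≤ δ := by
      have h3 : 16 / f ≤ Real.exp (16 / f) := by
        have := Real.add_one_le_exp (16 / f)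
        linarith
      have h4 : Real.exp (-(16 / f)) ≤ f / 16 := by
        rw [Real.exp_neg]
        have h5 : (0 : ℝ) < 16 / f := by positivity
        have h6 := inv_anti₀ h5 h3
        rwa [inv_div] at h6
      rw [hδ, show -((A0 + 16) / f) = -(16 / f) + -(A0 / f) by ring, Real.exp_add]
      exact mul_le_mul_of_nonneg_right h4 (Real.exp_pos _).le
    have hA0f : 0 ≤ A0 / f := by positivity
    have hA1f : 0 ≤ A1 / f := by positivity
    have hDδ : D⁻¹ ≤ δ := by
      refine le_trans ?_ hδlow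
      rw [hD, ← Real.exp_neg]
      apply Real.exp_le_exp.2
      have h3 : (2 * A0 + 2 * A1 + 16) / f = (A0 + 16) / f + (A0 / f + 2 * (A1 / f)) := by ring
      linarith
    have he0 : (0 : ℝ) < e := lt_of_lt_of_le (Real.exp_pos _) he
    set τ : ℝ := C0 * (((1 + (e : ℝ)) ^ 2)⁻¹) ^ (n + 1) with hτ
    have hτ0 : 0 ≤ τ := by positivity
    have hτδ : τ ≤ δ := by
      have h3 : 2 * (n : ℝ) * e ≤ ((1 + (e : ℝ)) ^ 2) ^ (n + 1) := by
        have h4 := one_add_mul_le_pow (a := (e : ℝ)) (by linarith) (2 * (n + 1))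
        rw [← pow_mul]
        push_cast at h4 ⊢
        nlinarith
      have h5 : 0 < 2 * (n : ℝ) * e := by positivity
      have h6 : τ ≤ C0 / (2 * n * e) := by
        rw [hτ, inv_pow, div_eq_mul_inv]
        exact mul_le_mul_of_nonneg_left (inv_anti₀ h5 h3) C0.2
      have h7 : (C0 : ℝ) / (2 * n * e) ≤ Real.exp (A1 / f) / (2 * n * Real.exp (-(A1 / f))) := by
        gcongr
      have h8 : Real.exp (A1 / f) / (2 * n * Real.exp (-(A1 / f))) ≤
          Real.exp (-((A0 + 16) / f)) := by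
        rw [div_le_iff₀ (by positivity)]
        have h9 : Real.exp (A1 / f) = Real.exp (-((A0 + 16) / f)) *
            Real.exp (-(A1 / f)) * Real.exp ((A0 + 2 * A1 + 16) / f) := by
          rw [← Real.exp_add, ← Real.exp_add]
          congr 1
          ring
        have h10 : Real.exp ((A0 + 2 * A1 + 16) / f) ≤ n := by
          refine le_trans ?_ hn
          rw [hD]
          apply Real.exp_le_exp.2
          gcongr
          linarith
        rw [h9]
        calc Real.exp (-((A0 + 16) / f)) * Real.exp (-(A1 / f)) *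
              Real.exp ((A0 + 2 * A1 + 16) / f)
            ≤ Real.exp (-((A0 + 16) / f)) * Real.exp (-(A1 / f)) * n := by gcongr
          _ ≤ Real.exp (-((A0 + 16) / f)) * (2 * n * Real.exp (-(A1 / f))) := by
            have : 0 ≤ Real.exp (-((A0 + 16) / f)) * Real.exp (-(A1 / f)) * n := by positivity
            nlinarith
      exact h6.trans (h7.trans (h8.trans hδlow))
    have ht : 1 ≤ (1 + δ) ^ 2 * (1 - τ) := by
      have h3 : (1 + δ) ^ 2 * (1 - δ) ≤ (1 + δ) ^ 2 * (1 - τ) :=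
        mul_le_mul_of_nonneg_left (by linarith) (by positivity)
      nlinarith [mul_nonneg hδ0.le hδ0.le]
    have hrho := ratio n s ((x' : ℝ) ^ 2 / s) ρ τ (1 + δ) hs0 (by positivity) hρ ht hτ0
      (by linarith) (low h1 s x' e C0 hs0 hx'0 (by exact_mod_cast he0) hone' hB n)
      (by rw [hsr]; exact hF)
    have hrs : ρ * Real.exp (-f) ≤ (1 + δ) ^ 2 * x ^ 2 := by
      rw [← hsr]
      have h3 := mul_le_mul_of_nonneg_right hrho (show (0 : ℝ) ≤ s from s.2)
      have h4 : (1 + δ) ^ 2 * ((x' : ℝ) ^ 2 / s) * s = (1 + δ) ^ 2 * (x' : ℝ) ^ 2 := by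
        have : (s : ℝ) ≠ 0 := by
          rw [hsr]
          exact (Real.exp_pos _).ne'
        field_simp
      rw [h4] at h3
      refine h3.trans ?_
      gcongr
    have hy4 : x * (1 + 4 * δ) ≤ y := by
      have h3 : 4 * δ = f / 4 * Real.exp (-(A0 / f)) := by
        rw [hδ]
        ring
      rw [h3]
      exact hxy
    have hp := poly hn1 hx.x_pos hδ0 (by linarith) (Real.exp_pos _).le hchi
      (by positivity : 0 ≤ ρ * Real.exp (-f)) hrs hy4
    have hX : 4 * Real.exp (A0 / f) ^ 2 ≤ D := by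
      have h3 : (4 : ℝ) ≤ Real.exp 2 := by
        have := Real.quadratic_le_exp_of_nonneg (x := 2) (by norm_num)
        linarith
      rw [← Real.exp_nat_mul]
      calc 4 * Real.exp (((2 : ℕ) : ℝ) * (A0 / f))
          ≤ Real.exp 2 * Real.exp (((2 : ℕ) : ℝ) * (A0 / f)) := by gcongr
        _ = Real.exp (2 + ((2 : ℕ) : ℝ) * (A0 / f)) := by rw [← Real.exp_add]
        _ ≤ D := by
          rw [hD]
          apply Real.exp_le_exp.2
          have h4 : (2 * A0 + 2 * A1 + 16) / f =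
            2 * (A0 / f) + (2 * (A1 / f) + 16 * (1 / f)) := by ring
          rw [h4]
          push_cast
          linarith
    have hLn : (L : ℝ) ≤ n * D⁻¹ := by
      rw [← div_eq_mul_inv, le_div_iff₀ hM0]
      exact hL
    have hfL : f * L ≤ n * D⁻¹ := by
      have h3 : f * (L : ℝ) ≤ 1 * L := mul_le_mul_of_nonneg_right hf1' (by positivity)
      linarith
    calc ((SAP n).card : ℝ) * (ρ * Real.exp (-f)) ^ n * Real.exp (f * L)
        ≤ (4 * Real.exp (A0 / f) ^ 2 * Real.exp (-(2 * δ * n))) * Real.exp (n * D⁻¹) := by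
          gcongr
      _ = 4 * Real.exp (A0 / f) ^ 2 * Real.exp (-(2 * δ * n) + n * D⁻¹) := by
          rw [Real.exp_add]
          ring
      _ ≤ D * Real.exp (-(n / D)) := by
          have h3 : -(2 * δ * n) + n * D⁻¹ ≤ -(n / D) := by
            rw [div_eq_mul_inv]
            have h4 : n * D⁻¹ ≤ n * δ := mul_le_mul_of_nonneg_left hDδ hn0.le
            linarith
          gcongr

end Pool.Agent.DIA
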