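import Pool.Agent.DIA.Stmts

/-!
# Project DIA, module ZBF: critical weight, tails and total weight under a vanishing force
-/

set_option autoImplicit false

namespace Pool.Agent.DIA

open Finset Filter Topology MeasureTheory
open Pool.Agent.Lib27 Pool.Agent.SapR Pool.Agent.Gap Pool.Agent.AreaLaw Pool.Agent.FL
open Pool.Agent.FS
open Pool.Agent.EXW (Mf Dat2 QRAT_Stmt Sc0 cls_mono clsCap_mono par_bounds)

namespace ZBF

lemma two_le_Mf (A f : ℝ) (hA : 1 ≤ A) (hf : 0 < f) : 2 ≤ Mf A f := by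
  unfold Mf
  have h0 : 0 < min f 1 := lt_min hf one_pos
  have h1 : 1 ≤ A / min f 1 := by
    rw [le_div_iff₀ h0, one_mul]
    exact (min_le_right _ _).trans hA
  have h2 := Real.add_one_le_exp (A / min f 1)
  linarith

/-- the bounds of a critical solution are monotone in the constant -/
lemma crit_mono {D D' : ℝ} (hD : 1 ≤ D) (h : D ≤ D') {G : GapKernel} {s v : ℤ → ℝ}
    (hs : CritSol D G s v) : CritSol D' G s v where
  zero := hs.zero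
  low g hg := (inv_anti₀ (by linarith) h).trans (hs.low g hg)
  up g := (hs.up g).trans h
  energy N := (hs.energy N).trans h
  eq := hs.eq

/-- the scale of the staircase model -/
lemma near {D : ℝ} (hD : 2 ≤ D) (G : GapKernel) (hG : Cls D (1 - D⁻¹) G) (n : ℕ) :
    |((⌊2 * G.sig2 * n / G.mbar⌋₊ : ℕ) : ℝ) * G.mbar - 2 * G.sig2 * n| ≤ G.mbar := by
  obtain ⟨Kp, hpar⟩ := par_bounds
  obtain ⟨p1, -, -, -, p5, -⟩ := hpar D hD G hG
  have hDp : 0 < D := by linarith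
  have hmb : 0 < G.mbar := by linarith
  have hsg : 0 < G.sig2 := lt_of_lt_of_le (inv_pos.2 hDp) p5
  obtain ⟨x, hx⟩ : ∃ x, x = 2 * G.sig2 * n / G.mbar := ⟨_, rfl⟩
  have hx0 : 0 ≤ x := by rw [hx]; positivity
  rw [← hx]
  have e : ((⌊x⌋₊ : ℕ) : ℝ) * G.mbar - 2 * G.sig2 * n = (((⌊x⌋₊ : ℕ) : ℝ) - x) * G.mbar := by
    rw [hx]; field_simp
  rw [e, abs_mul, abs_of_pos hmb]
  refine mul_le_of_le_one_left hmb.le ?_
  rw [abs_le]
  constructor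
  · have := Nat.lt_floor_add_one x
    linarith
  · have := Nat.floor_le hx0
    linarith

end ZBF

open ZBF in
theorem t_ZBF (hD : EXW.DAT2_Stmt) (hQ : EXW.QCS_Stmt) (hR : EXW.QRAT_Stmt)
    (hS : EXW.SLOW2_Stmt) : ZBF_Stmt := by
  obtain ⟨A, hA, N1, hN1, hDat⟩ := hD
  obtain ⟨K, hK⟩ := hQ A hA
  obtain ⟨K0, K1, hRat⟩ := hR
  refine ⟨A, hA, fun f hf => ?_⟩
  obtain ⟨h1, -, -⟩ := hS A 0 hA f hf
  refine ⟨(K + 1) * K1, ?_⟩
  filter_upwards [h1 1, h1 K, h1 ((K + 1) * (K0 + 2) * K0), eventually_ge_atTop N1]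
    with n hn1 hnK hnB hnN
  obtain ⟨hfn, hM⟩ := hn1
  rw [pow_one] at hM
  obtain ⟨d⟩ := hDat n (f n) hnN hfn hM
  obtain ⟨V, hV⟩ := hK n (f n) hfn hnK.2 d
  have hM2 : 2 ≤ Mf A (f n) := two_le_Mf A (f n) hA hfn
  have hM1 : 1 ≤ Mf A (f n) := by linarith
  obtain ⟨M, hMe⟩ : ∃ M, M = Mf A (f n) := ⟨_, rfl⟩
  refine ⟨hfn, d.G.rho, d.G.rho_pos, d.crit, d.tails, ?_⟩
  have hMD : Mf A (f n) ≤ Mf A (f n) ^ (K + 1) := le_self_pow₀ hM1 (by omega)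
  have hD2 : 2 ≤ Mf A (f n) ^ (K + 1) := hM2.trans hMD
  have hD1 : 1 ≤ Mf A (f n) ^ (K + 1) := by linarith
  have hcls : Cls (Mf A (f n) ^ (K + 1)) (1 - (Mf A (f n) ^ (K + 1))⁻¹) d.G :=
    cls_mono hM2 hMD d.cls
  have hcap : ClsCap (Mf A (f n) ^ (K + 1)) (1 - (Mf A (f n) ^ (K + 1))⁻¹) d.G (2 * n)
      (capW n (Real.exp (-f n))) := clsCap_mono hM2 hMD d.cap
  have hcrit : CritSol (Mf A (f n) ^ (K + 1)) d.G
      (GE.sr d.G.rho (2 * n) (capW n (Real.exp (-f n)))) V :=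
    crit_mono (one_le_pow₀ hM1) (pow_le_pow_right₀ hM1 (by omega)) hV
  have hW2 : 2 ≤ (Mf A (f n) ^ (K + 1)) ^ (K0 + 1) :=
    hD2.trans (le_self_pow₀ hD1 (by omega))
  have hSc : Sc0 K0 (Mf A (f n) ^ (K + 1)) ((Mf A (f n) ^ (K + 1)) ^ (K0 + 1)) d.G n
      ⌊2 * d.G.sig2 * n / d.G.mbar⌋₊ := by
    refine ⟨hD2, hW2, hcls, ?_, near hD2 d.G hcls n⟩
    have e : (Mf A (f n) ^ (K + 1) * (Mf A (f n) ^ (K + 1)) ^ (K0 + 1)) ^ K0 =
        Mf A (f n) ^ ((K + 1) * (K0 + 2) * K0) := by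
      have e1 : ∀ x : ℝ, x * x ^ (K0 + 1) = x ^ (K0 + 2) := fun x => by ring
      rw [e1, pow_mul, pow_mul]
    rw [e]
    exact hnB.2
  have h2 := (hRat (Mf A (f n) ^ (K + 1)) hD2 d.G hcls (2 * n) (capW n (Real.exp (-f n)))
    (capW n (Real.exp (-f n))) V V d.B hcap hcap hcrit hcrit d.sol
    ((Mf A (f n) ^ (K + 1)) ^ (K0 + 1)) n ⌊2 * d.G.sig2 * n / d.G.mbar⌋₊ hSc
    (pow_le_pow_right₀ hD1 (by omega))).1
  have h3 : Zq n (Real.exp (-f n)) =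
      (closeP (2 * n) (capW n (Real.exp (-f n))) d.B n).eval 1 := by
    rw [← d.count, Polynomial.eval_finsetSum]
    unfold Zq
    refine Finset.sum_congr rfl fun q _ => ?_
    simp
  rw [h3]
  unfold sc
  rw [pow_mul]
  exact h2

end Pool.Agent.DIA
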