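import Pool.Agent.DIA.MainL
import Pool.Agent.DIA.MainPreF
import Pool.Agent.DIA.SPB
import Pool.Agent.DIA.ZBF
import Pool.Agent.DIA.FER
import Pool.Agent.EXW.Main3

/-!
# Project DIA: the theorem for a force acting on the span or on the diameter
-/

set_option autoImplicit false

namespace Pool.Agent.DIA

open Finset Filter Topology MeasureTheory
open Pool.Agent.Lib27 Pool.Agent.SapR Pool.Agent.Gap Pool.Agent.AreaLaw Pool.Agent.FL
open Pool.Agent.FS

theorem m_SPB : SPB_Stmt := t_SPB EXW.m_MC EXW.m_MN H27.mgi1 mgi2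

theorem m_ZBF : ZBF_Stmt :=
  t_ZBF (EXW.t_DAT2 EXW.m_QMG mg_main mgi2 (EXW.t_KW2 hg)) EXW.m_QCS (EXW.m_QRAT EXW.m_QGW)
    EXW.t_SLOW2

theorem m_FER : FER_Stmt := t_FER m_ZBF m_SPB m_BDB t_DMX t_RFL EXW.t_SLOW2

/-- The area law of self-avoiding polygons under a vanishing force on the span or the diameter. -/
theorem mainF : FINF := finF EXW.main3 m_FER m_TRW

end Pool.Agent.DIA
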