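import Pool.Agent.DIA.Stmts

/-!
# Project DIA, module RFL: the reflection
-/

set_option autoImplicit false

namespace Pool.Agent.DIA

open Finset
open Pool.Agent.AreaLaw

namespace RFLm

theorem rf_rf : ∀ a : Fin 4, rf (rf a) = a := by decide

theorem step_rf : ∀ a : Fin 4, step (rf a) = ((step a).1, -(step a).2) := by decide

theorem fl_fl (n : ℕ) (s : Fin (2 * n) → Fin 4) : fl n (fl n s) = s := by
  funext i
  exact rf_rf (s i)

theorem pos_fl (n : ℕ) (s : Fin (2 * n) → Fin 4) (k : ℕ) :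
    pos n (fl n s) k = ((pos n s k).1, -(pos n s k).2) := by
  unfold pos fl
  apply Prod.ext
  · rw [Prod.fst_sum, Prod.fst_sum]
    exact Finset.sum_congr rfl fun i _ => by rw [step_rf]
  · change (∑ i ∈ Finset.univ.filter (fun i : Fin (2 * n) => i.val < k), step (rf (s i))).2 =
      -(∑ i ∈ Finset.univ.filter (fun i : Fin (2 * n) => i.val < k), step (s i)).2
    rw [Prod.snd_sum, Prod.snd_sum, ← Finset.sum_neg_distrib]
    exact Finset.sum_congr rfl fun i _ => by rw [step_rf]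

theorem mem_fl (n : ℕ) (s : Fin (2 * n) → Fin 4) (h : s ∈ SAP n) : fl n s ∈ SAP n := by
  unfold SAP at h ⊢
  rw [Finset.mem_filter] at h ⊢
  refine ⟨Finset.mem_univ _, ?_, fun j k hjk he => h.2.2 j k hjk ?_⟩
  · rw [pos_fl, h.2.1]
    rfl
  · rw [pos_fl, pos_fl, Prod.mk.injEq, neg_inj] at he
    exact Prod.ext he.1 he.2

theorem area_fl (n : ℕ) (s : Fin (2 * n) → Fin 4) : area n (fl n s) = area n s := by
  unfold area
  have h : ∑ k ∈ Finset.range (2 * n), ((pos n (fl n s) k).1 * (pos n (fl n s) (k + 1)).2 -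
      (pos n (fl n s) (k + 1)).1 * (pos n (fl n s) k).2) =
      -∑ k ∈ Finset.range (2 * n), ((pos n s k).1 * (pos n s (k + 1)).2 -
        (pos n s (k + 1)).1 * (pos n s k).2) := by
    rw [← Finset.sum_neg_distrib]
    refine Finset.sum_congr rfl fun k _ => ?_
    rw [pos_fl, pos_fl]
    ring
  rw [h, abs_neg]

theorem span_fl (n : ℕ) (s : Fin (2 * n) → Fin 4) : span n (fl n s) = lspan n s := by
  unfold span lspan
  refine Finset.sup_congr rfl fun k _ => ?_
  rw [pos_fl, pos_fl]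
  congr 1

theorem lspan_fl (n : ℕ) (s : Fin (2 * n) → Fin 4) : lspan n (fl n s) = span n s := by
  rw [← span_fl n (fl n s), fl_fl]

theorem diam_fl (n : ℕ) (s : Fin (2 * n) → Fin 4) : diam n (fl n s) = diam n s := by
  unfold diam
  refine Finset.sup_congr rfl fun k _ => ?_
  rw [pos_fl, pos_fl]
  have h : |(-(pos n s k.1).2) - (-(pos n s k.2).2)| = |(pos n s k.1).2 - (pos n s k.2).2| := by
    rw [← abs_neg]
    congr 1
    ring
  rw [h]

end RFLm

theorem t_RFL : RFL_Stmt := fun n s => ⟨RFLm.mem_fl n s, RFLm.fl_fl n s, RFLm.area_fl n s,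
  RFLm.span_fl n s, RFLm.lspan_fl n s, RFLm.diam_fl n s⟩

end Pool.Agent.DIA
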