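import Pool.Agent.DIA.Stmts
import Pool.Agent.Lib_helper89.FL.TR
import Pool.Agent.Lib_helper89.FL.K1H

/-!
# Project DIA (MP_f6626d_co): module TRG, frozen encoding with the lateral span
-/

set_option autoImplicit false

namespace Pool.Agent.DIA.TRGaux

open Finset Pool.Agent.Lib27 Pool.Agent.SapR Pool.Agent.AreaLaw Pool.Agent.FL
open Pool.Agent.SapR.H58

lemma lspan_eq (n : ℕ) (s : Fin (2 * n) → Fin 4) : lspan n s = lsn (List.ofFn s) := by
  have hL : (vs 0 (List.ofFn s)).length = 2 * n := by rw [vs_length, List.length_ofFn]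
  have hpos : ∀ j : ℕ, j < 2 * n → (pos n s j).1 - (pos n s j).2 =
      lat (ep 0 ((List.ofFn s).take j)) := by
    intro j hj
    rw [pos_eq n s j hj.le]
    rfl
  unfold lspan lsn
  apply le_antisymm
  · apply Finset.sup_le
    rintro ⟨i, j⟩ hij
    rw [mem_product, mem_range, mem_range] at hij
    have hi : i < (vs 0 (List.ofFn s)).length := by rw [hL]; exact hij.1
    have hj : j < (vs 0 (List.ofFn s)).length := by rw [hL]; exact hij.2
    have h1 := Finset.le_sup (f := fun p : (ℤ × ℤ) × (ℤ × ℤ) => (lat p.1 - lat p.2).toNat)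
      (s := (vs 0 (List.ofFn s)).toFinset ×ˢ (vs 0 (List.ofFn s)).toFinset)
      (b := ((vs 0 (List.ofFn s))[i], (vs 0 (List.ofFn s))[j]))
      (mem_product.2 ⟨List.mem_toFinset.2 (List.getElem_mem hi),
        List.mem_toFinset.2 (List.getElem_mem hj)⟩)
    refine le_trans (le_of_eq ?_) h1
    simp only [vs_getElem]
    rw [hpos i hij.1, hpos j hij.2]
  · apply Finset.sup_le
    rintro ⟨p, q⟩ hpq
    rw [mem_product, List.mem_toFinset, List.mem_toFinset] at hpq
    obtain ⟨i, hi, hi'⟩ := List.getElem_of_mem hpq.1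
    obtain ⟨j, hj, hj'⟩ := List.getElem_of_mem hpq.2
    have hi2 : i < 2 * n := by rw [← hL]; exact hi
    have hj2 : j < 2 * n := by rw [← hL]; exact hj
    have h1 := Finset.le_sup (f := fun k : ℕ × ℕ =>
        ((pos n s k.1).1 - (pos n s k.1).2 - ((pos n s k.2).1 - (pos n s k.2).2)).toNat)
      (s := Finset.range (2 * n) ×ˢ Finset.range (2 * n)) (b := (i, j))
      (mem_product.2 ⟨mem_range.2 hi2, mem_range.2 hj2⟩)
    refine le_trans (le_of_eq ?_) h1
    rw [vs_getElem] at hi' hj'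
    change (lat p - lat q).toNat = ((pos n s i).1 - (pos n s i).2 -
      ((pos n s j).1 - (pos n s j).2)).toNat
    rw [hpos i hi2, hpos j hj2, hi', hj']

/-- lateral span of a list of vertices -/
def lpl (l : List (ℤ × ℤ)) : ℕ :=
  (l.toFinset ×ˢ l.toFinset).sup (fun p => (lat p.1 - lat p.2).toNat)

lemma lsn_eq (w : Wd) : lsn w = lpl (vs 0 w) := rfl

lemma lpl_le_iff (l : List (ℤ × ℤ)) (k : ℕ) :
    lpl l ≤ k ↔ ∀ a ∈ l, ∀ b ∈ l, (lat a - lat b).toNat ≤ k := by
  unfold lpl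
  rw [Finset.sup_le_iff]
  constructor
  · intro h a ha b hb
    exact h (a, b) (Finset.mem_product.2 ⟨List.mem_toFinset.2 ha, List.mem_toFinset.2 hb⟩)
  · rintro h ⟨a, b⟩ hab
    rw [Finset.mem_product, List.mem_toFinset, List.mem_toFinset] at hab
    exact h a hab.1 b hab.2

lemma lpl_perm {l l' : List (ℤ × ℤ)} (h : l.Perm l') : lpl l = lpl l' := by
  unfold lpl
  rw [List.toFinset_eq_of_perm _ _ h]

lemma lat_add (p q : ℤ × ℤ) : lat (p + q) = lat p + lat q := by
  unfold lat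
  rw [Prod.fst_add, Prod.snd_add]
  ring

lemma lpl_shift (l : List (ℤ × ℤ)) (p : ℤ × ℤ) : lpl (l.map (· + p)) = lpl l := by
  apply eq_of_forall_ge_iff
  intro k
  rw [lpl_le_iff, lpl_le_iff]
  simp only [List.mem_map, forall_exists_index, and_imp, forall_apply_eq_imp_iff₂, lat_add,
    add_sub_add_right_eq_sub]

lemma lsn_rotate (l₁ l₂ : Wd) (h : ep 0 (l₁ ++ l₂) = 0) : lsn (l₂ ++ l₁) = lsn (l₁ ++ l₂) := by
  rw [lsn_eq, lsn_eq, lpl_perm (perm_rot l₁ l₂ h), lpl_shift]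

lemma lsn_rv (s : Wd) (hs : ep 0 s = 0) : lsn (rv s) = lsn s := by
  rw [lsn_eq, lsn_eq, lpl_perm (vs_rv_perm s hs)]

end Pool.Agent.DIA.TRGaux

namespace Pool.Agent.DIA

open Finset Pool.Agent.Lib27 Pool.Agent.SapR Pool.Agent.AreaLaw Pool.Agent.FL
open TRGaux

theorem t_TRG (h : K1G_Stmt) : TRG_Stmt := by
  intro n hn F
  have h1 : ∑ s ∈ SAP n, F |dbl 0 (List.ofFn s)| (span n s) (lspan n s) =
      ∑ w ∈ W n, F |dbl 0 w| (spn w) (lsn w) := by
    rw [← sum_SAP n (fun w => F |dbl 0 w| (spn w) (lsn w))]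
    apply Finset.sum_congr rfl
    intro s _
    rw [TR.span_eq, lspan_eq]
  rw [h1, TR.fam_eq n hn, h (2 * n - 1) n (by omega) lsn lsn_rotate lsn_rv F]
  congr 2
  unfold FS.Omn M41.Om
  rw [sum_sigma]
  apply sum_congr rfl
  intro a _
  rw [sum_sigma]
  apply sum_congr rfl
  intro M _
  rw [sum_product]
  rfl

end Pool.Agent.DIA
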