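import Pool.Agent.DIA.Stmts
import Pool.Agent.Lib_helper27.Winding
import Pool.Agent.Lib_helper66.SapR.K5

/-!
# Project DIA, module TRW: transfer of weights
-/

set_option autoImplicit false

namespace Pool.Agent.DIA

open Finset Filter Topology MeasureTheory
open Pool.Agent.Lib27 Pool.Agent.SapR Pool.Agent.AreaLaw Pool.Agent.FS

namespace TRWm

lemma area_nonneg (n : ℕ) (s : Fin (2 * n) → Fin 4) : 0 ≤ area n s := by
  unfold area
  positivity

lemma area_bounds (n : ℕ) (hn : 2 ≤ n) (s : Fin (2 * n) → Fin 4) (hs : s ∈ SAP n) :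
    1 ≤ area n s ∧ area n s ≤ 2 * (n : ℝ) ^ 2 := by
  rw [SAP_iff, mem_W] at hs
  have h1 := dbl_ge n (List.ofFn s) hs.2 hs.1 hn
  have h2 := Pool.Agent.SapR.H66.abs_dbl_le (List.ofFn s)
  rw [List.length_ofFn] at h2
  have h3 : area n s = ((|dbl 0 (List.ofFn s)| : ℤ) : ℝ) / 2 := by
    rw [area_eq]
    rfl
  have h4 : (2 : ℤ) ≤ |dbl 0 (List.ofFn s)| := le_trans (by exact_mod_cast hn) h1
  have h5 : (2 : ℝ) ≤ ((|dbl 0 (List.ofFn s)| : ℤ) : ℝ) := by exact_mod_cast h4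
  have h6 : ((|dbl 0 (List.ofFn s)| : ℤ) : ℝ) ≤ (((2 * n : ℕ) : ℤ) : ℝ) ^ 2 := by exact_mod_cast h2
  push_cast at h6
  rw [h3]
  constructor
  · linarith
  · push_cast
    nlinarith [h6]

lemma refl_sum (hR : RFL_Stmt) (n : ℕ) (W : (Fin (2 * n) → Fin 4) → ℝ) (φ : ℝ → ℝ) :
    ∑ s ∈ SAP n, W (fl n s) * φ (area n s) = ∑ s ∈ SAP n, W s * φ (area n s) := by
  refine Finset.sum_nbij' (fl n) (fl n) (fun s hs => (hR n s).1 hs) (fun s hs => (hR n s).1 hs)
    (fun s _ => (hR n s).2.1) (fun s _ => (hR n s).2.1) (fun s _ => ?_)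
  rw [(hR n s).2.2.1]

lemma key (hR : RFL_Stmt) (n : ℕ) (W W' : (Fin (2 * n) → Fin 4) → ℝ) (φ : ℝ → ℝ) (B : ℝ)
    (hB : ∀ s ∈ SAP n, |φ (area n s)| ≤ B) :
    |∑ s ∈ SAP n, W' s * φ (area n s) - 2 * ∑ s ∈ SAP n, W s * φ (area n s)| ≤
      wErr n W W' * B := by
  have h1 : ∑ s ∈ SAP n, W' s * φ (area n s) - 2 * ∑ s ∈ SAP n, W s * φ (area n s) =
      ∑ s ∈ SAP n, (W' s - (W s + W (fl n s))) * φ (area n s) := by
    have h2 : 2 * ∑ s ∈ SAP n, W s * φ (area n s) =
        ∑ s ∈ SAP n, W s * φ (area n s) + ∑ s ∈ SAP n, W (fl n s) * φ (area n s) := by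
      rw [refl_sum hR]
      ring
    rw [h2, ← Finset.sum_add_distrib, ← Finset.sum_sub_distrib]
    exact Finset.sum_congr rfl fun s _ => by ring
  rw [h1]
  unfold wErr
  rw [Finset.sum_mul]
  refine (Finset.abs_sum_le_sum_abs _ _).trans (Finset.sum_le_sum fun s hs => ?_)
  rw [abs_mul]
  exact mul_le_mul_of_nonneg_left (hB s hs) (abs_nonneg _)

lemma wErr_nonneg (n : ℕ) (W W' : (Fin (2 * n) → Fin 4) → ℝ) : 0 ≤ wErr n W W' :=
  Finset.sum_nonneg fun _ _ => abs_nonneg _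

/-- sums of powers of the area -/
noncomputable def X (n : ℕ) (W : (Fin (2 * n) → Fin 4) → ℝ) (r : ℕ) : ℝ :=
  ∑ s ∈ SAP n, W s * area n s ^ r

lemma X_zero (n : ℕ) (W : (Fin (2 * n) → Fin 4) → ℝ) : X n W 0 = wZ n W := by
  unfold X wZ
  exact Finset.sum_congr rfl fun s _ => by rw [pow_zero, mul_one]

lemma X_one (n : ℕ) (W : (Fin (2 * n) → Fin 4) → ℝ) :
    X n W 1 = ∑ s ∈ SAP n, W s * area n s := by
  unfold X
  exact Finset.sum_congr rfl fun s _ => by rw [pow_one]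

lemma X_ge (n : ℕ) (hn : 2 ≤ n) (W : (Fin (2 * n) → Fin 4) → ℝ) (hW : ∀ s, 0 ≤ W s) (r : ℕ) :
    wZ n W ≤ X n W r := by
  unfold X wZ
  refine Finset.sum_le_sum fun s hs => ?_
  exact le_mul_of_one_le_right (hW s) (one_le_pow₀ (area_bounds n hn s hs).1)

lemma qlim (hR : RFL_Stmt) (W W' : ∀ n : ℕ, (Fin (2 * n) → Fin 4) → ℝ)
    (hW : ∀ n s, 0 ≤ W n s) (hZ : ∀ᶠ n in atTop, 0 < wZ n (W n))
    (hE : ∀ j : ℕ, Tendsto (fun n : ℕ => (n : ℝ) ^ j * (wErr n (W n) (W' n) / wZ n (W n)))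
      atTop (𝓝 0)) (r : ℕ) :
    Tendsto (fun n => X n (W' n) r / (2 * X n (W n) r)) atTop (𝓝 1) := by
  rw [tendsto_iff_norm_sub_tendsto_zero]
  have h0 : Tendsto (fun n : ℕ => 2 ^ r * ((n : ℝ) ^ (2 * r) *
      (wErr n (W n) (W' n) / wZ n (W n)))) atTop (𝓝 0) := by
    have := (hE (2 * r)).const_mul ((2 : ℝ) ^ r)
    rwa [mul_zero] at this
  refine squeeze_zero' (Eventually.of_forall fun n => norm_nonneg _) ?_ h0
  filter_upwards [hZ, eventually_ge_atTop 2] with n hz hn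
  have hX : wZ n (W n) ≤ X n (W n) r := X_ge n hn (W n) (hW n) r
  have hX0 : 0 < X n (W n) r := hz.trans_le hX
  have hk := key hR n (W n) (W' n) (fun a => a ^ r) ((2 * (n : ℝ) ^ 2) ^ r) (fun s hs => by
    have hb := area_bounds n hn s hs
    rw [abs_of_nonneg (pow_nonneg (area_nonneg n s) r)]
    exact pow_le_pow_left₀ (area_nonneg n s) hb.2 r)
  change |X n (W' n) r - 2 * X n (W n) r| ≤ _ at hk
  have h1 : X n (W' n) r / (2 * X n (W n) r) - 1 =
      (X n (W' n) r - 2 * X n (W n) r) / (2 * X n (W n) r) := by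
    field_simp
  rw [Real.norm_eq_abs, h1, abs_div, abs_of_pos (by positivity : (0 : ℝ) < 2 * X n (W n) r)]
  have hE0 := wErr_nonneg n (W n) (W' n)
  have h2 : 2 ^ r * ((n : ℝ) ^ (2 * r) * (wErr n (W n) (W' n) / wZ n (W n))) =
      wErr n (W n) (W' n) * (2 * (n : ℝ) ^ 2) ^ r / wZ n (W n) := by
    rw [mul_pow, ← pow_mul]
    ring
  rw [h2]
  exact div_le_div₀ (by positivity) hk hz (by linarith)

lemma ev_Z (hR : RFL_Stmt) (W W' : ∀ n : ℕ, (Fin (2 * n) → Fin 4) → ℝ)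
    (hZ : ∀ᶠ n in atTop, 0 < wZ n (W n))
    (hE : ∀ j : ℕ, Tendsto (fun n : ℕ => (n : ℝ) ^ j * (wErr n (W n) (W' n) / wZ n (W n)))
      atTop (𝓝 0)) :
    ∀ᶠ n in atTop, wZ n (W n) ≤ wZ n (W' n) := by
  have h0 := hE 0
  simp only [pow_zero, one_mul] at h0
  filter_upwards [hZ, h0.eventually_le_const one_pos] with n hz he
  rw [div_le_one hz] at he
  have hk := key hR n (W n) (W' n) (fun _ => 1) 1 (fun s _ => by simp)
  simp only [mul_one] at hk
  change |wZ n (W' n) - 2 * wZ n (W n)| ≤ _ at hk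
  have := (abs_le.1 hk).1
  linarith

lemma ratio (A Z A' Z' : ℝ) (hA : A ≠ 0) (hZ : Z ≠ 0) (hZ' : Z' ≠ 0) :
    A' / Z' = (A / Z) * ((A' / (2 * A)) / (Z' / (2 * Z))) := by
  field_simp

lemma mean_eq (n : ℕ) (V : (Fin (2 * n) → Fin 4) → ℝ) (m : ℝ) :
    ∑ z ∈ SAP n, V z / wZ n V * (area n z / m) = X n V 1 / (wZ n V * m) := by
  rw [X_one, Finset.sum_div]
  exact Finset.sum_congr rfl fun z _ => by rw [div_mul_div_comm]

open Classical in
lemma cdf_conv (n : ℕ) (V : (Fin (2 * n) → Fin 4) → ℝ) (m x : ℝ) (hm : 0 < m)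
    (hz : 0 < wZ n V) :
    ∑ y ∈ (SAP n).filter (fun y => area n y / m ≤ x * ∑ z ∈ SAP n, V z / wZ n V *
      (area n z / m)), V y / wZ n V = wCdf n V x := by
  unfold wCdf
  rw [← Finset.sum_div, mean_eq, X_one]
  congr 1
  refine Finset.sum_congr (Finset.filter_congr fun s _ => ?_) fun _ _ => rfl
  rw [← mul_div_assoc, div_le_div_iff₀ hm (mul_pos hz hm)]
  constructor
  · intro h
    have h2 : (area n s * wZ n V) * m ≤ (x * ∑ t ∈ SAP n, V t * area n t) * m := by linarith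
    exact le_of_mul_le_mul_right h2 hm
  · intro h
    have h2 := mul_le_mul_of_nonneg_right h hm.le
    linarith

lemma lip_bound (a b Z Z' E : ℝ) (hZ : 0 < Z) (hZ' : Z ≤ Z') (h1 : |a - 2 * b| ≤ E)
    (h2 : |Z' - 2 * Z| ≤ E) (hb : |b| ≤ Z) : |a / Z' - b / Z| ≤ 2 * (E / Z) := by
  have hZ0 : 0 < Z' := hZ.trans_le hZ'
  have hE : 0 ≤ E := (abs_nonneg _).trans h1
  have e : a / Z' - b / Z = ((a - 2 * b) * Z - b * (Z' - 2 * Z)) / (Z' * Z) := by
    field_simp
    ring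
  rw [e, abs_div, abs_of_pos (mul_pos hZ0 hZ)]
  have h3 : |(a - 2 * b) * Z - b * (Z' - 2 * Z)| ≤ 2 * E * Z := by
    refine (abs_sub _ _).trans ?_
    rw [abs_mul, abs_mul, abs_of_pos hZ]
    have h4 : |a - 2 * b| * Z ≤ E * Z := mul_le_mul_of_nonneg_right h1 hZ.le
    have h5 : |b| * |Z' - 2 * Z| ≤ Z * E := mul_le_mul hb h2 (abs_nonneg _) hZ.le
    linarith
  calc |(a - 2 * b) * Z - b * (Z' - 2 * Z)| / (Z' * Z) ≤ 2 * E * Z / (Z' * Z) :=
        div_le_div_of_nonneg_right h3 (mul_pos hZ0 hZ).le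
    _ = 2 * (E / Z') := by field_simp
    _ ≤ 2 * (E / Z) := by
        have := div_le_div_of_nonneg_left hE hZ hZ'
        linarith

end TRWm

open TRWm in
theorem t_TRW (hR : RFL_Stmt) (hC : CDF_Stmt) : TRW_Stmt := by
  classical
  intro μ hμ W W' hW hW' hZ hE
  have hZ' := ev_Z hR W W' hZ hE
  have hq := qlim hR W W' hW hZ hE
  have hXp : ∀ r : ℕ, ∀ᶠ n in atTop, 0 < X n (W n) r := by
    intro r
    filter_upwards [hZ, eventually_ge_atTop 2] with n hz hn
    exact hz.trans_le (X_ge n hn (W n) (hW n) r)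
  have hqq : ∀ r : ℕ, Tendsto (fun n => (X n (W' n) r / (2 * X n (W n) r)) /
      (wZ n (W' n) / (2 * wZ n (W n)))) atTop (𝓝 1) := by
    intro r
    have h := (hq r).div (hq 0) one_ne_zero
    simp only [X_zero, div_one] at h
    exact h
  constructor
  · intro hc x hx
    have hS0 : ∀ (n : ℕ) (s : Fin (2 * n) → Fin 4),
        0 ≤ area n s / (X n (W n) 1 / wZ n (W n)) := fun n s =>
      div_nonneg (TRWm.area_nonneg n s) (div_nonneg (Finset.sum_nonneg fun t _ =>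
        mul_nonneg (hW n t) (pow_nonneg (TRWm.area_nonneg n t) 1))
          (Finset.sum_nonneg fun t _ => hW n t))
    have hmain := hC μ hμ (fun n => Fin (2 * n) → Fin 4) (fun n => Fin (2 * n) → Fin 4)
      (fun n => SAP n) (fun n => SAP n)
      (fun n s => W n s / wZ n (W n)) (fun n s => area n s / (X n (W n) 1 / wZ n (W n)))
      (fun n s => W' n s / wZ n (W' n)) (fun n s => area n s / (X n (W n) 1 / wZ n (W n)))
      (fun n s => div_nonneg (hW n s) (Finset.sum_nonneg fun t _ => hW n t))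
      (fun n s => div_nonneg (hW' n s) (Finset.sum_nonneg fun t _ => hW' n t))
      hS0 hS0
      (by
        filter_upwards [hZ] with n hz
        rw [← Finset.sum_div]
        exact div_self hz.ne')
      (by
        filter_upwards [hZ, hZ'] with n hz hz'
        rw [← Finset.sum_div]
        exact div_self (hz.trans_le hz').ne')
      ?_ ?_ ?_ ?_ x hx
    · -- conclusion
      refine hmain.congr' ?_
      filter_upwards [hZ, hZ', hXp 1] with n hz hz' hx1
      exact cdf_conv n (W' n) _ x (div_pos hx1 hz) (hz.trans_le hz')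
    · refine ⟨1, 1, one_pos, ?_⟩
      filter_upwards [hZ, hXp 1] with n hz hx1
      rw [mean_eq]
      have h : X n (W n) 1 / (wZ n (W n) * (X n (W n) 1 / wZ n (W n))) = 1 := by
        field_simp
      rw [h]
      exact ⟨le_rfl, le_rfl⟩
    · have h1 := (hqq 1).sub_const 1
      rw [sub_self] at h1
      refine h1.congr' ?_
      filter_upwards [hZ, hZ', hXp 1] with n hz hz' hx1
      have hz0 : 0 < wZ n (W' n) := hz.trans_le hz'
      rw [mean_eq, mean_eq]
      field_simp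
    · intro φ hφ _
      have h0 := (hE 0).const_mul 2
      simp only [pow_zero, one_mul, mul_zero] at h0
      rw [tendsto_zero_iff_norm_tendsto_zero]
      refine squeeze_zero' (Eventually.of_forall fun n => norm_nonneg _) ?_ h0
      filter_upwards [hZ, hZ'] with n hz hz'
      have e : ∀ V : (Fin (2 * n) → Fin 4) → ℝ, ∑ s ∈ SAP n, V s / wZ n V *
          φ (area n s / (X n (W n) 1 / wZ n (W n))) =
          (∑ s ∈ SAP n, V s * φ (area n s / (X n (W n) 1 / wZ n (W n)))) / wZ n V := by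
        intro V
        rw [Finset.sum_div]
        exact Finset.sum_congr rfl fun s _ => by ring
      rw [Real.norm_eq_abs, e, e]
      refine lip_bound _ _ _ _ _ hz hz' ?_ ?_ ?_
      · have hk := key hR n (W n) (W' n)
          (fun a => φ (a / (X n (W n) 1 / wZ n (W n)))) 1 (fun s _ => hφ _)
        simpa only [mul_one] using hk
      · have hk := key hR n (W n) (W' n) (fun _ => 1) 1 (fun s _ => by simp)
        simp only [mul_one] at hk
        exact hk
      · refine (Finset.abs_sum_le_sum_abs _ _).trans (Finset.sum_le_sum fun s _ => ?_)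
        rw [abs_mul, abs_of_nonneg (hW n s)]
        exact mul_le_of_le_one_right (hW n s) (hφ _)
    · intro y hy
      refine (hc y hy).congr' ?_
      filter_upwards [hZ, hXp 1] with n hz hx1
      exact (cdf_conv n (W n) _ y (div_pos hx1 hz) hz).symm
  · intro r L hL
    have h1 := hL.mul ((hqq r).div ((hqq 1).pow r) (by rw [one_pow]; exact one_ne_zero))
    rw [one_pow, div_one, mul_one] at h1
    refine h1.congr' ?_
    filter_upwards [hZ, hZ', hXp 1, hXp r] with n hz hz' hx1 hxr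
    have hz0 : 0 < wZ n (W' n) := hz.trans_le hz'
    unfold wMom
    rw [← X_one, ← X_one]
    change (X n (W n) r / wZ n (W n)) / (X n (W n) 1 / wZ n (W n)) ^ r * _ =
      (X n (W' n) r / wZ n (W' n)) / (X n (W' n) 1 / wZ n (W' n)) ^ r
    rw [ratio (X n (W n) r) (wZ n (W n)) (X n (W' n) r) (wZ n (W' n)) hxr.ne' hz.ne' hz0.ne',
      ratio (X n (W n) 1) (wZ n (W n)) (X n (W' n) 1) (wZ n (W' n)) hx1.ne' hz.ne' hz0.ne',
      mul_pow, mul_div_mul_comm]
    rfl

end Pool.Agent.DIA
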