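import Pool.Agent.DIA.Stmts

/-!
# Project DIA (MP_f6626d_co): the module VIN, induction for the exponential moments of the
lateral coordinate
-/

set_option autoImplicit false

namespace Pool.Agent.DIA

open Finset Filter Topology MeasureTheory
open Pool.Agent.Lib27 Pool.Agent.SapR Pool.Agent.Gap Pool.Agent.AreaLaw Pool.Agent.FL
open Pool.Agent.FS
open Pool.Agent.NSP (Reg)
open Pool.Agent.EXW (Mf)

namespace VINA

/-- The first term: an elementary inequality. -/
theorem first {D g : ℝ} (hD : 2 ≤ D) (hg : 8 * D * g ≤ 1) (m : ℕ) :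
    (2 * m + 1) * Real.exp (g * m) * (D * (1 - D⁻¹) ^ m) ≤ D ^ 5 := by
  have hD0 : 0 < D := by linarith
  have hm0 : (0 : ℝ) ≤ m := Nat.cast_nonneg m
  have hDi : D⁻¹ ≤ 1 := by
    rw [inv_le_one₀ hD0]; linarith
  have h1 : (1 - D⁻¹) ^ m ≤ Real.exp (-(m / D)) := by
    have h2 : 1 - D⁻¹ ≤ Real.exp (-D⁻¹) := by
      have := Real.add_one_le_exp (-D⁻¹)
      linarith
    calc (1 - D⁻¹) ^ m ≤ Real.exp (-D⁻¹) ^ m := pow_le_pow_left₀ (by linarith) h2 m
      _ = Real.exp (-(m / D)) := by
        rw [← Real.exp_nat_mul]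
        congr 1
        field_simp
  have hgD : g ≤ 1 / (8 * D) := by
    rw [le_div_iff₀ (by positivity)]
    linarith
  have h2 : Real.exp (g * m) * Real.exp (-(m / D)) ≤ Real.exp (-(7 / 8 * (m / D))) := by
    rw [← Real.exp_add]
    apply Real.exp_le_exp.mpr
    have h3 : g * m ≤ 1 / (8 * D) * m := mul_le_mul_of_nonneg_right hgD hm0
    have h4 : 1 / (8 * D) * m = 1 / 8 * (m / D) := by field_simp
    linarith
  have h3 : Real.exp (-(7 / 8 * (m / D))) ≤ 1 / (1 + 7 / 8 * (m / D)) := by
    rw [Real.exp_neg, ← one_div]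
    have hpos : 0 < 1 + 7 / 8 * ((m : ℝ) / D) := by positivity
    apply one_div_le_one_div_of_le hpos
    have := Real.add_one_le_exp (7 / 8 * ((m : ℝ) / D))
    linarith
  have h4 : (2 * (m : ℝ) + 1) * (1 / (1 + 7 / 8 * (m / D))) ≤ 4 * D := by
    have hpos : 0 < 1 + 7 / 8 * ((m : ℝ) / D) := by positivity
    rw [mul_one_div, div_le_iff₀ hpos]
    have h5 : 4 * D * (1 + 7 / 8 * ((m : ℝ) / D)) = 4 * D + 7 / 2 * m := by
      field_simp
      ring
    rw [h5]
    linarith
  have h6 : (2 * (m : ℝ) + 1) * Real.exp (g * m) * (D * (1 - D⁻¹) ^ m) ≤ 4 * D * D := by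
    calc (2 * (m : ℝ) + 1) * Real.exp (g * m) * (D * (1 - D⁻¹) ^ m)
        ≤ (2 * (m : ℝ) + 1) * Real.exp (g * m) * (D * Real.exp (-(m / D))) := by
          apply mul_le_mul_of_nonneg_left _ (by positivity)
          exact mul_le_mul_of_nonneg_left h1 hD0.le
      _ = (2 * (m : ℝ) + 1) * (Real.exp (g * m) * Real.exp (-(m / D))) * D := by ring
      _ ≤ (2 * (m : ℝ) + 1) * (1 / (1 + 7 / 8 * (m / D))) * D := by
          apply mul_le_mul_of_nonneg_right _ hD0.le
          exact mul_le_mul_of_nonneg_left (h2.trans h3) (by positivity)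
      _ ≤ 4 * D * D := mul_le_mul_of_nonneg_right h4 hD0.le
  refine h6.trans ?_
  have h7 : (4 : ℝ) ≤ D ^ 2 := by nlinarith
  have h8 : (1 : ℝ) ≤ D := by linarith
  calc 4 * D * D = 4 * D ^ 2 := by ring
    _ ≤ D ^ 2 * D ^ 2 := mul_le_mul_of_nonneg_right h7 (by positivity)
    _ = D ^ 4 := by ring
    _ ≤ D ^ 5 := pow_le_pow_right₀ h8 (by norm_num)

theorem wp_nonneg {s ρ : ℝ} (hs : 0 < s) (hρ : 0 < ρ) (p : Wd × Wd) : 0 ≤ wp s ρ p := by
  unfold wp
  positivity

theorem mem_al {r : ℕ} {x : ℤ} {p : Wd × Wd} (h : p ∈ allowed r x) :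
    p ∈ Pc r ∧ 1 ≤ x + jump p := by
  classical
  unfold allowed at h
  rw [Finset.mem_filter] at h
  exact ⟨h.1, h.2.2.1⟩

end VINA

theorem t_VIN (hV : VRC_Stmt) (hK : KER_Stmt) (hP : LTP_Stmt) : VIN_Stmt := by
  obtain ⟨K0, hK0⟩ := hK
  refine ⟨K0 + 6, ?_⟩
  intro D hD n s ρ hn hs hs1 hρ hcrit htail g hg0 hg x m hx
  obtain ⟨hA, hB, hC⟩ := hK0 D hD n s ρ hn hs hs1 hρ hcrit htail
  obtain ⟨hA1, hA2⟩ := hA g hg0 hg
  have hD1 : (1 : ℝ) ≤ D := by linarith
  have hD0 : (0 : ℝ) < D := by linarith
  set r := 2 * n - 1 with hr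
  set κ : ℝ := D ^ K0 * g ^ 2 with hκ
  have hκ0 : 0 ≤ κ := by positivity
  -- the claim
  have claim : ∀ (m : ℕ) (x : ℤ), 1 ≤ x →
      Vl r s ρ g x m ≤ 2 * D ^ (K0 + 5) * (m + 1) * Real.exp (κ * m + g * x) := by
    intro m
    induction m using Nat.strong_induction_on with
    | _ m ih =>
      intro x hx
      have hx0 : (0 : ℝ) ≤ g * x := by
        have : (0 : ℝ) ≤ x := by exact_mod_cast (by omega : (0 : ℤ) ≤ x)
        positivity
      have h1 := hV r s ρ g x m hs hs1 hρ hg0 hx
      -- first term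
      have h2 : (2 * m + 1) * Real.exp (g * m) * Cl r s ρ x m ≤ D ^ 5 :=
        (mul_le_mul_of_nonneg_left (hC x m hx) (by positivity)).trans (VINA.first hD hg m)
      -- the pieces
      have hsub : (allowed r x).filter (fun p => hl p < m) ⊆ Pc r :=
        fun p hp => (VINA.mem_al (Finset.mem_filter.mp hp).1).1
      have h3 : ∑ p ∈ (allowed r x).filter (fun p => hl p < m), wp s ρ p *
          (2 * hl p * Real.exp (g * (2 * hl p + x)) * Al r s ρ (x + jump p) (m - hl p) +
            Real.cosh (g * kap p) * Vl r s ρ g (x + jump p) (m - hl p)) ≤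
          ∑ p ∈ (allowed r x).filter (fun p => hl p < m),
            (D ^ 2 * Real.exp (g * x) * (wp s ρ p * (2 * hl p * Real.exp (g * (2 * hl p)))) +
              2 * D ^ (K0 + 5) * m * Real.exp (κ * (m - 1) + g * x) *
                (wp s ρ p * (Real.cosh (g * kap p) * Real.exp (g * jump p)))) := by
        refine Finset.sum_le_sum fun p hp => ?_
        have hp1 := Finset.mem_filter.mp hp
        have hp2 := VINA.mem_al hp1.1
        have hx' : 1 ≤ x + jump p := hp2.2
        have hlm : hl p < m := hp1.2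
        have hl1 : 1 ≤ hl p := (hP r p hp2.1).2.1
        have hw := VINA.wp_nonneg hs hρ p
        have e1 : Al r s ρ (x + jump p) (m - hl p) ≤ D ^ 2 := hB _ _ hx'
        have e2 := ih (m - hl p) (by omega) (x + jump p) hx'
        have hl1' : (1 : ℝ) ≤ hl p := by exact_mod_cast hl1
        have e3 : ((m - hl p : ℕ) : ℝ) = (m : ℝ) - hl p := by
          rw [Nat.cast_sub hlm.le]
        have e4 : Vl r s ρ g (x + jump p) (m - hl p) ≤
            2 * D ^ (K0 + 5) * m * Real.exp (κ * (m - 1) + g * x) * Real.exp (g * jump p) := by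
          refine e2.trans ?_
          rw [e3, mul_assoc (2 * D ^ (K0 + 5) * (m : ℝ)), ← Real.exp_add]
          have hm1 : (0 : ℝ) ≤ (m : ℝ) - hl p + 1 := by
            have : (hl p : ℝ) < m := by exact_mod_cast hlm
            linarith
          apply mul_le_mul
          · apply mul_le_mul_of_nonneg_left _ (by positivity)
            linarith
          · apply Real.exp_le_exp.mpr
            push_cast
            nlinarith
          · positivity
          · positivity
        have e5 : Real.exp (g * (2 * hl p + x)) =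
            Real.exp (g * (2 * hl p)) * Real.exp (g * x) := by
          rw [← Real.exp_add]; congr 1; ring
        have e6 : 2 * hl p * Real.exp (g * (2 * hl p + x)) * Al r s ρ (x + jump p) (m - hl p) ≤
            D ^ 2 * Real.exp (g * x) * (2 * hl p * Real.exp (g * (2 * hl p))) := by
          calc 2 * hl p * Real.exp (g * (2 * hl p + x)) * Al r s ρ (x + jump p) (m - hl p)
              ≤ 2 * hl p * Real.exp (g * (2 * hl p + x)) * D ^ 2 :=
                mul_le_mul_of_nonneg_left e1 (by positivity)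
            _ = D ^ 2 * Real.exp (g * x) * (2 * hl p * Real.exp (g * (2 * hl p))) := by
                rw [e5]; ring
        have e7 : Real.cosh (g * kap p) * Vl r s ρ g (x + jump p) (m - hl p) ≤
            Real.cosh (g * kap p) * (2 * D ^ (K0 + 5) * m * Real.exp (κ * (m - 1) + g * x) *
              Real.exp (g * jump p)) :=
          mul_le_mul_of_nonneg_left e4 (Real.cosh_pos _).le
        calc wp s ρ p * (2 * hl p * Real.exp (g * (2 * hl p + x)) *
              Al r s ρ (x + jump p) (m - hl p) +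
              Real.cosh (g * kap p) * Vl r s ρ g (x + jump p) (m - hl p))
            ≤ wp s ρ p * (D ^ 2 * Real.exp (g * x) * (2 * hl p * Real.exp (g * (2 * hl p))) +
              Real.cosh (g * kap p) * (2 * D ^ (K0 + 5) * m * Real.exp (κ * (m - 1) + g * x) *
              Real.exp (g * jump p))) :=
              mul_le_mul_of_nonneg_left (add_le_add e6 e7) hw
          _ = _ := by ring
      rw [Finset.sum_add_distrib, ← Finset.mul_sum, ← Finset.mul_sum] at h3
      have h4 : ∑ p ∈ (allowed r x).filter (fun p => hl p < m),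
          (wp s ρ p * (2 * hl p * Real.exp (g * (2 * hl p)))) ≤ D ^ K0 := by
        refine (Finset.sum_le_sum_of_subset_of_nonneg hsub fun p _ _ => ?_).trans hA2
        exact mul_nonneg (VINA.wp_nonneg hs hρ p) (by positivity)
      have h5 : ∑ p ∈ (allowed r x).filter (fun p => hl p < m),
          (wp s ρ p * (Real.cosh (g * kap p) * Real.exp (g * jump p))) ≤ 1 + κ := by
        refine (Finset.sum_le_sum_of_subset_of_nonneg hsub fun p _ _ => ?_).trans hA1
        exact mul_nonneg (VINA.wp_nonneg hs hρ p)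
          (mul_nonneg (Real.cosh_pos _).le (Real.exp_pos _).le)
      have h6 : 1 + κ ≤ Real.exp κ := by
        have := Real.add_one_le_exp κ
        linarith
      have h7 : D ^ 2 * Real.exp (g * x) * ∑ p ∈ (allowed r x).filter (fun p => hl p < m),
          (wp s ρ p * (2 * hl p * Real.exp (g * (2 * hl p)))) ≤
          D ^ (K0 + 2) * Real.exp (g * x) := by
        calc _ ≤ D ^ 2 * Real.exp (g * x) * D ^ K0 :=
              mul_le_mul_of_nonneg_left h4 (by positivity)
          _ = D ^ (K0 + 2) * Real.exp (g * x) := by ring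
      have h8 : 2 * D ^ (K0 + 5) * m * Real.exp (κ * (m - 1) + g * x) *
          ∑ p ∈ (allowed r x).filter (fun p => hl p < m),
          (wp s ρ p * (Real.cosh (g * kap p) * Real.exp (g * jump p))) ≤
          2 * D ^ (K0 + 5) * m * Real.exp (κ * m + g * x) := by
        calc _ ≤ 2 * D ^ (K0 + 5) * m * Real.exp (κ * (m - 1) + g * x) * Real.exp κ :=
              mul_le_mul_of_nonneg_left (h5.trans h6) (by positivity)
          _ = 2 * D ^ (K0 + 5) * m * Real.exp (κ * m + g * x) := by
            rw [mul_assoc, ← Real.exp_add]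
            congr 2
            ring
      have hE : (1 : ℝ) ≤ Real.exp (g * x) := Real.one_le_exp hx0
      have hE2 : Real.exp (g * x) ≤ Real.exp (κ * m + g * x) := by
        apply Real.exp_le_exp.mpr
        have : 0 ≤ κ * m := by positivity
        linarith
      have h9 : D ^ 5 ≤ D ^ (K0 + 5) := pow_le_pow_right₀ hD1 (by omega)
      have h10 : D ^ (K0 + 2) ≤ D ^ (K0 + 5) := pow_le_pow_right₀ hD1 (by omega)
      have h11 : D ^ 5 ≤ D ^ (K0 + 5) * Real.exp (κ * m + g * x) := by
        calc D ^ 5 ≤ D ^ (K0 + 5) * 1 := by linarith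
          _ ≤ D ^ (K0 + 5) * Real.exp (κ * m + g * x) :=
            mul_le_mul_of_nonneg_left (hE.trans hE2) (by positivity)
      have h12 : D ^ (K0 + 2) * Real.exp (g * x) ≤
          D ^ (K0 + 5) * Real.exp (κ * m + g * x) :=
        mul_le_mul h10 hE2 (by positivity) (by positivity)
      calc Vl r s ρ g x m ≤ D ^ (K0 + 5) * Real.exp (κ * m + g * x) +
            (D ^ (K0 + 5) * Real.exp (κ * m + g * x) +
              2 * D ^ (K0 + 5) * m * Real.exp (κ * m + g * x)) := by linarith
        _ = 2 * D ^ (K0 + 5) * (m + 1) * Real.exp (κ * m + g * x) := by ring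
  refine (claim m x hx).trans ?_
  have hm0 : (0 : ℝ) ≤ m := Nat.cast_nonneg m
  have hp1 : 2 * D ^ (K0 + 5) ≤ D ^ (K0 + 6) := by
    calc 2 * D ^ (K0 + 5) ≤ D * D ^ (K0 + 5) :=
          mul_le_mul_of_nonneg_right hD (by positivity)
      _ = D ^ (K0 + 6) := by ring
  have hp2 : D ^ K0 ≤ D ^ (K0 + 6) := pow_le_pow_right₀ hD1 (by omega)
  apply mul_le_mul
  · exact mul_le_mul_of_nonneg_right hp1 (by positivity)
  · apply Real.exp_le_exp.mpr
    have : κ * m ≤ D ^ (K0 + 6) * g ^ 2 * m := by
      rw [hκ]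
      gcongr
    linarith
  · positivity
  · positivity

end Pool.Agent.DIA
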