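import Pool.Agent.DIA.Stmts

/-!
# Project DIA, module VRC: the recursion for the exponential moments
-/

set_option autoImplicit false

namespace Pool.Agent.DIA

open Finset Filter Topology MeasureTheory
open Pool.Agent.Lib27 Pool.Agent.SapR Pool.Agent.Gap Pool.Agent.AreaLaw Pool.Agent.FL
open Pool.Agent.FS

namespace VRC

lemma cosh_le {a b : ℝ} (h : |a| ≤ b) : Real.cosh a ≤ Real.exp b := by
  rw [← Real.cosh_abs]
  have h0 : 0 ≤ |a| := abs_nonneg a
  rw [Real.cosh_eq]
  have h1 : Real.exp |a| ≤ Real.exp b := Real.exp_le_exp.2 h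
  have h2 : Real.exp (-|a|) ≤ Real.exp b := Real.exp_le_exp.2 (by linarith)
  linarith

/-- bound of a list sum -/
lemma sum_le (l : List (ℤ × ℤ)) (f : ℤ × ℤ → ℝ) (c : ℝ) (h : ∀ v ∈ l, f v ≤ c) :
    (l.map f).sum ≤ l.length * c := by
  have := List.sum_le_card_nsmul (l.map f) c (by
    intro y hy
    obtain ⟨v, hv, rfl⟩ := List.mem_map.1 hy
    exact h v hv)
  rwa [List.length_map, nsmul_eq_mul] at this

lemma lat_add (a b : ℤ × ℤ) : lat (a + b) = lat a + lat b := by
  unfold lat
  simp only [Prod.fst_add, Prod.snd_add]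
  ring

/-- the cap bound -/
lemma cap_bound (hA : LTA_Stmt) {g : ℝ} (hg : 0 ≤ g) {x : ℤ} {T : Wd} {m : ℕ}
    (hT : ep 0 T = (-x, x)) (hl : T.length = 2 * m) :
    vc g x T ≤ (2 * m + 1) * Real.exp (g * m) := by
  unfold vc
  have h := sum_le (vt 0 T) (fun v => Real.cosh (g * ((lat v + x : ℤ) : ℝ)))
    (Real.exp (g * m)) (by
      intro v hv
      apply cosh_le
      have h1 := hA.2.1 x T hT v hv
      rw [hl] at h1
      have h2 : |lat v + x| ≤ (m : ℤ) := by push_cast at h1; omega
      have h3 : |((lat v + x : ℤ) : ℝ)| ≤ m := by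
        have : ((|lat v + x| : ℤ) : ℝ) ≤ ((m : ℤ) : ℝ) := by exact_mod_cast h2
        rw [Int.cast_abs] at this
        simpa using this
      rw [abs_mul, abs_of_nonneg hg]
      exact mul_le_mul_of_nonneg_left h3 hg)
  rw [vt_length, hl] at h
  refine h.trans (le_of_eq ?_)
  push_cast
  ring

/-- the vertices of a glued word -/
lemma glue_bound (hA : LTA_Stmt) {g : ℝ} (hg : 0 ≤ g) {x : ℤ} (hx : 1 ≤ x) {U D w : Wd} {k : ℕ}
    (hk : U.length + D.length = 2 * k)
    (he : ep 0 (U ++ w ++ D) = (-x, x)) :
    vc g x (U ++ w ++ D) ≤ 2 * k * Real.exp (g * (2 * k + x)) +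
      ((vt 0 w).map (fun v => Real.cosh (g * ((lat v + lat (ep 0 U) + x : ℤ) : ℝ)))).sum := by
  have hv : vt 0 (U ++ w ++ D) = vs 0 U ++ ((vt 0 w).map (· + ep 0 U)) ++
      (vt (ep 0 (U ++ w)) D).tail := by
    rw [vt_append', vt_append, vt_eq (ep 0 U) w]
  unfold vc
  rw [hv, List.map_append, List.map_append, List.sum_append, List.sum_append, List.map_map]
  have hkx : ∀ z : ℤ, |z| ≤ 2 * k + x → Real.cosh (g * (z : ℝ)) ≤
      Real.exp (g * (2 * k + x)) := by
    intro z hz
    apply cosh_le
    rw [abs_mul, abs_of_nonneg hg]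
    apply mul_le_mul_of_nonneg_left _ hg
    have : ((|z| : ℤ) : ℝ) ≤ ((2 * k + x : ℤ) : ℝ) := by exact_mod_cast hz
    rw [Int.cast_abs] at this
    push_cast at this
    exact this
  have h1 := sum_le (vs 0 U) (fun v => Real.cosh (g * ((lat v + x : ℤ) : ℝ)))
    (Real.exp (g * (2 * k + x))) (by
      intro v hv
      apply hkx
      have h2 := hA.1 U v (by unfold vt; exact List.mem_append_left _ hv)
      have h3 : |lat v| ≤ (U.length : ℤ) := by
        have := abs_nonneg (lat (ep 0 U) - lat v)
        linarith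
      have h4 : |lat v + x| ≤ |lat v| + |x| := abs_add_le _ _
      rw [abs_of_pos (by omega : 0 < x)] at h4
      have h5 : (U.length : ℤ) ≤ 2 * k := by omega
      linarith)
  have h2 := sum_le ((vt (ep 0 (U ++ w)) D).tail) (fun v => Real.cosh (g * ((lat v + x : ℤ) : ℝ)))
    (Real.exp (g * (2 * k + x))) (by
      intro v hv
      apply hkx
      have hv' : v ∈ vt (ep 0 (U ++ w)) D := List.mem_of_mem_tail hv
      rw [vt_eq, List.mem_map] at hv'
      obtain ⟨u, hu, rfl⟩ := hv'
      have h2 := hA.1 D u hu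
      have h3 : |lat (ep 0 D) - lat u| ≤ (D.length : ℤ) := by
        have := abs_nonneg (lat u)
        linarith
      have h6 : ep 0 D + ep 0 (U ++ w) = (-x, x) := by
        rw [ep_append] at he
        rw [← he, ep_eq (ep 0 (U ++ w)) D]
      have h7 : lat (ep 0 D) + lat (ep 0 (U ++ w)) = -2 * x := by
        rw [← lat_add, h6]
        unfold lat
        ring
      rw [lat_add]
      have h8 : lat u + lat (ep 0 (U ++ w)) + x = -(lat (ep 0 D) - lat u) + -x := by
        linarith
      rw [h8]
      have h4 := abs_add_le (-(lat (ep 0 D) - lat u)) (-x)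
      rw [abs_neg, abs_neg, abs_of_pos (by omega : 0 < x)] at h4
      have h5 : (D.length : ℤ) ≤ 2 * k := by omega
      linarith)
  have h3 : (List.map ((fun v => Real.cosh (g * ((lat v + x : ℤ) : ℝ))) ∘ fun x => x + ep 0 U)
      (vt 0 w)).sum = ((vt 0 w).map (fun v =>
        Real.cosh (g * ((lat v + lat (ep 0 U) + x : ℤ) : ℝ)))).sum := by
    congr 1
    apply List.map_congr_left
    intro v _
    simp only [Function.comp, lat_add]
  rw [h3]
  rw [vs_length] at h1
  rw [List.length_tail, vt_length, Nat.add_sub_cancel] at h2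
  have h4 : (U.length : ℝ) * Real.exp (g * (2 * k + x)) + D.length * Real.exp (g * (2 * k + x)) =
      2 * k * Real.exp (g * (2 * k + x)) := by
    have : (U.length : ℝ) + D.length = 2 * k := by exact_mod_cast hk
    rw [← add_mul, this]
  linarith

/-- the odd part vanishes -/
lemma odd_zero (hM : MIR_Stmt) (r : ℕ) (g : ℝ) (x : ℤ) (N : ℕ) (G : ℕ → ℝ) (hx : 1 ≤ x) :
    ∑ w ∈ ArchSet r x N, G (hgt w) *
      ((vt 0 w).map (fun v => Real.sinh (g * ((lat v + x : ℤ) : ℝ)))).sum = 0 := by
  have h := hM r x N G (fun z => Real.sinh (g * (z : ℝ))) hx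
  have h2 : ∑ w ∈ ArchSet r x N, G (hgt w) *
      ((vt 0 w).map (fun v => Real.sinh (g * (((-(lat v + x)) : ℤ) : ℝ)))).sum =
      -∑ w ∈ ArchSet r x N, G (hgt w) *
      ((vt 0 w).map (fun v => Real.sinh (g * ((lat v + x : ℤ) : ℝ)))).sum := by
    rw [← sum_neg_distrib]
    apply sum_congr rfl
    intro w _
    rw [← mul_neg]
    congr 1
    have : (vt 0 w).map (fun v => Real.sinh (g * (((-(lat v + x)) : ℤ) : ℝ))) =
        (vt 0 w).map (fun v => - Real.sinh (g * ((lat v + x : ℤ) : ℝ))) := by
      apply List.map_congr_left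
      intro v _
      rw [Int.cast_neg, mul_neg, Real.sinh_neg]
    rw [this]
    induction vt 0 w with
    | nil => simp
    | cons a l ih =>
      simp only [List.map_cons, List.sum_cons] at ih ⊢
      rw [ih]
      ring
  rw [h2] at h
  linarith

lemma split_cosh (g : ℝ) (k x : ℤ) (l : List (ℤ × ℤ)) :
    (l.map (fun v => Real.cosh (g * ((lat v + x + k : ℤ) : ℝ)))).sum =
      Real.cosh (g * k) * (l.map (fun v => Real.cosh (g * ((lat v + x : ℤ) : ℝ)))).sum +
      Real.sinh (g * k) * (l.map (fun v => Real.sinh (g * ((lat v + x : ℤ) : ℝ)))).sum := by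
  induction l with
  | nil => simp
  | cons a l ih =>
    simp only [List.map_cons, List.sum_cons] at ih ⊢
    rw [ih]
    have : g * ((lat a + x + k : ℤ) : ℝ) = g * ((lat a + x : ℤ) : ℝ) + g * (k : ℝ) := by
      push_cast
      ring
    rw [this, Real.cosh_add]
    ring

lemma arch_zero (r : ℕ) (x : ℤ) : ArchSet r x 0 = ∅ := by
  rw [Finset.eq_empty_iff_forall_notMem]
  intro w hw
  rw [M41.mem_ArchSet] at hw
  have := hw.2.1.1
  have h2 := hw.1
  exact this (List.length_eq_zero_iff.1 h2)

end VRC

open VRC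

/-- VRC -/
theorem t_VRC (hG : HG_Stmt) (hM : MIR_Stmt) (hA : LTA_Stmt) (hP : LTP_Stmt) : VRC_Stmt := by
  classical
  intro r s ρ g x m hs hs1 hρ hg hx
  unfold Vl Cl
  rw [KW.k2' r x (2 * m) hx (fun w => s ^ (m - hgt w) * vc g x w), mul_add]
  apply add_le_add
  · have h1 : ∑ T ∈ CapSet r x (2 * m), s ^ (m - hgt T) * vc g x T ≤
        (2 * m + 1) * Real.exp (g * m) * ∑ T ∈ CapSet r x (2 * m), s ^ (m - hgt T) := by
      rw [mul_sum]
      apply sum_le_sum
      intro T hT
      rw [M41.mem_CapSet] at hT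
      rw [mul_comm]
      exact mul_le_mul_of_nonneg_right (cap_bound hA hg hT.2.1.2.1 hT.1) (by positivity)
    refine (mul_le_mul_of_nonneg_left h1 (by positivity : 0 ≤ ρ ^ m)).trans (le_of_eq ?_)
    ring
  · rw [mul_sum, sum_filter]
    apply sum_le_sum
    intro p hp
    have hpP : p ∈ Pc r := ((M41.mem_allowed _ _ _).1 hp).1
    have hx' : 1 ≤ x + jump p := ((M41.mem_allowed _ _ _).1 hp).2.2.1
    obtain ⟨hlen, hl1, -⟩ := hP r p hpP
    obtain ⟨hh1, hh2⟩ := hG.2.2 r p hpP
    split_ifs with hlt
    · obtain ⟨k, hk⟩ : ∃ k, m = hl p + k := ⟨m - hl p, by omega⟩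
      have hk1 : 1 ≤ k := by omega
      have hN : 2 * m - (p.1.length + p.2.length) = 2 * k := by omega
      have hmk : m - hl p = k := by omega
      rw [hN, hmk]
      set P : ℝ := 2 * hl p * Real.exp (g * (2 * hl p + x)) with hPd
      have key : ∑ w ∈ ArchSet r (x + jump p) (2 * k), s ^ (m - hgt (p.1 ++ w ++ p.2)) *
          vc g x (p.1 ++ w ++ p.2) ≤ s ^ (hl p - htn p) *
          (P * ∑ w ∈ ArchSet r (x + jump p) (2 * k), s ^ (k - hgt w) +
            Real.cosh (g * kap p) * ∑ w ∈ ArchSet r (x + jump p) (2 * k), s ^ (k - hgt w) *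
              vc g (x + jump p) w) := by
        have h1 : ∀ w ∈ ArchSet r (x + jump p) (2 * k), s ^ (m - hgt (p.1 ++ w ++ p.2)) *
            vc g x (p.1 ++ w ++ p.2) ≤ s ^ (hl p - htn p) * (s ^ (k - hgt w) * (P +
              (Real.cosh (g * kap p) * vc g (x + jump p) w + Real.sinh (g * kap p) *
                ((vt 0 w).map (fun v => Real.sinh (g * ((lat v + (x + jump p) : ℤ) : ℝ)))).sum))) := by
          intro w hw
          have hw' := (M41.mem_ArchSet _ _ _ _).1 hw
          have e1 := hG.1 r x (2 * k) p w hx hp hw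
          have e2 := (hG.2.1 (x + jump p) w hx' hw'.2.1).2
          rw [hw'.1] at e2
          have e3 : m - hgt (p.1 ++ w ++ p.2) = (hl p - htn p) + (k - hgt w) := by
            rw [e1]; omega
          rw [e3, pow_add, mul_assoc]
          apply mul_le_mul_of_nonneg_left _ (by positivity)
          apply mul_le_mul_of_nonneg_left _ (by positivity)
          have he : ep 0 (p.1 ++ w ++ p.2) = (-x, x) := by
            have h5 := hw'.2.1.2.1
            have h7 := ((M41.mem_Pc _ _).1 hpP).1.1.2.1
            rw [ep_append, ep_append, ep_eq (ep 0 p.1) w, h5,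
              ep_eq ((-(x + jump p), x + jump p) + ep 0 p.1) p.2]
            unfold lev at h7
            ext
            · simp only [Prod.fst_add]
              unfold jump
              ring
            · simp only [Prod.snd_add]
              unfold jump
              linarith
          have e4 := glue_bound hA hg hx (U := p.1) (D := p.2) (w := w) (k := hl p) hlen.symm he
          refine e4.trans ?_
          have e5 : ((vt 0 w).map (fun v =>
              Real.cosh (g * ((lat v + lat (ep 0 p.1) + x : ℤ) : ℝ)))) =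
              ((vt 0 w).map (fun v =>
              Real.cosh (g * ((lat v + (x + jump p) + kap p : ℤ) : ℝ)))) := by
            apply List.map_congr_left
            intro v _
            congr 2
            unfold kap
            push_cast
            ring
          rw [e5, split_cosh]
          unfold vc
          rw [← hPd]
        refine (sum_le_sum h1).trans (le_of_eq ?_)
        rw [← mul_sum]
        congr 1
        have h2 := odd_zero hM r g (x + jump p) (2 * k) (fun j => s ^ (k - j)) hx'
        simp only [mul_add, sum_add_distrib]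
        have h3 : ∑ w ∈ ArchSet r (x + jump p) (2 * k), s ^ (k - hgt w) *
            (Real.sinh (g * kap p) * ((vt 0 w).map (fun v =>
              Real.sinh (g * ((lat v + (x + jump p) : ℤ) : ℝ)))).sum) = 0 := by
          have : ∀ w ∈ ArchSet r (x + jump p) (2 * k), s ^ (k - hgt w) *
            (Real.sinh (g * kap p) * ((vt 0 w).map (fun v =>
              Real.sinh (g * ((lat v + (x + jump p) : ℤ) : ℝ)))).sum) =
              Real.sinh (g * kap p) * (s ^ (k - hgt w) * ((vt 0 w).map (fun v =>
              Real.sinh (g * ((lat v + (x + jump p) : ℤ) : ℝ)))).sum) := fun w _ => by ring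
          rw [sum_congr rfl this, ← mul_sum, h2, mul_zero]
        rw [h3, add_zero]
        congr 1
        · rw [mul_sum]
          apply sum_congr rfl
          intro w _
          ring
        · rw [mul_sum]
          apply sum_congr rfl
          intro w _
          ring
      have h8 := mul_le_mul_of_nonneg_left key (by positivity : 0 ≤ ρ ^ m)
      refine h8.trans (le_of_eq ?_)
      unfold wp Al
      rw [hk, pow_add]
      ring
    · have hN : 2 * m - (p.1.length + p.2.length) = 0 := by omega
      rw [hN, arch_zero, sum_empty, mul_zero]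

end Pool.Agent.DIA
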