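import Pool.Agent.DIA.MIR
import Pool.Agent.DIA.LTA
import Pool.Agent.DIA.LTP
import Pool.Agent.DIA.VRC
import Pool.Agent.DIA.KER
import Pool.Agent.DIA.VIN
import Pool.Agent.DIA.LTQ
import Pool.Agent.DIA.K1G
import Pool.Agent.DIA.TRG
import Pool.Agent.DIA.BDB
import Pool.Agent.DIA.RFL
import Pool.Agent.DIA.DMX
import Pool.Agent.DIA.TRW
import Pool.Agent.Lib_helper89.FL.HG
import Pool.Agent.Lib_helper74.FS.CDF

/-!
# Project DIA: the common part of the two theorems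
-/

set_option autoImplicit false

namespace Pool.Agent.DIA

open Finset Filter Topology MeasureTheory
open Pool.Agent.Lib27 Pool.Agent.SapR Pool.Agent.Gap Pool.Agent.AreaLaw Pool.Agent.FL
open Pool.Agent.FS

theorem m_LTP : LTP_Stmt := t_LTP hg

theorem m_VRC : VRC_Stmt := t_VRC hg t_MIR t_LTA m_LTP

theorem m_KER : KER_Stmt := t_KER hg m_LTP

theorem m_VIN : VIN_Stmt := t_VIN m_VRC m_KER m_LTP

theorem m_LTQ : LTQ_Stmt := t_LTQ m_VIN m_KER t_LTA hg

theorem m_TRG : TRG_Stmt := t_TRG t_K1G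

theorem m_BDB : BDB_Stmt := t_BDB m_LTQ m_TRG hg

theorem m_TRW : TRW_Stmt := t_TRW t_RFL CDF_thm

end Pool.Agent.DIA
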