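import Pool.Agent.DIA.Defs

/-!
# Project DIA (MP_f6626d_co): area law for self-avoiding polygons of prescribed graph diameter

THEOREM: as the hand-ins `AreaLawEverySpan` and `AreaLawVanishingForce`, for the diameter
`diam = max (span, lateral span)` of the polygon in the graph distance.
METHOD: a polygon with span at least `c n` has lateral span at most `n ^ (1/2 + small)` up to an
exponentially small fraction (`LTQ`); so the polygons with diameter `h` are those with span `h` and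
their reflections, up to negligible sets (`TRW`). Every doc string contains the proof. `D ≥ 2` is
the class parameter, `θ = 1 - 1/D`; `K` exponents, not always the same.
-/

set_option autoImplicit false

namespace Pool.Agent.DIA

open Finset Filter Topology MeasureTheory
open Pool.Agent.Lib27 Pool.Agent.SapR Pool.Agent.Gap Pool.Agent.AreaLaw Pool.Agent.FL
open Pool.Agent.FS
open Pool.Agent.NSP (Reg)
open Pool.Agent.EXW (Mf)

/-! ### Combinatorics -/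

/-- DMX: the diameter is the maximum of the span and the lateral span. PROOF.
`|a| + |b| = max |a + b| |a - b|` for integers `a = Δx`, `b = Δy`; `sup` over the symmetric set of pairs
(exchange the two components of a pair for the sign). `≤`: `Finset.sup_le`, then `Finset.le_sup` at the
pair or at the exchanged pair. -/
def DMX_Stmt : Prop := ∀ (n : ℕ) (s : Fin (2 * n) → Fin 4), diam n s = max (span n s) (lspan n s)

/-- RFL: the reflection. PROOF. `pos n (fl n s) k = ((pos n s k).1, - (pos n s k).2)` (sum of steps;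
`step (rf a) = ((step a).1, - (step a).2)` for the four letters). So `SAP n` is preserved, the
shoelace sum changes its sign, `x + y` and `x - y` are exchanged. `rf (rf a) = a`. `diam`: DMX or
directly. -/
def RFL_Stmt : Prop := ∀ (n : ℕ) (s : Fin (2 * n) → Fin 4), (s ∈ SAP n → fl n s ∈ SAP n) ∧
  fl n (fl n s) = s ∧ area n (fl n s) = area n s ∧ span n (fl n s) = lspan n s ∧
  lspan n (fl n s) = span n s ∧ diam n (fl n s) = diam n s

/-- K1G: the canonical root decomposition with a further functional `Q`. PROOF. The text of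
`FL.K1H.k1h` (`Lib_helper89/FL/K1H.lean`) with `F (dbl 0 s) (spn s) (Q s)`; the invariance of
`Q` is used where the one of `spn` (`spn_rotate`, `spn_rot'`, `spn_rv`) is used; in the last step
`Q` is evaluated at `w ++ rot2 T` (nothing to prove). -/
def K1G_Stmt : Prop := ∀ (r n : ℕ), r < 2 * n → ∀ Q : Wd → ℕ,
  (∀ l₁ l₂ : Wd, ep 0 (l₁ ++ l₂) = 0 → Q (l₂ ++ l₁) = Q (l₁ ++ l₂)) →
  (∀ s : Wd, ep 0 s = 0 → Q (rv s) = Q s) → ∀ F : ℤ → ℕ → ℕ → ℝ,
  ∑ s ∈ Fam r n, F |dbl 0 s| (spn s) (Q s) =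
    4 * n * ∑ x ∈ Icc (1 : ℤ) r, ∑ M ∈ range (r + 2), ∑ T ∈ CapSet r x M,
      ∑ w ∈ ArchSet r x (2 * n - M), F (dbl 0 w + dbl 0 T) (hgt w + hgt T) (Q (w ++ rot2 T))

/-- TRG (from K1G): the text of `FL.tr` (`Lib_helper89/FL/TR.lean`) with the lateral span. PROOF.
`lspan n s = lsn (List.ofFn s)` as `FL.TR.span_eq` (with `lat` instead of `lev`); `lsn` is invariant
under rotation and reversal of closed words as `spn` (`FL.K1H.spl_perm`, `spl_shift`, `spn_rotate`,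
`spn_rv` with `lat` instead of `lev`); `FL.TR.fam_eq`. -/
def TRG_Stmt : Prop := ∀ n : ℕ, 1 ≤ n → ∀ F : ℤ → ℕ → ℕ → ℝ,
  ∑ s ∈ SAP n, F |dbl 0 (List.ofFn s)| (span n s) (lspan n s) =
    4 * n * ∑ q ∈ Omn n, F (dq q) (sp q) (ls q) + ∑ w ∈ NoCut n, F |dbl 0 w| (spn w) (lsn w)

/-- MIR: mirror symmetry of the arches of gap `x`. PROOF. Let `sw = ![1, 0, 3, 2]` (East and North,
West and South are exchanged) and `mir w = (rv w).map sw`. With `w` from `0` to `(-x, x)` the vertices of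
`mir w` (in reversed order) are `σ v + (-x, x)`, `v` in `vt 0 w`, `σ (a, b) = (b, a)`: for `v = ep 0 w` this is
`0`. (Show `vt 0 (w.map sw) = (vt 0 w).map σ` and use the known behaviour of `vt` under `rv`, compare
`vs_rv_perm`; a `List.Perm` is enough for the sums and the counts.) `lev` is preserved, and
`lat (σ v + (-x, x)) + x = - (lat v + x)`. So `mir` is an involution of `ArchSet r x N` (`Arch` and `ArchRuns` only
use levels of vertices, injectivity and the end point) which preserves `hgt`. -/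
def MIR_Stmt : Prop := ∀ (r : ℕ) (x : ℤ) (N : ℕ) (G : ℕ → ℝ) (F : ℤ → ℝ), 1 ≤ x →
  ∑ w ∈ ArchSet r x N, G (hgt w) * ((vt 0 w).map (fun v => F (lat v + x))).sum =
    ∑ w ∈ ArchSet r x N, G (hgt w) * ((vt 0 w).map (fun v => F (-(lat v + x)))).sum

/-- LTA: lateral bounds. PROOF. (1) a vertex `v` of `w` splits `w = a ++ b` with `v = ep 0 a` and each step
changes `lat` by `±1`: `|lat v| ≤ |a|`, `|lat (ep 0 w) - lat v| ≤ |b|` (so their sum is at most `|w|`). (2) if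
`ep 0 w = (-x, x)` then `2 (lat v + x) = lat v - (lat (ep 0 w) - lat v)`. (3) the difference of `lat` of two vertices
is at most the number of steps between them. (4) the vertices of `w ++ rot2 T` are those of `w` and `-q + (-x, x)` with
`q` in `vs 0 T` (`FL.K1H.mem_glue`), `lat (-q + (-x, x)) + x = -(lat q + x)`; if `lat c - lat c' ≥ L` then
`2 |lat c + x| ≥ L` or `2 |lat c' + x| ≥ L`; (2) for `T`. For `L = 0` take `v = 0`. -/
def LTA_Stmt : Prop :=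
  (∀ (w : Wd), ∀ v ∈ vt 0 w, |lat v| + |lat (ep 0 w) - lat v| ≤ w.length) ∧
  (∀ (x : ℤ) (w : Wd), ep 0 w = (-x, x) → ∀ v ∈ vt 0 w, 2 * |lat v + x| ≤ w.length) ∧
  (∀ w : Wd, lsn w ≤ w.length) ∧
  ∀ (x : ℤ) (w T : Wd) (L : ℕ), Arch x w → Arch x T → L ≤ lsn (w ++ rot2 T) →
    (∃ v ∈ vt 0 w, (L : ℤ) ≤ 2 * |lat v + x|) ∨ L ≤ T.length

/-- LTP: the pieces. PROOF. `p = (U, D)` with `StripPair`, `h = lev (ep 0 U)`: `lat (ep 0 U) = 2 (ep 0 U).1 - h`,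
`lat (ep 0 D) = 2 (ep 0 D).1 + h`, so `2 kap = lat (ep U) - lat (ep D)`, `2 jump = lat (ep U) + lat (ep D)` and
`|lat (ep U)| ≤ |U|`, `|lat (ep D)| ≤ |D|`; `|U| + |D| = 2 hl p` (`FL.hl_eq`, parity). `flip`: `ep 0 (rot2 w) = - ep 0 w`
(the old K5flip, `SapR.K5flip_Stmt`, proved in `Lib_helper66/SapR`, gives `flip p ∈ Pc r` and more). -/
def LTP_Stmt : Prop := ∀ (r : ℕ) (p : Wd × Wd), p ∈ Pc r →
  2 * hl p = p.1.length + p.2.length ∧ 1 ≤ hl p ∧ |kap p| ≤ hl p ∧ |jump p| ≤ hl p ∧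
  SapR.flip p ∈ Pc r ∧ SapR.flip (SapR.flip p) = p ∧ kap (SapR.flip p) = kap p ∧
  jump (SapR.flip p) = - jump p ∧ hl (SapR.flip p) = hl p ∧ htn (SapR.flip p) = htn p

/-! ### Exponential moments of the lateral coordinate -/

/-- VRC (from HG, MIR, LTA, LTP and the old K2, K3): the recursion. PROOF. K2 (`SapR.k2`) with
`F w = s^(m - hgt w) * vc g x w` and `N = 2 m`. Caps: `vc g x T ≤ (2 m + 1) cosh (g m)` by LTA (2). Word
`U ++ w ++ D` with `x' = x + jump p`, `w` in `ArchSet r x' (2 (m - hl p))` (nonempty only if `hl p < m`):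
`hgt = htn p + hgt w` (HG), so `s^(m - hgt) = s^(hl p - htn p) * s^((m - hl p) - hgt w)` (HG for the
inequalities). `vt 0 (U ++ w ++ D) = vs 0 U ++ (vt 0 w).map (· + ep 0 U) ++ tail of the vertices of D`
(list sums split). (i) at most `|U| + |D| = 2 hl p` vertices of the strands, each with
`|lat v + x| ≤ 2 hl p + x` (LTA (1); for `D` from the end point `(-x, x)`), `cosh a ≤ exp |a|`. (ii) for `v` in
`vt 0 w`: `lat (v + ep 0 U) + x = (lat v + x') + kap p`, and by MIR (with `G k = s^((m - hl p) - k)`) the sum over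
`w` of the odd part `sinh (g (lat v + x')) sinh (g kap p)` vanishes: it remains
`cosh (g kap p) * Vl r s ρ g x' (m - hl p)`. -/
def VRC_Stmt : Prop := ∀ (r : ℕ) (s ρ g : ℝ) (x : ℤ) (m : ℕ), 0 < s → s ≤ 1 → 0 < ρ → 0 ≤ g →
  1 ≤ x → Vl r s ρ g x m ≤ (2 * m + 1) * Real.exp (g * m) * Cl r s ρ x m +
    ∑ p ∈ (allowed r x).filter (fun p => hl p < m), wp s ρ p *
      (2 * hl p * Real.exp (g * (2 * hl p + x)) * Al r s ρ (x + jump p) (m - hl p) +
        Real.cosh (g * kap p) * Vl r s ρ g (x + jump p) (m - hl p))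

/-- KER (from LTP, HG and the old K2, K3): the kernel. PROOF. (1) `flip` is an involution of `Pc` (`flip (flip p) = p`) with `kap`
invariant and `jump` odd, so the sum is the one of `wp cosh (g kap) cosh (g jump)`, and
`cosh a cosh b ≤ cosh (|a| + |b|) ≤ cosh (2 g hl p) ≤ 1 + (2 g hl p)^2 exp (2 g hl p)`. Sum over `m = hl p` with
`Tails` (1): `∑_m D θ^m (2 m)^2 exp (2 g m) ≤ ∑_m 4 D m^2 exp(-m/D + m/(4D)) ≤ D^K` (`θ ≤ exp(-1/D)`,
`m^2 ≤ C D^2 exp(m/(4D))`, geometric series); the sums run over `m ≤ 2 n + 1` only. (2) the same. (3) K2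
(`SapR.k2`) and HG: `Al x m = Cl x m + ∑_(p allowed, hl p < m) wp p Al (x + jump p) (m - hl p)`;
`Cl x m ≤ D θ^m` (`Tails` (2), the term `x ≤ m`; for `x > m` there is no cap: `2 x ≤ |T|`), strong induction
`Al x m ≤ ∑_(j ≤ m) D θ^j ≤ D^2`, as `∑ wp = 1`. (4) one term of `Tails` (2). -/
def KER_Stmt : Prop := ∃ K : ℕ, ∀ D : ℝ, 2 ≤ D → ∀ (n : ℕ) (s ρ : ℝ), 1 ≤ n → 0 < s → s ≤ 1 →
  0 < ρ → ∑ p ∈ Pc (2 * n - 1), wp s ρ p = 1 → Tails D (1 - D⁻¹) n s ρ →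
  (∀ g : ℝ, 0 ≤ g → 8 * D * g ≤ 1 →
    ∑ p ∈ Pc (2 * n - 1), wp s ρ p * (Real.cosh (g * kap p) * Real.exp (g * jump p)) ≤
      1 + D ^ K * g ^ 2 ∧
    ∑ p ∈ Pc (2 * n - 1), wp s ρ p * (2 * hl p * Real.exp (g * (2 * hl p))) ≤ D ^ K) ∧
  (∀ (x : ℤ) (m : ℕ), 1 ≤ x → Al (2 * n - 1) s ρ x m ≤ D ^ 2) ∧
  ∀ (x : ℤ) (m : ℕ), 1 ≤ x → Cl (2 * n - 1) s ρ x m ≤ D * (1 - D⁻¹) ^ m

/-- VIN (from VRC, KER): PROOF. `S = D^K'` bounds the first term (`(2m+1) exp(g m) D θ^m ≤ D^K'`) and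
the strand part divided by `exp (g x)` (KER (2), (3)). CLAIM `Vl x m ≤ 2 S (m + 1) exp(D^K g^2 m + g x)`, by
strong induction on `m` for all `x ≥ 1` (`Vl x 0 = 0` is included: no `p`): with `κ = exp(D^K g^2)`, `hl p ≥ 1`
(HG or `Pc`), the last part is at most `2 S m κ^(m-1) exp(g x) ∑ wp cosh(g kap) exp(g jump) ≤ 2 S m κ^m exp(g x)` (all terms of `Pc` are
nonnegative, `allowed ⊆ Pc`). -/
def VIN_Stmt : Prop := ∃ K : ℕ, ∀ D : ℝ, 2 ≤ D → ∀ (n : ℕ) (s ρ : ℝ), 1 ≤ n → 0 < s → s ≤ 1 →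
  0 < ρ → ∑ p ∈ Pc (2 * n - 1), wp s ρ p = 1 → Tails D (1 - D⁻¹) n s ρ →
  ∀ g : ℝ, 0 ≤ g → 8 * D * g ≤ 1 → ∀ (x : ℤ) (m : ℕ), 1 ≤ x →
    Vl (2 * n - 1) s ρ g x m ≤ D ^ K * (m + 1) * Real.exp (D ^ K * g ^ 2 * m + g * x)

/-- LTQ (from VIN, KER, LTA, HG): canonical words with large lateral span. PROOF. `q = (x, M, T, w)`,
`M = 2 μ` (a cap of gap `x` has even length), `wtq n s q = s^(μ - hgt T) s^((n - μ) - hgt w)` (HG). If `L ≤ ls q` then
(LTA (4)) `L ≤ 2 μ` or some `v` in `vt 0 w` has `2 |lat v + x| ≥ L`, so `1 ≤ 2 exp(-g L/2) vc g x w`. Second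
case: at most `2 exp(-g L/2) ∑_μ ∑_x ∑_T ρ^μ s^(μ - hgt T) Vl x (n - μ) ≤
2 exp(-g L/2) D^K (n+1) exp(D^K g^2 n) ∑_μ D θ^μ exp(g μ)` (`x ≤ μ` for caps: `2 x ≤ |T|`; VIN, `Tails` (2)). Take
`g = L/(4 D^K n)` (`8 D g ≤ 1` for `L ≤ 2 n`, `K` large; for `L > 2 n` there is no such `q`, LTA (3)):
`D^K g^2 n - g L/2 = -L^2/(16 D^K n)`. First case: `D^2 ∑_(μ ≥ L/2) D θ^μ ≤ D^4 exp(-L/(2D)) ≤ D^4 exp(-L^2/(4 D n))`
(KER (3), `L ≤ 2 n`). Increase `K` (`D ≥ 2` absorbs constants, `n ≥ 1`). -/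
def LTQ_Stmt : Prop := ∃ K : ℕ, ∀ D : ℝ, 2 ≤ D → ∀ (n : ℕ) (s ρ : ℝ), 1 ≤ n → 0 < s → s ≤ 1 →
  0 < ρ → ∑ p ∈ Pc (2 * n - 1), wp s ρ p = 1 → Tails D (1 - D⁻¹) n s ρ → ∀ L : ℕ,
    ρ ^ n * ∑ q ∈ (Omn n).filter (fun q => L ≤ ls q), wtq n s q ≤
      D ^ K * (n : ℝ) ^ K * Real.exp (-((L : ℝ) ^ 2 / (D ^ K * n)))

/-! ### Prescribed diameter -/

/-- BDB (from LTQ, TRG, HG): polygons in the frozen encoding. PROOF. (1) `FS.CHOICE`: `span_le`. (2) TRG with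
`F a k l = if inC b h k then 1 else 0`, the sum over `NoCut` is nonnegative. (3) TRG with `F a k l = σ^(n - k)`:
`4 n Zq n σ ≤ ∑ σ^(n - span)`. (4) TRG with `F a k l = if L ≤ l then s^(n - k) else 0`: the sum is
`4 n ∑_(q, L ≤ ls q) wtq n s q + ∑_(w in NoCut, L ≤ lsn w) s^(n - spn w)`; LTQ for the first part, `Tails` (3) for the
second one (`∑_(NoCut n) ρ^n s^(n - spn w) ≤ D n θ^n`). Increase `K`. -/
def BDB_Stmt : Prop := (∀ n : ℕ, ∀ w ∈ SAP n, span n w ≤ n) ∧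
  (∀ (n : ℕ) (b : Bool) (h : ℕ), 1 ≤ n →
    4 * n * Finset.card (@Finset.filter _ (fun q => inC b h (sp q)) (Classical.decPred _) (Omn n)) ≤
      (cls n b h).card) ∧
  (∀ (n : ℕ) (σ : ℝ), 1 ≤ n → 0 < σ → 4 * n * Zq n σ ≤ ∑ w ∈ SAP n, σ ^ (n - span n w)) ∧
  ∃ K : ℕ, ∀ D : ℝ, 2 ≤ D → ∀ (n : ℕ) (s ρ : ℝ), 1 ≤ n → 0 < s → s ≤ 1 →
    0 < ρ → ∑ p ∈ Pc (2 * n - 1), wp s ρ p = 1 → Tails D (1 - D⁻¹) n s ρ → ∀ L : ℕ,
      ρ ^ n * ∑ w ∈ (SAP n).filter (fun w => L ≤ lspan n w), s ^ (n - span n w) ≤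
        D ^ K * (n : ℝ) ^ K * (Real.exp (-((L : ℝ) ^ 2 / (D ^ K * n))) + (1 - D⁻¹) ^ n)

/-- SRG (from BDB, CLSZ, ZB): regular sequences. PROOF. Let `s = s n ≤ 1/4` (eventually), `ρ`, `C, θ`
from ZB (`s1 = 1/4`), `D ≥ 2` fixed with `C ≤ D`, `θ ≤ 1 - 1/D` (`Tails.mono` and monotonicity in `θ`). On `bad` the
span is `≥ h` and the lateral span `≥ h`, so (`s ≤ 1`) `s^(n-h) #bad ≤ ∑_(h ≤ lspan) s^(n - span) ≤
ρ^-n D^K n^K (exp(-h^2/(D^K n)) + θ^n)` (BDB (4)). BDB (2): `#cls ≥ 4 n #{q : inC b h (sp q)}`, and by CLSZ (first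
part), ZB (lower bound of `Zq`), `√(s n * n) ≤ √n`: `s^(n-h) #cls ≥ c n^-3 ρ^-n`. With `n ≤ 2 h` the quotient is at
most `n^K' exp(-c' n)`, and `exp(√n) n^K' exp(-c' n) → 0`. -/
def SRG_Stmt : Prop := ∀ (s : ℕ → ℝ) (h : ℕ → ℕ), Reg s h → ∀ b : Bool,
  Tendsto (fun n : ℕ => if n ≤ 2 * h n then bq b n (h n) else 0) atTop (𝓝 0)

/-- SLD (from BDB, CLS, ZB, CHOICE, POL): the old regime. PROOF. POL for `v` gives `c`; with
`e = min c v` eventually `#{h n ≤ span} ≤ #{v n ≤ span} ≤ exp(-e n) #SAP` and `h n ≤ (1 - e) n`, so CHOICE gives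
`f n` in `[e/2, f1]` with `Cen n (f n) (h n)` for large `n` (`f n = e/2` else; `e/2 ≤ f1`). Then as SRG with
`s n = exp(-f n)`, CLS first part (`c/√n Zq ≤ s^(n-h) #{q : inC b h (sp q)}`), ZB with `s1 = exp(-e/2)`, and
`h n ≥ v n` in BDB (4). -/
def SLD_Stmt : Prop := ∀ v : ℝ, 0 < v → ∀ h : ℕ → ℕ,
  (∀ᶠ n : ℕ in atTop, v * n ≤ (h n : ℝ) ∧ (h n : ℝ) ≤ (1 - v) * n) → ∀ b : Bool,
    Tendsto (fun n : ℕ => bq b n (h n)) atTop (𝓝 0)

/-- SAL (from SRG, SLD, CHOZ, EQZ, BDZ, DIAGM): all diameters from `e n * n` to `n`. PROOF. (1) DIAGM for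
`F r n j = bq b n j`, `m r = 0`, `ok e n j = (e n ≤ j ≤ (1 - e) n)`: its hypothesis for `e > 0` and `h` follows from SLD
for `v = min e (1/4)` and `h' n = h n` if `ok`, `h' n = n / 2` else. Take the maximum of the sequences `e` for the two
values of `b` (`max` tends to `0`, `ok` is monotone). (2) `NSP.finb_gen` for this `e` and `G = bq b`: `hnew` by
`NSP.nsf_gen` for `G n j = if n ≤ 2 j then bq b n j else 0` (SRG), which is `bq b n (h n)` eventually if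
`h n / n → 1`. -/
def SAL_Stmt : Prop := ∃ e : ℕ → ℝ, (∀ n, 0 < e n) ∧ Tendsto e atTop (𝓝 0) ∧
  ∀ h : ℕ → ℕ, (∀ᶠ n : ℕ in atTop, e n * n ≤ (h n : ℝ) ∧ h n ≤ n) → ∀ b : Bool,
    Tendsto (fun n : ℕ => bq b n (h n)) atTop (𝓝 0)

/-- TRW (from RFL, `FS.CDF_thm`): transfer. PROOF. `Z = wZ n (W n)`, `m_r = ∑ W area^r / Z`, `E = wErr`. By RFL
(`s ↦ fl n s` is a bijection of `SAP n`, area invariant) `|∑ W' φ(area) - 2 ∑ W φ(area)| ≤ E sup |φ|` for every `φ`.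
On `SAP n` (`n ≥ 2`): `1/2 ≤ area ≤ 4 n^2`: `2 area = |dbl|` is a nonzero integer (`dbl_ge` in
`Lib_helper27/Winding.lean`, see `KCC.K1.dbl_ne` in `KCC/K1.lean`; upper bound `H66.abs_dbl_le`; translation between
`area` and `dbl`: see `FS/SAPC.lean` or `FL.transfer` in `Lib_helper89/FL/FinB.lean`). CDF: `FS.CDF_thm` with `P = Q = SAP n`,
`w = W/Z`, `v = W'/Z'`, `S = T = area/m_1` (`∑ w S = 1`): `|E_v φ(T) - E_w φ(S)| ≤ 3 E/Z`, `|E_v T - 1| ≤ C n^2 E/Z`. Moments: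
`|E_v area^r / m_r - 1| ≤ C_r n^(2r) E/Z → 0` (`m_r ≥ 2^-r`), also for `r = 1`. -/
def TRW_Stmt : Prop := ∀ (μ : Measure ℝ), IsProbabilityMeasure μ →
  ∀ W W' : ∀ n : ℕ, (Fin (2 * n) → Fin 4) → ℝ,
    (∀ n s, 0 ≤ W n s) → (∀ n s, 0 ≤ W' n s) → (∀ᶠ n in atTop, 0 < wZ n (W n)) →
    (∀ j : ℕ, Tendsto (fun n : ℕ => (n : ℝ) ^ j * (wErr n (W n) (W' n) / wZ n (W n))) atTop (𝓝 0)) →
    ((∀ x : ℝ, μ {x} = 0 →
        Tendsto (fun n : ℕ => wCdf n (W n) x) atTop (𝓝 (μ (Set.Iic x)).toReal)) →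
      ∀ x : ℝ, μ {x} = 0 →
        Tendsto (fun n : ℕ => wCdf n (W' n) x) atTop (𝓝 (μ (Set.Iic x)).toReal)) ∧
    ∀ (r : ℕ) (L : ℝ), Tendsto (fun n : ℕ => wMom n (W n) r) atTop (𝓝 L) →
      Tendsto (fun n : ℕ => wMom n (W' n) r) atTop (𝓝 L)

/-- CER (from DMX, RFL): classes. PROOF. Weights `1` on the classes: `W s = if inC b h (span n s) then 1 else 0`,
`W' s = if inC b h (diam n s) then 1 else 0`; `span n (fl s) = lspan n s`, `diam = max`. Pointwise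
`|W' s - (W s + W (fl s))| ≤ [s in bad] + [fl s in bad]`: `b = false`: `W' = W + W∘fl - [span ≥ h, lspan ≥ h]`.
`b = true`: if `span = h`, `lspan < h` : `1 = 1 + 0`; if `span = h < lspan` or `span = h = lspan` the error is at most
`1` and `s` is in `bad`; similarly with `span` and `lspan` exchanged (`fl s` in `bad`); else both sides are `0`. Sum over
`SAP n` with RFL. (2), (3): definitions (`Finset.sum_filter`, `Finset.card`; for the distribution function the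
filters `area * card ≤ x * ∑` agree). -/
def CER_Stmt : Prop := ∀ (n : ℕ) (b : Bool) (h : ℕ),
  (wErr n (fun s => if s ∈ cls n b h then 1 else 0) (fun s => if s ∈ dcl n b h then 1 else 0) ≤
    2 * (bad n b h).card) ∧
  (∀ F : Finset (Fin (2 * n) → Fin 4), F ⊆ SAP n →
    wZ n (fun s => if s ∈ F then 1 else 0) = F.card ∧
    (∀ x : ℝ, wCdf n (fun s => if s ∈ F then 1 else 0) x = areaCdf n F x) ∧
    ∀ r : ℕ, wMom n (fun s => if s ∈ F then 1 else 0) r = KCC.areaMoment n F r) ∧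
  dcl n true h = (SAP n).filter (fun s => diam n s = h) ∧
  dcl n false h = (SAP n).filter (fun s => h ≤ diam n s)

/-! ### The force -/

/-- SPB (from MC, MN, MGI1): the weight of all polygons at the critical weight. PROOF. `s = exp(-f)`,
`D = Mf A f`. Case `f ≥ 1`: `ρ ≤ 1/4` (the four pieces of half length `1`, `MGI2`), `#SAP n ≤ 4 * 3^(2n-1)` (or use
`#SAP n ≤ 4^(2n)` replaced by the bound `3` per step: a self-avoiding word has no immediate reversal), so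
`#SAP ρ^n exp(-f (n - L)) ≤ 2 (9/4)^n exp(-f n (1 - 1/D)) ≤ 2 (9/4 exp(-0.99))^n` and `9/4 < exp(0.9)`. Case `f ≤ 1`: let `x` be
as in MC, `y ≥ x (1 + c exp(-A0/f))` for `c = f/4` with `chi y ≤ exp(A0/f)`. A word in `SAP n` without its last step is a
self-avoiding word with `2n - 1` steps: `#SAP n * y^(2n-1) ≤ 4 chi y`. The number `x` satisfies
`∑'_(free pieces) x^(|U|+|D|) exp(f ht) = 1` (`MG.free_one`; MN states it with its own `x`, which is the same: the sum is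
strictly increasing in `x`; or follow the proof of MN, `EXW/MN.lean`, and of ROOM, `EXW/ROOM.lean`, where exactly this `x` is used). As in
`RoomX.low` (`EXW/ROOM.lean`) the sum over `Pc (2n-1)` at the weight `x^2/s` is at least `1 - C0 (1+e)^-(2n)`, so at
`x^2 (1+δ)/s` it is at least `(1+δ)(1 - C0 (1+e)^-(2n)) > 1` for `δ = (f/16) exp(-A0/f)` and `n ≥ exp(A/f)`: `ρ s ≤ x^2 (1+δ)`. So
`#SAP (ρ s)^n ≤ 4 y chi(y) ((1+δ)/(1 + 4δ)^2)^n ≤ exp(A/f) exp(-δ n)` (`y ≤ 1` as `chi y < ∞`), and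
`f L ≤ L ≤ n/D ≤ δ n/2` for `A` large. -/
def SPB_Stmt : Prop := ∃ A : ℝ, 1 ≤ A ∧ ∀ (f : ℝ) (n L : ℕ) (ρ : ℝ), 0 < f → Mf A f ≤ n →
  (L : ℝ) * Mf A f ≤ n → 0 < ρ →
  ∑ p ∈ Pc (2 * n - 1), wp (Real.exp (-f)) ρ p = 1 →
    ((SAP n).card : ℝ) * (ρ * Real.exp (-f)) ^ n * Real.exp (f * L) ≤
      Mf A f * Real.exp (-(n / Mf A f))

/-- ZBF (from DAT2, QCS, QRAT, SLOW2): critical weight, tails and lower bound of the total weight.
PROOF. As the beginning of `EXW.t_FINAL3` (`EXW/FINAL3.lean`): eventually `0 < f n` and `Mf A (f n) ^ K ≤ n` for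
every `K` (SLOW2), `DAT2` gives `d : Dat2 M (1 - M⁻¹) n (exp(-f n))` with `M = Mf A (f n)`: `ρ = d.G.rho`, `d.crit`, `d.tails`,
and `QCS` the critical solution `V` with parameter `M^K`. QRAT with `D = M^(K+1)` (`Cls`, `ClsCap` monotone in the
parameter as in `EXW.final2_mono` and its neighbours; `s = t = capW n s`, `W = D^K0`, `n0 = ⌊2 sig2 n / mbar⌋₊`,
`Sc0`: `(D W)^K0 ≤ n` from SLOW2, `near` by the floor): `(D^K1)⁻¹ ≤ n √n ρ^n P(1)`, and `P(1) = ∑ wtq` by `d.count` at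
`X = 1`. -/
def ZBF_Stmt : Prop := ∃ A : ℝ, 1 ≤ A ∧ ∀ f : ℕ → ℝ,
  Tendsto (fun n : ℕ => f n * Real.log n) atTop atTop → ∃ K : ℕ, ∀ᶠ n : ℕ in atTop,
    0 < f n ∧ ∃ ρ : ℝ, 0 < ρ ∧ ∑ p ∈ Pc (2 * n - 1), wp (Real.exp (-f n)) ρ p = 1 ∧
      Tails (Mf A (f n)) (1 - (Mf A (f n))⁻¹) n (Real.exp (-f n)) ρ ∧
      (Mf A (f n) ^ K)⁻¹ ≤ sc n * ρ ^ n * Zq n (Real.exp (-f n))

/-- FER (from ZBF, SPB, BDB, DMX, RFL, SLOW2): the error under the force. PROOF. `s = exp(-f)`,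
`f = f n > 0`. Pointwise `|exp(f max(a,b)) - (exp(f a) + exp(f b))| = exp(f min(a,b))` (`a = span`, `b = lspan`, DMX,
RFL), and `exp(f min(a,b)) ≤ [b ≥ L] exp(f a) + exp(f L)`; `exp(f a) = exp(f n) s^(n - a)` (BDB (1)). So by BDB (4) the
first part is at most `exp(f n) ρ^-n D^K n^K (exp(-L^2/(D^K n)) + θ^n)`, `D = Mf A f` (one `A` for ZBF and SPB: the
maximum; `Tails` and the bounds of SPB are monotone in the parameter, `Mf` is monotone in `A`). The second part by SPB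
with `L = ⌊n/D⌋₊`: `#SAP exp(f L) ≤ exp(f n) ρ^-n D exp(-n/D)`. And `wZ = ∑ exp(f span) = exp(f n) ∑ s^(n - span) ≥
exp(f n) 4 n Zq ≥ exp(f n) ρ^-n 4 n (D^K sc n)⁻¹` (BDB (3), ZBF). So the quotient is at most
`D^K' n^K' exp(-n/D^K')` (`L ≥ n/(2D)`, `θ^n ≤ exp(-n/D)`); by SLOW2 `D^(2 K') ≤ n` eventually, so this is at most
`n^(2K') exp(-√n)`. -/
def FER_Stmt : Prop := ∀ f : ℕ → ℝ, Tendsto (fun n : ℕ => f n * Real.log n) atTop atTop → ∀ j : ℕ,
  Tendsto (fun n : ℕ => (n : ℝ) ^ j * (wErr n (fun s => Real.exp (f n * span n s))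
    (fun s => Real.exp (f n * diam n s)) / wZ n (fun s => Real.exp (f n * span n s)))) atTop (𝓝 0)

end Pool.Agent.DIA
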